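import Pool.Agent.Lib.MP_6a20cc_nt.NewProd

/-! Type I and type II estimates for products of mean zero local functions. -/

namespace Pool.Agent.Lib.MP_28260b_nt

open Finset Pool.Agent.Lib.LargeSieve Pool.Agent.Lib.MP_6a20cc_nt

variable {ι : Type} [DecidableEq ι] {pr : ι → ℕ} [∀ p, Fact (pr p).Prime]

noncomputable def PS (D c : ℕ) (f : Finset ι) (ψ : (p : ι) → ZMod (pr p) → ℝ) (n : ℕ) : ℝ :=
  if n ≡ c [MOD D] then ∏ p ∈ f, ψ p (n : ZMod (pr p)) else 0

noncomputable def kap (f : Finset ι) (ψ : (p : ι) → ZMod (pr p) → ℝ) : ℝ :=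
  ∏ p ∈ f, ∑ t, |ψ p t|

omit [DecidableEq ι] in
lemma kap_nonneg (f : Finset ι) (ψ : (p : ι) → ZMod (pr p) → ℝ) : 0 ≤ kap f ψ := by
  unfold kap; positivity

omit [DecidableEq ι] in
lemma abs_PS_le' (D c : ℕ) (f : Finset ι) (ψ : (p : ι) → ZMod (pr p) → ℝ) (n : ℕ) :
    |PS D c f ψ n| ≤ ∏ p ∈ f, |ψ p (n : ZMod (pr p))| := by
  unfold PS
  split_ifs
  · rw [Finset.abs_prod]
  · rw [abs_zero]; positivity

omit [DecidableEq ι] in
lemma abs_PS_le (D c : ℕ) (f : Finset ι) (ψ : (p : ι) → ZMod (pr p) → ℝ) (n : ℕ) :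
    |PS D c f ψ n| ≤ kap f ψ :=
  (abs_PS_le' D c f ψ n).trans (prod_le_prod (fun _ _ => abs_nonneg _) fun p _ =>
    single_le_sum (f := fun t => |ψ p t|) (fun _ _ => abs_nonneg _) (mem_univ _))

lemma typeI (hinj : Function.Injective pr) {D : ℕ} (c : ℕ) (hD : 0 < D)
    (hDc : ∀ p, D.Coprime (pr p)) {f : Finset ι} (hf : f.Nonempty)
    {ψ : (p : ι) → ZMod (pr p) → ℝ} (h0 : ∀ p ∈ f, ψ p 0 = 0) (hs : ∀ p ∈ f, ∑ t, ψ p t = 0)
    (m y : ℕ) : |∑ l ∈ range y, PS D c f ψ (m * l)| ≤ D * kap f ψ := by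
  rw [← Finset.sum_fiberwise_of_maps_to (g := fun l => l % D) (t := range D)
    (fun l _ => mem_range.2 (Nat.mod_lt _ hD))]
  refine (abs_sum_le_sum_abs _ _).trans ?_
  calc _ ≤ ∑ u ∈ range D, kap f ψ := by
        refine sum_le_sum fun u hu => ?_
        have hu' : u % D = u := Nat.mod_eq_of_lt (mem_range.1 hu)
        by_cases h : m * u ≡ c [MOD D]
        · have h1 := count_prod (coprime_of_inj hinj) y
            (fun p t => ψ p (t * (m : ZMod (pr p)))) (fun p => ∑ t, |ψ p t|) f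
            (fun p hp => ⟨0, by simpa using sum_abs_mul_le (ψ p) (h0 p hp) m⟩) D u hD
            (fun p _ => hDc p)
          obtain ⟨p, hp⟩ := hf
          have h2 : ∏ p ∈ f, mean (fun t => ψ p (t * (m : ZMod (pr p)))) = 0 := by
            refine prod_eq_zero hp ?_
            unfold mean
            by_cases hm : (m : ZMod (pr p)) = 0
            · simp [hm, h0 p hp]
            · simp only [mul_comm _ (m : ZMod (pr p))]
              rw [sum_scale (ψ p) _ hm, hs p hp, zero_div]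
          rw [h2, mul_zero, sub_zero] at h1
          refine le_trans (le_of_eq ?_) h1
          congr 1
          refine sum_congr ?_ fun l hl => ?_
          · ext l; simp [Nat.ModEq, hu']
          · have h3 : l ≡ u [MOD D] := (mem_filter.1 hl).2
            unfold PS
            rw [if_pos ((h3.mul_left m).trans h)]
            exact prod_congr rfl fun p _ => by push_cast; rw [mul_comm]
        · rw [sum_eq_zero, abs_zero]
          · exact kap_nonneg f ψ
          · intro l hl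
            have h3 : l ≡ u [MOD D] := by
              have := (mem_filter.1 hl).2
              simp only [Nat.ModEq, hu', this]
            unfold PS
            exact if_neg fun h4 => h ((h3.mul_left m).symm.trans h4)
    _ = _ := by simp

lemma absI (hinj : Function.Injective pr) (f : Finset ι)
    {ψ : (p : ι) → ZMod (pr p) → ℝ} (h0 : ∀ p ∈ f, ψ p 0 = 0) (m y₁ y₂ : ℕ) (hy : y₁ ≤ y₂) :
    ∑ l ∈ Ico y₁ y₂, ∏ p ∈ f, |ψ p ((m * l : ℕ) : ZMod (pr p))|
      ≤ kap f ψ * (((y₂ : ℝ) - y₁) / (∏ p ∈ f, pr p : ℕ) + 2) := by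
  have h1 := fun y => count_prod (coprime_of_inj hinj) y
    (fun p t => |ψ p (t * (m : ZMod (pr p)))|) (fun p => ∑ t, |ψ p t|) f
    (fun p hp => ⟨0, by simpa using sum_abs_mul_le (ψ p) (h0 p hp) m⟩) 1 0 one_pos (by simp)
  simp only [Finset.filter_true_of_mem (fun x _ => Nat.modEq_one), Nat.cast_one, div_one] at h1
  set μ := ∏ p ∈ f, mean (fun t => |ψ p (t * (m : ZMod (pr p)))|) with hμ
  have h2 : μ ≤ kap f ψ / (∏ p ∈ f, pr p : ℕ) := by
    unfold kap
    push_cast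
    rw [← Finset.prod_div_distrib]
    refine Finset.prod_le_prod (fun p _ => ?_) (fun p hp => ?_)
    · unfold mean; positivity
    · unfold mean
      exact div_le_div_of_nonneg_right (sum_abs_mul_le (ψ p) (h0 p hp) m) (by positivity)
  rw [Finset.sum_Ico_eq_sub _ hy]
  have h3 := (abs_le.1 (h1 y₂)).2
  have h4 := (abs_le.1 (h1 y₁)).1
  have h5 : (0 : ℝ) ≤ y₂ - y₁ := sub_nonneg.2 (by exact_mod_cast hy)
  have h6 := mul_le_mul_of_nonneg_left h2 h5
  have h8 : ∀ l : ℕ, ∏ p ∈ f, |ψ p ((m * l : ℕ) : ZMod (pr p))|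
      = ∏ p ∈ f, |ψ p ((l : ZMod (pr p)) * (m : ZMod (pr p)))| :=
    fun l => prod_congr rfl fun p _ => by push_cast; rw [mul_comm]
  simp only [h8]
  unfold kap at *
  have h7 : ((y₂ : ℝ) - y₁) * ((∏ p ∈ f, ∑ t, |ψ p t|) / (∏ p ∈ f, pr p : ℕ))
      = (∏ p ∈ f, ∑ t, |ψ p t|) * (((y₂ : ℝ) - y₁) / (∏ p ∈ f, pr p : ℕ)) := by ring
  nlinarith

noncomputable def big (D c P M : ℕ) (a b : ℕ → ℝ) (q : ℕ) : ℝ :=
  2 * ∑ u ∈ range D, √(energy P (fun n => ((if n % D = u then a n else 0 : ℝ) : ℂ)) q)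
    * √(energy M (fun l => ((if u * l ≡ c [MOD D] then b l else 0 : ℝ) : ℂ)) q) / q

lemma big_nonneg (D c P M : ℕ) (a b : ℕ → ℝ) (q : ℕ) : 0 ≤ big D c P M a b q := by
  unfold big; positivity

lemma bil_D (hinj : Function.Injective pr) {D : ℕ} (c : ℕ) (hD : 0 < D) (f : Finset ι)
    {ψ : (p : ι) → ZMod (pr p) → ℝ} (h0 : ∀ p ∈ f, ψ p 0 = 0) (hs : ∀ p ∈ f, ∑ t, ψ p t = 0)
    (P M : ℕ) (a b : ℕ → ℝ) :
    |∑ n ∈ range P, ∑ l ∈ range M, a n * b l * PS D c f ψ (n * l)|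
      ≤ kap f ψ * big D c P M a b (∏ p ∈ f, pr p) := by
  have h2 : ∑ n ∈ range P, ∑ l ∈ range M, a n * b l * PS D c f ψ (n * l)
      = ∑ u ∈ range D, ∑ n ∈ range P, ∑ l ∈ range M, (if n % D = u then a n else 0) *
        (if u * l ≡ c [MOD D] then b l else 0) * ∏ p ∈ f, ψ p ((n * l : ℕ) : ZMod (pr p)) := by
    rw [Finset.sum_comm (s := range D)]
    refine sum_congr rfl fun n _ => ?_
    rw [Finset.sum_eq_single_of_mem (n % D) (mem_range.2 (Nat.mod_lt _ hD))]
    · refine sum_congr rfl fun l _ => ?_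
      have h3 : n % D * l ≡ c [MOD D] ↔ n * l ≡ c [MOD D] :=
        ⟨fun h => ((Nat.mod_modEq n D).symm.mul_right l).trans h,
          fun h => ((Nat.mod_modEq n D).mul_right l).trans h⟩
      simp only [PS, h3, if_true]
      split_ifs <;> ring
    · intro u _ hne
      exact sum_eq_zero fun l _ => by simp [hne.symm]
  rw [h2]
  unfold big kap
  rw [Finset.mul_sum, Finset.mul_sum]
  refine (abs_sum_le_sum_abs _ _).trans (sum_le_sum fun u _ => ?_)
  refine (bilinear_prod hinj f ψ h0 hs P M _ _).trans (le_of_eq ?_)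
  ring

lemma sum_big (D c P M : ℕ) (a b : ℕ → ℝ) (ha : ∀ n, |a n| ≤ 1) (hb : ∀ n, |b n| ≤ 1)
    (F Q : ℕ) (hF : 1 ≤ F) (H l : ℝ) (hH : 0 ≤ H) (hl : 1 + 2 * Real.log (2 * Q) ≤ l)
    (h1 : (P : ℝ) * M ≤ H * F) (h2 : l * P * (P * M) ≤ H ^ 2) (h3 : l * M * (P * M) ≤ H ^ 2)
    (h4 : l ^ 2 * Q ^ 2 * (P * M) ≤ H ^ 2) :
    ∑ q ∈ Ioc F Q, big D c P M a b q ≤ 2 * D * ((Nat.log 2 Q + 1) * (10 * H)) := by
  unfold big
  rw [← Finset.mul_sum, Finset.sum_comm, mul_assoc]
  apply mul_le_mul_of_nonneg_left _ (by norm_num)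
  calc _ ≤ ∑ u ∈ range D, ((Nat.log 2 Q + 1) * (10 * H)) := by
        refine sum_le_sum fun u _ => ?_
        refine dyadic_bound P M _ _ (fun n => ?_) (fun n => ?_) F Q hF H l hH hl h1 h2 h3 h4
        · rw [Complex.norm_real, Real.norm_eq_abs]
          split_ifs
          · exact ha n
          · simp
        · rw [Complex.norm_real, Real.norm_eq_abs]
          split_ifs
          · exact hb n
          · simp
    _ = _ := by simp

lemma harm_le (s : ℕ) : ∑ m ∈ Ioc 0 s, (1 : ℝ) / m ≤ 1 + Real.log s := by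
  have h := harmonic_le_one_add_log s
  rw [harmonic_eq_sum_Icc] at h
  push_cast at h
  have e : Icc 1 s = Ioc 0 s := by ext; simp [Nat.succ_le_iff]
  simpa [one_div, e] using h

lemma rem_bound (w : ℕ → ℝ) (hw0 : ∀ n, 0 ≤ w n) (κ q : ℝ) (hκ : 0 ≤ κ) (hq : 1 ≤ q)
    (hw : ∀ m y₁ y₂ : ℕ, y₁ ≤ y₂ → ∑ l ∈ Ico y₁ y₂, w (m * l) ≤ κ * (((y₂ : ℝ) - y₁) / q + 2))
    (X : ℕ) (X' : ℝ) (h0 : 0 ≤ X') (hX : X' ≤ X) :
    ∑ m ∈ Ioc 0 X, ∑ l ∈ Ioc 0 X, (if X' < (m * l : ℕ) ∧ m * l ≤ X then w (m * l) else 0)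
      ≤ 2 * (κ * ((X - X') * (1 + Real.log X) / q + 3 * √X)) := by
  set g : ℕ → ℕ → ℝ := fun m l => if X' < (m * l : ℕ) ∧ m * l ≤ X then w (m * l) else 0 with hg
  have hg0 : ∀ m l, 0 ≤ g m l := fun m l => by
    simp only [hg]; split_ifs; exacts [hw0 _, le_rfl]
  have hsym : ∀ m l, g m l = g l m := fun m l => by simp only [hg, mul_comm]
  set s := Nat.sqrt X with hs
  have key : ∑ m ∈ Ioc 0 X, ∑ l ∈ Ioc 0 X, (if m ≤ s then g m l else 0)
      ≤ κ * ((X - X') * (1 + Real.log X) / q + 3 * √X) := by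
    have e1 : ∑ m ∈ Ioc 0 X, ∑ l ∈ Ioc 0 X, (if m ≤ s then g m l else 0)
        = ∑ m ∈ Ioc 0 s, ∑ l ∈ Ioc 0 X, g m l := by
      simp only [Finset.sum_ite_irrel, sum_const_zero]
      rw [← Finset.sum_filter]
      congr 1
      ext m
      have := Nat.sqrt_le_self X
      simp only [mem_filter, mem_Ioc]
      omega
    rw [e1]
    have e2 : ∀ m ∈ Ioc 0 s, ∑ l ∈ Ioc 0 X, g m l ≤ κ * ((X - X') / q * (1 / m) + 3) := by
      intro m hm
      have hm0 : 0 < m := (mem_Ioc.1 hm).1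
      have hm' : (0 : ℝ) < m := by exact_mod_cast hm0
      have e3 : ⌊X' / m⌋₊ ≤ X / m := by
        rw [← Nat.floor_div_eq_div (K := ℝ)]
        exact Nat.floor_le_floor (by gcongr)
      have e4 : ∑ l ∈ Ioc 0 X, g m l ≤ ∑ l ∈ Ico (⌊X' / m⌋₊ + 1) (X / m + 1), w (m * l) := by
        simp only [hg]
        rw [← Finset.sum_filter]
        refine sum_le_sum_of_subset_of_nonneg (fun l hl => ?_) fun l _ _ => hw0 _
        obtain ⟨_, h1, h2⟩ := mem_filter.1 hl
        rw [mem_Ico, Nat.succ_le_iff, Nat.lt_succ_iff, Nat.floor_lt (by positivity),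
          Nat.le_div_iff_mul_le hm0, div_lt_iff₀ hm']
        push_cast at h1
        exact ⟨by linarith, by rwa [mul_comm]⟩
      refine e4.trans ((hw m _ _ (by omega)).trans ?_)
      apply mul_le_mul_of_nonneg_left _ hκ
      have e5 : ((X / m : ℕ) : ℝ) ≤ X / m := Nat.cast_div_le
      have e6 := Nat.lt_floor_add_one (X' / m)
      have e7 : (((X / m + 1 : ℕ) : ℝ) - ((⌊X' / m⌋₊ + 1 : ℕ) : ℝ)) / q
          ≤ ((X - X') / m + 1) / q := by
        push_cast
        gcongr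
        rw [sub_div]; linarith
      have e8 : ((X - X') / m + 1) / q = (X - X') / q * (1 / m) + 1 / q := by ring
      have e9 : 1 / q ≤ 1 := by rw [div_le_one (by linarith)]; exact hq
      linarith
    refine (sum_le_sum e2).trans ?_
    rw [← Finset.mul_sum, Finset.sum_add_distrib, ← Finset.mul_sum]
    apply mul_le_mul_of_nonneg_left _ hκ
    have e3 := harm_le s
    have e4 : Real.log s ≤ Real.log X := by
      rcases Nat.eq_zero_or_pos s with h | h
      · rw [h]; simpa using Real.log_natCast_nonneg X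
      · exact Real.log_le_log (by exact_mod_cast h) (by exact_mod_cast Nat.sqrt_le_self X)
    have e5 : (s : ℝ) ≤ √X := Real.nat_sqrt_le_real_sqrt
    have e6 : 0 ≤ (X - X') / q := div_nonneg (by linarith) (by linarith)
    have e7 := mul_le_mul_of_nonneg_left (e3.trans (add_le_add_right e4 1)) e6
    simp only [sum_const, Nat.card_Ioc, Nat.sub_zero, nsmul_eq_mul]
    have e8 : (X - X') * (1 + Real.log X) / q = (X - X') / q * (1 + Real.log X) := by ring
    linarith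
  have e : ∑ m ∈ Ioc 0 X, ∑ l ∈ Ioc 0 X, g m l
      ≤ ∑ m ∈ Ioc 0 X, ∑ l ∈ Ioc 0 X, ((if m ≤ s then g m l else 0) + if l ≤ s then g l m else 0) := by
    refine sum_le_sum fun m _ => sum_le_sum fun l _ => ?_
    have := hg0 m l
    rw [← hsym m l]
    split_ifs with h1 h2 h2
    · linarith
    · simp
    · simp
    · have : ¬ m * l ≤ X := by
        have h3 := Nat.lt_succ_sqrt X
        have : (s + 1) * (s + 1) ≤ m * l := Nat.mul_le_mul (by omega) (by omega)
        simp only [Nat.succ_eq_add_one] at h3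
        rw [← hs] at h3
        omega
      simp [hg, this]
  simp only [Finset.sum_add_distrib] at e
  rw [Finset.sum_comm (f := fun m l => if l ≤ s then g l m else 0)] at e
  linarith

end Pool.Agent.Lib.MP_28260b_nt
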