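import Pool.Agent.Lib.MP_28260b_nt.BV1
import Pool.Agent.Lib.SW.Main

/-! The type II sum under the hyperbola and the Vaughan identity. -/

namespace Pool.Agent.Lib.MP_28260b_nt

open Finset Pool.Agent.Lib.LargeSieve Pool.Agent.Lib.MP_6a20cc_nt

variable {ι : Type} [DecidableEq ι] {pr : ι → ℕ} [∀ p, Fact (pr p).Prime]

lemma blk {T m : ℕ} (hT : 1 ≤ T) (hm : 0 < m) :
    (m : ℝ) < Real.exp ((⌊Real.log m * T⌋₊ + 1) / T) ∧
      Real.exp ((⌊Real.log m * T⌋₊ + 1) / T) ≤ m * Real.exp (1 / T) := by
  have hT' : (0 : ℝ) < T := by exact_mod_cast hT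
  have hm' : (0 : ℝ) < m := by exact_mod_cast hm
  have h0 : 0 ≤ Real.log m * T := mul_nonneg (Real.log_natCast_nonneg m) hT'.le
  constructor
  · rw [← Real.log_lt_iff_lt_exp hm', lt_div_iff₀ hT']
    exact Nat.lt_floor_add_one _
  · calc _ ≤ Real.exp (Real.log m + 1 / T) := by
          apply Real.exp_le_exp.2
          rw [div_le_iff₀ hT', add_mul, one_div_mul_cancel hT'.ne']
          linarith [Nat.floor_le h0]
      _ = _ := by rw [Real.exp_add, Real.exp_log hm']

theorem typeII (hinj : Function.Injective pr) {D : ℕ} (c : ℕ) (hD : 0 < D) (X U T F Q : ℕ)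
    (H l : ℝ) (α β : ℕ → ℝ) (hα : ∀ n, |α n| ≤ 1) (hβ : ∀ n, |β n| ≤ 1)
    (hαU : ∀ n ≤ U, α n = 0) (hβU : ∀ n ≤ U, β n = 0) (hU : 1 ≤ U) (hUX : U ≤ X) (hT : 1 ≤ T)
    (hF : 1 ≤ F) (hH : 0 ≤ H) (hl : 1 + 2 * Real.log (2 * Q) ≤ l) (hl0 : 0 ≤ l)
    (h1 : 4 * (X : ℝ) ≤ H * F) (h2 : l * (2 * X / U) * (4 * X) ≤ H ^ 2)
    (h4 : l ^ 2 * Q ^ 2 * (4 * X) ≤ H ^ 2) :
    ∃ E : ℕ → ℝ, (∀ q, 0 ≤ E q) ∧
      ∑ q ∈ Ioc F Q, E q ≤ (Real.log X * T + 1) * (2 * D * ((Nat.log 2 Q + 1) * (10 * H))) ∧
      ∀ (f : Finset ι) (ψ : (p : ι) → ZMod (pr p) → ℝ), (∀ p ∈ f, ψ p 0 = 0) →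
        (∀ p ∈ f, ∑ t, ψ p t = 0) →
        |∑ m ∈ Ioc 0 X, ∑ n ∈ Ioc 0 (X / m), α m * β n * PS D c f ψ (m * n)|
          ≤ kap f ψ * (E (∏ p ∈ f, pr p) +
            2 * (X / T * (1 + Real.log X) / (∏ p ∈ f, pr p : ℕ) + 3 * √X)) := by
  have hT' : (0 : ℝ) < T := by exact_mod_cast hT
  have hU' : (1 : ℝ) ≤ U := by exact_mod_cast hU
  have hUX' : (U : ℝ) ≤ X := by exact_mod_cast hUX
  have hX' : (0 : ℝ) < X := by linarith
  set jj : ℕ → ℕ := fun m => ⌊Real.log m * T⌋₊ with hjj
  set t : ℕ → ℝ := fun j => Real.exp ((j + 1) / T) with ht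
  have ht0 : ∀ j, 0 < t j := fun j => Real.exp_pos _
  set J := jj X + 1 with hJ
  set MM : ℕ → ℕ := fun j => ⌊X / t j⌋₊ + 1 with hMM
  set a : ℕ → ℕ → ℝ := fun j m => if m ∈ Ioc 0 X ∧ jj m = j then α m else 0 with ha
  set good := (range J).filter fun j => U < t j ∧ t j * U < X with hgood
  refine ⟨fun q => ∑ j ∈ good, big D c ⌈t j⌉₊ (MM j) (a j) β q,
    fun q => sum_nonneg fun _ _ => big_nonneg .., ?_, fun f ψ h0 hs => ?_⟩
  · rw [Finset.sum_comm]
    have hb : ∀ j ∈ good, ∑ q ∈ Ioc F Q, big D c ⌈t j⌉₊ (MM j) (a j) β q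
        ≤ 2 * D * ((Nat.log 2 Q + 1) * (10 * H)) := by
      intro j hj
      obtain ⟨_, g1, g2⟩ := mem_filter.1 hj
      have e1 : (⌈t j⌉₊ : ℝ) ≤ t j + 1 := (Nat.ceil_lt_add_one (ht0 j).le).le
      have e2 : (MM j : ℝ) ≤ X / t j + 1 := by
        simp only [hMM]; push_cast
        linarith [Nat.floor_le (show 0 ≤ X / t j by have := ht0 j; positivity)]
      have e3 : t j ≤ X / U := by rw [le_div_iff₀ (by linarith)]; exact g2.le
      have e4 : X / t j ≤ X / U := by gcongr
      have e5 : (1 : ℝ) ≤ X / U := by rw [le_div_iff₀ (by linarith)]; linarith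
      have e6 : (X : ℝ) / U ≤ X := div_le_self hX'.le hU'
      have e7 : (⌈t j⌉₊ : ℝ) * MM j ≤ 4 * X := by
        calc _ ≤ (t j + 1) * (X / t j + 1) := by have := ht0 j; gcongr
          _ = X + t j + X / t j + 1 := by have := ht0 j; field_simp; ring
          _ ≤ _ := by linarith
      have e8 : 2 * (X : ℝ) / U = X / U + X / U := by ring
      refine sum_big D c _ _ _ _ (fun n => ?_) hβ F Q hF H l hH hl (e7.trans h1)
        (le_trans ?_ h2) (le_trans ?_ h2) (le_trans ?_ h4)
      · simp only [ha]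
        split_ifs
        · exact hα n
        · simp
      · gcongr; linarith
      · gcongr; linarith
      · gcongr
    refine (sum_le_card_nsmul _ _ _ hb).trans ?_
    rw [nsmul_eq_mul]
    refine mul_le_mul_of_nonneg_right ?_ (by positivity)
    have e1 : (good.card : ℝ) ≤ J := by
      exact_mod_cast (card_filter_le _ _).trans (card_range J).le
    have e2 : (J : ℝ) ≤ Real.log X * T + 1 := by
      simp only [hJ, hjj]; push_cast
      linarith [Nat.floor_le (mul_nonneg (Real.log_natCast_nonneg X) hT'.le)]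
    linarith
  · set g : ℕ → ℕ → ℝ := fun m n => α m * β n * PS D c f ψ (m * n) with hg
    have hsplit : ∀ m ∈ Ioc 0 X, ∑ n ∈ Ioc 0 (X / m), g m n
        = ∑ n ∈ range (MM (jj m)), g m n
          + ∑ n ∈ (Ioc 0 (X / m)).filter (fun n => ¬ n < MM (jj m)), g m n := by
      intro m hm
      have hm0 := (mem_Ioc.1 hm).1
      have hm' : (0 : ℝ) < m := by exact_mod_cast hm0
      rw [← Finset.sum_filter_add_sum_filter_not (Ioc 0 (X / m)) (fun n => n < MM (jj m))]
      congr 1
      refine sum_subset (fun n hn => mem_range.2 (mem_filter.1 hn).2) fun n hn hn' => ?_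
      have e1 : ⌊X / t (jj m)⌋₊ ≤ X / m := by
        rw [← Nat.floor_div_eq_div (K := ℝ)]
        refine Nat.floor_le_floor ?_
        gcongr
        exact (blk hT hm0).1.le
      have e2 : n = 0 := by
        simp only [mem_filter, mem_Ioc, mem_range, hMM] at hn hn'
        omega
      simp [hg, e2, hβU 0 (Nat.zero_le _)]
    rw [sum_congr rfl hsplit, Finset.sum_add_distrib, mul_add]
    refine (abs_add_le _ _).trans (add_le_add ?_ ?_)
    · have e1 : ∑ m ∈ Ioc 0 X, ∑ n ∈ range (MM (jj m)), g m n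
          = ∑ j ∈ good, ∑ m ∈ range ⌈t j⌉₊, ∑ n ∈ range (MM j),
              a j m * β n * PS D c f ψ (m * n) := by
        rw [← Finset.sum_fiberwise_of_maps_to (g := jj) (t := range J) (s := Ioc 0 X)]
        · symm
          refine sum_subset_zero_on_sdiff (filter_subset _ _) (fun j hj => ?_) fun j _ => ?_
          · have hj' : ¬ (U < t j ∧ t j * U < X) := fun h =>
              (mem_sdiff.1 hj).2 (mem_filter.2 ⟨(mem_sdiff.1 hj).1, h⟩)
            refine sum_eq_zero fun m hm => sum_eq_zero fun n hn => ?_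
            obtain ⟨hm1, hm2⟩ := mem_filter.1 hm
            have e2 := (blk hT (mem_Ioc.1 hm1).1).1
            change (m : ℝ) < t (jj m) at e2
            rw [hm2] at e2 hn
            rcases not_and_or.1 hj' with h | h
            · have : m ≤ U := by exact_mod_cast (e2.trans_le (not_lt.1 h)).le
              simp [hg, hαU m this]
            · have e3 : ⌊X / t j⌋₊ ≤ U := by
                refine Nat.floor_le_of_le ?_
                rw [div_le_iff₀ (ht0 j), mul_comm]
                exact not_lt.1 h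
              have : n ≤ U := by
                simp only [mem_range, hMM] at hn
                omega
              simp [hg, hβU n this]
          · symm
            calc _ = ∑ m ∈ (Ioc 0 X).filter (fun m => jj m = j), ∑ n ∈ range (MM j),
                  a j m * β n * PS D c f ψ (m * n) := by
                  refine sum_congr rfl fun m hm => ?_
                  obtain ⟨hm1, hm2⟩ := mem_filter.1 hm
                  simp only [ha, hg, hm1, hm2, and_self, if_true]
              _ = _ := by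
                  refine sum_subset (fun m hm => ?_) fun m _ hm => ?_
                  · obtain ⟨hm1, hm2⟩ := mem_filter.1 hm
                    have e2 := (blk hT (mem_Ioc.1 hm1).1).1
                    change (m : ℝ) < t (jj m) at e2
                    rw [hm2] at e2
                    exact mem_range.2 (Nat.lt_ceil.2 e2)
                  · rw [mem_filter] at hm
                    simp only [ha, if_neg hm, zero_mul, sum_const_zero]
        · intro m hm
          rw [mem_range, hJ, Nat.lt_succ_iff]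
          refine Nat.floor_le_floor ?_
          have := mem_Ioc.1 hm
          gcongr
          · exact_mod_cast this.1
          · exact this.2
      rw [e1, Finset.mul_sum]
      exact (abs_sum_le_sum_abs _ _).trans
        (sum_le_sum fun j _ => bil_D hinj c hD f h0 hs _ _ _ _)
    · have hq : (1 : ℝ) ≤ (∏ p ∈ f, pr p : ℕ) := by exact_mod_cast prod_pr_pos (pr := pr) f
      have e0 : Real.exp (-(1 / T)) ≤ 1 := Real.exp_le_one_iff.2 (by simp)
      have hr := rem_bound (fun n => ∏ p ∈ f, |ψ p (n : ZMod (pr p))|) (fun n => by positivity)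
        (kap f ψ) _ (kap_nonneg f ψ) hq (absI hinj f h0) X (X * Real.exp (-(1 / T)))
        (by positivity) (by nlinarith)
      have e1 : X - X * Real.exp (-(1 / T)) ≤ X / T := by
        have := Real.add_one_le_exp (-(1 / (T : ℝ)))
        have e2 : (X : ℝ) / T = X * (1 / T) := by ring
        nlinarith
      refine le_trans ?_ (hr.trans ?_)
      · refine (abs_sum_le_sum_abs _ _).trans (sum_le_sum fun m hm => ?_)
        refine (abs_sum_le_sum_abs _ _).trans ?_
        have hm0 := (mem_Ioc.1 hm).1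
        have hm' : (0 : ℝ) < m := by exact_mod_cast hm0
        rw [← Finset.sum_filter]
        refine le_trans (sum_le_sum fun n _ => ?_) (sum_le_sum_of_subset_of_nonneg
          (fun n hn => ?_) fun n _ _ => by positivity)
        · simp only [hg, abs_mul]
          calc _ ≤ 1 * 1 * ∏ p ∈ f, |ψ p ((m * n : ℕ) : ZMod (pr p))| := by
                gcongr
                exacts [hα m, hβ n, abs_PS_le' ..]
            _ = _ := by ring
        · obtain ⟨hn1, hn2⟩ := mem_filter.1 hn
          obtain ⟨hn3, hn4⟩ := mem_Ioc.1 hn1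
          refine mem_filter.2 ⟨mem_Ioc.2 ⟨hn3, hn4.trans (Nat.div_le_self _ _)⟩, ?_, ?_⟩
          · have e2 : X / t (jj m) < n := by
              rw [← Nat.floor_lt (by have := ht0 (jj m); positivity)]
              simp only [hMM] at hn2
              omega
            rw [div_lt_iff₀ (ht0 _)] at e2
            have e3 : t (jj m) ≤ m * Real.exp (1 / T) := (blk hT hm0).2
            rw [Real.exp_neg, ← div_eq_mul_inv, div_lt_iff₀ (Real.exp_pos _)]
            push_cast
            have : (0 : ℝ) ≤ n := Nat.cast_nonneg n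
            nlinarith
          · rw [mul_comm]; exact (Nat.le_div_iff_mul_le hm0).1 hn4
      · have := kap_nonneg f ψ
        have := Real.log_natCast_nonneg X
        rw [mul_left_comm]
        gcongr

open ArithmeticFunction in
lemma conv_sum (g h : ArithmeticFunction ℝ) (Ψ : ℕ → ℝ) (X : ℕ) :
    ∑ n ∈ Ioc 0 X, (g * h) n * Ψ n
      = ∑ m ∈ Ioc 0 X, ∑ n ∈ Ioc 0 (X / m), g m * h n * Ψ (m * n) := by
  simp only [mul_apply]
  trans ∑ n ∈ Ioc 0 X, ∑ x ∈ Ioc 0 X ×ˢ Ioc 0 X with x.1 * x.2 = n, g x.1 * h x.2 * Ψ (x.1 * x.2)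
  · refine sum_congr rfl fun n hn ↦ ?_
    simp only [mem_Ioc] at hn
    rw [Nat.divisorsAntidiagonal_eq_prod_filter_of_le hn.1.ne' hn.2, Finset.sum_mul]
    exact sum_congr rfl fun x hx => by rw [(mem_filter.1 hx).2]
  · simp_rw [sum_filter]
    rw [sum_comm, sum_product]
    refine sum_congr rfl fun m hm => ?_
    have hm0 := (mem_Ioc.1 hm).1
    simp only [sum_ite_eq]
    rw [← sum_filter]
    congr 1
    ext n
    simp only [mem_filter, mem_Ioc, Nat.le_div_iff_mul_le hm0, mul_comm n m]
    constructor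
    · rintro ⟨h1, h2⟩; exact ⟨h1.1, h2.2⟩
    · rintro ⟨h1, h2⟩
      exact ⟨⟨h1, le_trans (Nat.le_mul_of_pos_left n hm0) h2⟩, Nat.mul_pos hm0 h1, h2⟩

noncomputable def lo (U : ℕ) (g : ArithmeticFunction ℝ) : ArithmeticFunction ℝ :=
  ⟨fun n => if n ≤ U then g n else 0, by simp⟩

noncomputable def hi (U : ℕ) (g : ArithmeticFunction ℝ) : ArithmeticFunction ℝ :=
  ⟨fun n => if n ≤ U then 0 else g n, by simp⟩

lemma lo_apply (U : ℕ) (g : ArithmeticFunction ℝ) (n : ℕ) :
    lo U g n = if n ≤ U then g n else 0 := rfl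

lemma hi_apply (U : ℕ) (g : ArithmeticFunction ℝ) (n : ℕ) :
    hi U g n = if n ≤ U then 0 else g n := rfl

lemma lo_add_hi (U : ℕ) (g : ArithmeticFunction ℝ) : lo U g + hi U g = g := by
  ext n
  simp only [ArithmeticFunction.add_apply, lo_apply, hi_apply]
  split_ifs <;> simp

noncomputable def mu : ArithmeticFunction ℝ := (ArithmeticFunction.moebius : ArithmeticFunction ℤ)

noncomputable def ze : ArithmeticFunction ℝ := (ArithmeticFunction.zeta : ArithmeticFunction ℕ)

open ArithmeticFunction in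
lemma vaughan (U : ℕ) : vonMangoldt = lo U vonMangoldt + lo U mu * log
    - (lo U mu * lo U vonMangoldt) * ze + hi U mu * (hi U vonMangoldt * ze) := by
  have h1 : mu * ze = 1 := coe_moebius_mul_coe_zeta
  have h2 : vonMangoldt * ze = log := vonMangoldt_mul_zeta
  rw [← h2]
  have h3 := lo_add_hi U mu
  have h4 := lo_add_hi U vonMangoldt
  linear_combination (-(1 : ArithmeticFunction ℝ) + lo U mu * ze) * h4
    - hi U vonMangoldt * ze * h3 - hi U vonMangoldt * h1

end Pool.Agent.Lib.MP_28260b_nt
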