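import Pool.Agent.Lib.MP_28260b_nt.BV2

/-! Bounds for a single modulus: large, small and trivial. -/

namespace Pool.Agent.Lib.MP_28260b_nt

open Finset Pool.Agent.Lib.LargeSieve Pool.Agent.Lib.MP_6a20cc_nt Pool.Agent.Lib.SW
open ArithmeticFunction hiding add_apply

variable {ι : Type} [DecidableEq ι] {pr : ι → ℕ} [∀ p, Fact (pr p).Prime]

lemma abel_abs (a g : ℕ → ℝ) (B : ℝ) (hB : ∀ y, |∑ n ∈ range y, a n| ≤ B)
    (hg : ∀ n, g n ≤ g (n + 1)) (y : ℕ) :
    |∑ n ∈ range (y + 1), g n * a n - g y * ∑ n ∈ range (y + 1), a n| ≤ B * (g y - g 0) := by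
  induction y with
  | zero => simp
  | succ y ih =>
    have e : ∑ n ∈ range (y + 1 + 1), g n * a n - g (y + 1) * ∑ n ∈ range (y + 1 + 1), a n
        = (∑ n ∈ range (y + 1), g n * a n - g y * ∑ n ∈ range (y + 1), a n)
          - (g (y + 1) - g y) * ∑ n ∈ range (y + 1), a n := by
      rw [sum_range_succ _ (y + 1), sum_range_succ a (y + 1)]; ring
    rw [e]
    refine (abs_sub _ _).trans ?_
    rw [abs_mul, abs_of_nonneg (sub_nonneg.2 (hg y))]
    have := mul_le_mul_of_nonneg_left (hB (y + 1)) (sub_nonneg.2 (hg y))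
    linarith

lemma sum_Ioc_range (g : ℕ → ℝ) (h0 : g 0 = 0) (y : ℕ) :
    ∑ n ∈ Ioc 0 y, g n = ∑ n ∈ range (y + 1), g n := by
  refine sum_subset (fun n hn => ?_) fun n hn hn' => ?_
  · simp only [mem_Ioc, mem_range] at hn ⊢; omega
  · have : n = 0 := by simp only [mem_Ioc, mem_range] at hn hn'; omega
    rw [this, h0]

lemma abel_log (a : ℕ → ℝ) (B : ℝ) (hB : ∀ y, |∑ n ∈ range y, a n| ≤ B) (y : ℕ) :
    |∑ n ∈ Ioc 0 y, Real.log n * a n| ≤ 2 * B * Real.log y := by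
  rw [sum_Ioc_range _ (by simp)]
  have h := abel_abs a (fun n => Real.log n) B hB (fun n => ?_) y
  · have h1 := hB (y + 1)
    have h2 := Real.log_natCast_nonneg y
    have h3 := abs_add_le (∑ n ∈ range (y + 1), Real.log n * a n
      - Real.log y * ∑ n ∈ range (y + 1), a n) (Real.log y * ∑ n ∈ range (y + 1), a n)
    rw [sub_add_cancel, abs_mul, abs_of_nonneg h2] at h3
    simp only [Nat.cast_zero, Real.log_zero, sub_zero] at h
    nlinarith
  · rcases Nat.eq_zero_or_pos n with rfl | hn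
    · simp
    · exact Real.log_le_log (by exact_mod_cast hn) (by push_cast; linarith)

lemma sum_abs_lo (U y : ℕ) (g : ArithmeticFunction ℝ) (B : ℝ) (hB : 0 ≤ B)
    (hg : ∀ n ∈ Ioc 0 y, |g n| ≤ B) : ∑ n ∈ Ioc 0 y, |lo U g n| ≤ U * B := by
  calc _ ≤ ∑ n ∈ Ioc 0 y, if n ≤ U then B else 0 := sum_le_sum fun n hn => by
        rw [lo_apply]; split_ifs; exacts [hg n hn, by simp]
    _ = ∑ n ∈ (Ioc 0 y).filter (· ≤ U), B := (sum_filter _ _).symm
    _ ≤ ∑ n ∈ Ioc 0 U, B := sum_le_sum_of_subset_of_nonneg (fun n hn => by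
        simp only [mem_filter, mem_Ioc] at hn ⊢; omega) fun _ _ _ => hB
    _ = _ := by simp

lemma abs_mu_le (n : ℕ) : |mu n| ≤ 1 := by
  have := abs_moebius_le_one (n := n)
  simp only [mu, intCoe_apply]
  exact_mod_cast this

lemma log_le_L {n X : ℕ} (h : n ≤ X) : Real.log n ≤ Real.log X := by
  rcases Nat.eq_zero_or_pos n with rfl | hn
  · simpa using Real.log_natCast_nonneg X
  · exact Real.log_le_log (by exact_mod_cast hn) (by exact_mod_cast h)

lemma abs_vM_le {n X : ℕ} (h : n ≤ X) : |vonMangoldt n| ≤ Real.log X := by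
  rw [abs_of_nonneg vonMangoldt_nonneg]
  exact vonMangoldt_le_log.trans (log_le_L h)

lemma beta_apply (U n : ℕ) :
    (hi U vonMangoldt * ze) n = ∑ d ∈ n.divisors, if d ≤ U then 0 else vonMangoldt d :=
  coe_mul_zeta_apply

lemma abs_beta_le (U n : ℕ) : |(hi U vonMangoldt * ze) n| ≤ Real.log n := by
  rw [beta_apply, abs_of_nonneg (sum_nonneg fun d _ => by
    split_ifs; exacts [le_rfl, vonMangoldt_nonneg]), ← vonMangoldt_sum]
  exact sum_le_sum fun d _ => by split_ifs; exacts [vonMangoldt_nonneg, le_rfl]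

lemma abs_sum_mul_le (s : Finset ℕ) (g a : ℕ → ℝ) (B : ℝ) (h : ∀ n ∈ s, |a n| ≤ B) :
    |∑ n ∈ s, g n * a n| ≤ (∑ n ∈ s, |g n|) * B := by
  rw [Finset.sum_mul]
  refine (abs_sum_le_sum_abs _ _).trans (sum_le_sum fun n hn => ?_)
  rw [abs_mul]
  exact mul_le_mul_of_nonneg_left (h n hn) (abs_nonneg _)

theorem large_q (hinj : Function.Injective pr) {D : ℕ} (c : ℕ) (hD : 0 < D)
    (hDc : ∀ p, D.Coprime (pr p)) (X U T F Q : ℕ)
    (H l : ℝ) (hL : 1 ≤ Real.log X) (hU : 1 ≤ U) (hUX : U ≤ X) (hT : 1 ≤ T)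
    (hF : 1 ≤ F) (hH : 0 ≤ H) (hl : 1 + 2 * Real.log (2 * Q) ≤ l) (hl0 : 0 ≤ l)
    (h1 : 4 * (X : ℝ) ≤ H * F) (h2 : l * (2 * X / U) * (4 * X) ≤ H ^ 2)
    (h4 : l ^ 2 * Q ^ 2 * (4 * X) ≤ H ^ 2) :
    ∃ E : ℕ → ℝ, (∀ q, 0 ≤ E q) ∧
      ∑ q ∈ Ioc F Q, E q ≤ (Real.log X * T + 1) * (2 * D * ((Nat.log 2 Q + 1) * (10 * H))) ∧
      ∀ (f : Finset ι) (ψ : (p : ι) → ZMod (pr p) → ℝ), f.Nonempty → (∀ p ∈ f, ψ p 0 = 0) →
        (∀ p ∈ f, ∑ t, ψ p t = 0) →
        |∑ n ∈ Ioc 0 X, lam n * PS D c f ψ n|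
          ≤ kap f ψ * (Real.log X * (E (∏ p ∈ f, pr p) +
            2 * (X / T * (1 + Real.log X) / (∏ p ∈ f, pr p : ℕ)) + (8 * √X + (1 + 3 * D) * U ^ 2))) := by
  set L := Real.log X with hLdef
  have hL0 : 0 < L := by linarith
  have hX : 0 < X := by omega
  obtain ⟨E, hE0, hE1, hE2⟩ := typeII hinj c hD X U T F Q H l (hi U mu)
    (fun n => if n ≤ X then (hi U vonMangoldt * ze) n / L else 0)
    (fun n => by rw [hi_apply]; split_ifs; exacts [by simp, abs_mu_le n])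
    (fun n => by
      split_ifs with h
      · rw [abs_div, abs_of_pos hL0, div_le_one hL0]
        exact (abs_beta_le U n).trans (log_le_L h)
      · simp)
    (fun n hn => by rw [hi_apply, if_pos hn])
    (fun n hn => by
      rw [beta_apply, sum_eq_zero fun d hd => if_pos ((Nat.divisor_le hd).trans hn)]
      simp)
    hU hUX hT hF hH hl hl0 h1 h2 h4
  refine ⟨E, hE0, hE1, fun f ψ hf h0 hs => ?_⟩
  have hκ := kap_nonneg f ψ
  set Ψ := PS D c f ψ with hΨ
  have hI := typeI hinj c hD hDc hf h0 hs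
  have hΨ0 : Ψ 0 = 0 := by
    obtain ⟨p, hp⟩ := hf
    simp only [hΨ, PS]
    split_ifs
    · exact prod_eq_zero hp (by simpa using h0 p hp)
    · rfl
  have hU' : (1 : ℝ) ≤ U := by exact_mod_cast hU
  have e0 : ∑ n ∈ Ioc 0 X, lam n * Ψ n
      = ∑ n ∈ Ioc 0 X, lo U vonMangoldt n * Ψ n + ∑ n ∈ Ioc 0 X, (lo U mu * log) n * Ψ n
        - ∑ n ∈ Ioc 0 X, ((lo U mu * lo U vonMangoldt) * ze) n * Ψ n
        + ∑ n ∈ Ioc 0 X, (hi U mu * (hi U vonMangoldt * ze)) n * Ψ n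
        - ∑ n ∈ Ioc 0 X, (vonMangoldt n - lam n) * Ψ n := by
    simp only [← sum_add_distrib, ← sum_sub_distrib]
    refine sum_congr rfl fun n _ => ?_
    have := congrArg (fun g : ArithmeticFunction ℝ => g n) (vaughan U)
    simp only [sub_eq_add_neg, ArithmeticFunction.add_apply, ArithmeticFunction.neg_apply] at this
    linear_combination Ψ n * this
  have hmu : ∑ n ∈ Ioc 0 X, |lo U mu n| ≤ U := by
    simpa using sum_abs_lo U X mu 1 zero_le_one fun n _ => abs_mu_le n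
  have t0 : |∑ n ∈ Ioc 0 X, (vonMangoldt n - lam n) * Ψ n| ≤ 2 * √X * L * kap f ψ :=
    (abs_sum_mul_le _ _ _ _ fun n _ => abs_PS_le D c f ψ n).trans
      (mul_le_mul_of_nonneg_right (lam_diff hX) hκ)
  have t1 : |∑ n ∈ Ioc 0 X, lo U vonMangoldt n * Ψ n| ≤ U * L * kap f ψ :=
    (abs_sum_mul_le _ _ _ _ fun n _ => abs_PS_le D c f ψ n).trans
      (mul_le_mul_of_nonneg_right
        (sum_abs_lo U X _ L hL0.le fun n hn => abs_vM_le (mem_Ioc.1 hn).2) hκ)
  have t2 : |∑ n ∈ Ioc 0 X, (lo U mu * log) n * Ψ n| ≤ U * (2 * (D * kap f ψ) * L) := by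
    rw [conv_sum]
    simp only [mul_assoc (lo U mu _), ← Finset.mul_sum]
    refine (abs_sum_mul_le _ _ _ (2 * (D * kap f ψ) * L) fun m _ => ?_).trans (by gcongr)
    refine (abel_log (fun n => Ψ (m * n)) _ (hI m) _).trans ?_
    gcongr
    exact log_le_L (Nat.div_le_self _ _)
  have t3 : |∑ n ∈ Ioc 0 X, ((lo U mu * lo U vonMangoldt) * ze) n * Ψ n|
      ≤ U * (U * L * (D * kap f ψ)) := by
    rw [conv_sum]
    have e1 : ∀ m, ∑ n ∈ Ioc 0 (X / m), (lo U mu * lo U vonMangoldt) m * ze n * Ψ (m * n)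
        = (lo U mu * lo U vonMangoldt) m * ∑ n ∈ range (X / m + 1), Ψ (m * n) := by
      intro m
      rw [← sum_Ioc_range (fun n => Ψ (m * n)) (by simpa using hΨ0), Finset.mul_sum]
      refine sum_congr rfl fun n hn => ?_
      have : ze n = 1 := by simp [ze, natCoe_apply, zeta_apply, (mem_Ioc.1 hn).1.ne']
      rw [this, mul_one]
    simp only [e1]
    rw [conv_sum (lo U mu) (lo U vonMangoldt) (fun m => ∑ n ∈ range (X / m + 1), Ψ (m * n))]
    simp only [mul_assoc (lo U mu _), ← Finset.mul_sum]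
    refine (abs_sum_mul_le _ _ _ (U * L * (D * kap f ψ)) fun m _ => ?_).trans (by gcongr)
    refine (abs_sum_mul_le _ _ _ _ fun n _ => hI _ _).trans ?_
    gcongr
    exact sum_abs_lo U _ _ L hL0.le fun n hn =>
      abs_vM_le ((mem_Ioc.1 hn).2.trans (Nat.div_le_self _ _))
  have t4 : |∑ n ∈ Ioc 0 X, (hi U mu * (hi U vonMangoldt * ze)) n * Ψ n|
      ≤ L * (kap f ψ * (E (∏ p ∈ f, pr p) +
            2 * (X / T * (1 + L) / (∏ p ∈ f, pr p : ℕ) + 3 * √X))) := by
    refine le_trans (le_of_eq ?_) (mul_le_mul_of_nonneg_left (hE2 f ψ h0 hs) hL0.le)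
    rw [conv_sum, ← abs_of_pos hL0, ← abs_mul, abs_of_pos hL0, Finset.mul_sum]
    congr 1
    refine sum_congr rfl fun m _ => ?_
    rw [Finset.mul_sum]
    refine sum_congr rfl fun n hn => ?_
    rw [if_pos ((mem_Ioc.1 hn).2.trans (Nat.div_le_self _ _))]
    field_simp
    rfl
  rw [e0]
  have hUU : (U : ℝ) ≤ U ^ 2 := by nlinarith
  have hD' : (0 : ℝ) ≤ D := Nat.cast_nonneg D
  have e2 : U * L * kap f ψ ≤ U ^ 2 * L * kap f ψ := by gcongr
  have e3 : U * (2 * (D * kap f ψ) * L) ≤ U ^ 2 * (2 * (D * kap f ψ) * L) := by gcongr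
  rw [abs_le] at t0 t1 t2 t3 t4 ⊢
  constructor <;> linarith [t0.1, t0.2, t1.1, t1.2, t2.1, t2.2, t3.1, t3.2, t4.1, t4.2]

lemma triv_q (hinj : Function.Injective pr) (D c X : ℕ) (hX : 0 < X) (f : Finset ι)
    (ψ : (p : ι) → ZMod (pr p) → ℝ) (h0 : ∀ p ∈ f, ψ p 0 = 0) :
    |∑ n ∈ Ioc 0 X, lam n * PS D c f ψ n|
      ≤ kap f ψ * (Real.log X * (X / (∏ p ∈ f, pr p : ℕ) + 2)) := by
  have h := absI hinj f h0 1 1 (X + 1) (by omega)
  simp only [one_mul, Nat.cast_add, Nat.cast_one, add_sub_cancel_right] at h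
  have e : Ico 1 (X + 1) = Ioc 0 X := by ext; simp only [mem_Ico, mem_Ioc]; omega
  rw [e] at h
  simp only [mul_comm (lam _)]
  refine (abs_sum_mul_le _ _ _ (Real.log X) fun n hn => ?_).trans ?_
  · rw [abs_of_nonneg (lam_nonneg n)]
    exact lam_le (by exact_mod_cast (mem_Ioc.1 hn).2) (by exact_mod_cast hX)
  · have := Real.log_natCast_nonneg X
    calc _ ≤ kap f ψ * (X / (∏ p ∈ f, pr p : ℕ) + 2) * Real.log X := by
          gcongr
          exact (sum_le_sum fun n _ => abs_PS_le' D c f ψ n).trans h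
      _ = _ := by ring

lemma small_q (hinj : Function.Injective pr) {D c : ℕ} (hc : c.Coprime D)
    (hDc : ∀ p, D.Coprime (pr p)) (X : ℕ) {f : Finset ι} (hf : f.Nonempty)
    (ψ : (p : ι) → ZMod (pr p) → ℝ) (h0 : ∀ p ∈ f, ψ p 0 = 0) (hs : ∀ p ∈ f, ∑ t, ψ p t = 0)
    (Z ε : ℝ) (hε : 0 ≤ ε) (hSW : ∀ a : ℕ, a.Coprime (D * ∏ p ∈ f, pr p) →
      |∑ n ∈ Ioc 0 X with n ≡ a [MOD D * ∏ p ∈ f, pr p], lam n - Z| ≤ ε) :
    |∑ n ∈ Ioc 0 X, lam n * PS D c f ψ n| ≤ kap f ψ * (2 * ε) := by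
  set q := ∏ p ∈ f, pr p with hq
  have hq0 : 0 < q := prod_pr_pos f
  have hDq : D.Coprime q := Nat.Coprime.prod_right fun p _ => hDc p
  set G : ℕ → ℝ := fun b => ∏ p ∈ f, ψ p (b : ZMod (pr p)) with hG
  have hG0 : ∑ b ∈ range q, G b = 0 := by
    obtain ⟨p, hp⟩ := hf
    have h1 : ¬ (0 : ℕ).Coprime q := by
      rw [Nat.coprime_zero_left]
      intro h
      have := Nat.le_of_dvd hq0 (dvd_prod_of_mem pr hp)
      have := (Fact.out : (pr p).Prime).one_lt
      omega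
    have h2 := (isNew_prod hinj f ψ h0 hs 1).2 0 h1
    simp only [mul_one, Nat.cast_zero, zero_div, mul_zero, neg_zero, ee_zero] at h2
    exact_mod_cast h2
  have hG1 : ∑ b ∈ range q, |G b| ≤ 2 * kap f ψ := by
    have := row_sum_prod hinj f ψ h0 1
    simp only [mul_one, Complex.norm_real, Real.norm_eq_abs] at this
    exact this
  have e1 : ∑ n ∈ Ioc 0 X, lam n * PS D c f ψ n
      = ∑ b ∈ range q, G b *
        (∑ n ∈ Ioc 0 X with n ≡ (Nat.chineseRemainder hDq c b : ℕ) [MOD D * q], lam n - Z) := by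
    simp only [mul_sub, sum_sub_distrib, ← Finset.sum_mul, hG0, zero_mul, sub_zero]
    rw [← Finset.sum_fiberwise_of_maps_to (g := fun l => l % q) (t := range q)
      (fun l _ => mem_range.2 (Nat.mod_lt _ hq0))]
    refine sum_congr rfl fun b hb => ?_
    have hb' : b % q = b := Nat.mod_eq_of_lt (mem_range.1 hb)
    rw [Finset.mul_sum, sum_filter, sum_filter]
    refine sum_congr rfl fun n _ => ?_
    obtain ⟨k1, k2⟩ := (Nat.chineseRemainder hDq c b).2
    have e2 : n ≡ (Nat.chineseRemainder hDq c b : ℕ) [MOD D * q] ↔ n ≡ c [MOD D] ∧ n % q = b := by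
      rw [← Nat.modEq_and_modEq_iff_modEq_mul hDq]
      refine and_congr ⟨fun h => h.trans k1, fun h => h.trans k1.symm⟩
        ⟨fun h => Eq.trans (h.trans k2) hb', fun h => Nat.ModEq.trans (h.trans hb'.symm) k2.symm⟩
    simp only [e2, PS]
    by_cases h1 : n % q = b
    · have e3 : ∏ p ∈ f, ψ p (n : ZMod (pr p)) = G b := by
        refine prod_congr rfl fun p hp => ?_
        congr 1
        rw [ZMod.natCast_eq_natCast_iff]
        exact Nat.ModEq.of_dvd (dvd_prod_of_mem pr hp) (h1.trans hb'.symm)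
      simp only [h1, e3, if_true, and_true]
      split_ifs <;> ring
    · simp [h1]
  rw [e1]
  refine (abs_sum_le_sum_abs _ _).trans ?_
  calc _ ≤ ∑ b ∈ range q, |G b| * ε := by
        refine sum_le_sum fun b _ => ?_
        rw [abs_mul]
        by_cases hb : b.Coprime q
        · refine mul_le_mul_of_nonneg_left (hSW _ ?_) (abs_nonneg _)
          obtain ⟨k1, k2⟩ := (Nat.chineseRemainder hDq c b).2
          refine Nat.Coprime.mul_right ?_ ?_
          · rw [Nat.Coprime, k1.gcd_eq]; exact hc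
          · rw [Nat.Coprime, k2.gcd_eq]; exact hb
        · have : G b = 0 := by
            rw [hq, Nat.coprime_prod_right_iff] at hb
            push Not at hb
            obtain ⟨p, hp, hb⟩ := hb
            refine prod_eq_zero hp ?_
            have : (b : ZMod (pr p)) = 0 := by
              rw [ZMod.natCast_eq_zero_iff]
              by_contra hd
              exact hb (((Fact.out : (pr p).Prime).coprime_iff_not_dvd.2 hd).symm)
            rw [this, h0 p hp]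
          simp [this]
    _ ≤ _ := by rw [← Finset.sum_mul]; nlinarith

end Pool.Agent.Lib.MP_28260b_nt
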