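import Pool.Agent.Lib.MP_28260b_nt.BV3
import Pool.Agent.Lib.MP_6a20cc_nt.Mertens

/-! A Bombieri-Vinogradov theorem for squarefree moduli, with divisor weights. -/

namespace Pool.Agent.Lib.MP_28260b_nt

open Finset Filter Pool.Agent.Lib.LargeSieve Pool.Agent.Lib.MP_6a20cc_nt Pool.Agent.Lib.SW

lemma natlog_le {Q : ℕ} {L : ℝ} (hQ : 1 ≤ Q) (h : Real.log Q ≤ L) : (Nat.log 2 Q : ℝ) ≤ 2 * L := by
  have h1 : (2 : ℝ) ^ Nat.log 2 Q ≤ Q := by exact_mod_cast Nat.pow_log_le_self 2 (by omega)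
  have h2 := Real.log_le_log (by positivity) h1
  rw [Real.log_pow] at h2
  have h3 := Real.log_two_gt_d9
  have h4 : (0 : ℝ) ≤ Nat.log 2 Q := Nat.cast_nonneg _
  nlinarith

lemma ceil_le_two {x : ℝ} (hx : 1 ≤ x) : (⌈x⌉₊ : ℝ) ≤ 2 * x := by
  have := Nat.ceil_lt_add_one (show 0 ≤ x by linarith)
  linarith

theorem BV0 {D c : ℕ} (hD : 0 < D) (hc : c.Coprime D) (b : ℕ) :
    ∀ᶠ X : ℕ in atTop, ∀ Q U : ℕ, 1 ≤ Q → (Q * U) ^ 2 ≤ X → U ^ 4 ≤ X →
      Real.log X ^ (4 * b + 22) ≤ U →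
      ∀ (ι : Type) [DecidableEq ι] (pr : ι → ℕ) [∀ p, Fact (pr p).Prime], Function.Injective pr →
      (∀ p, D.Coprime (pr p)) → ∃ E : ℕ → ℝ, (∀ q, 0 ≤ E q) ∧
        ∑ q ∈ Ioc 0 Q, E q ≤ X / Real.log X ^ b ∧
        ∀ (f : Finset ι) (ψ : (p : ι) → ZMod (pr p) → ℝ), f.Nonempty → (∀ p ∈ f, ψ p 0 = 0) →
          (∀ p ∈ f, ∑ t, ψ p t = 0) →
          |∑ n ∈ Ioc 0 X, lam n * PS D c f ψ n| ≤ kap f ψ * E (∏ p ∈ f, pr p) := by
  filter_upwards [siegel_walfisz (3 * b + 13) (2 * b + 12), tendsto_L.eventually_ge_atTop 40,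
    tendsto_L.eventually_ge_atTop (20 * D), eventually_gt_atTop 0]
    with X hSW hL hLD hX Q U hQ hQU hU4 hLU ι _ pr _ hinj hDc
  set L := Real.log X with hLdef
  have hL0 : 0 < L := by linarith
  have hL1 : 1 ≤ L := by linarith
  have hX' : (0 : ℝ) < X := by exact_mod_cast hX
  have hD' : (1 : ℝ) ≤ D := by exact_mod_cast hD
  have hpw : ∀ n : ℕ, 1 ≤ L ^ n := fun n => one_le_pow₀ hL1
  have hU' : (1 : ℝ) ≤ U := (hpw _).trans hLU
  have hU : 1 ≤ U := by exact_mod_cast hU'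
  have hQ' : (1 : ℝ) ≤ Q := by exact_mod_cast hQ
  have hQU' : ((Q : ℝ) * U) ^ 2 ≤ X := by exact_mod_cast hQU
  have hU4' : ((U : ℝ) ^ 2) ^ 2 ≤ X := by rw [← pow_mul]; exact_mod_cast hU4
  have hs1 : (Q : ℝ) * U ≤ √X := Real.le_sqrt_of_sq_le hQU'
  have hs2 : (U : ℝ) ^ 2 ≤ √X := Real.le_sqrt_of_sq_le hU4'
  have hs3 : √(X : ℝ) * √X = X := Real.mul_self_sqrt hX'.le
  have hUX : U ≤ X := le_trans (Nat.le_self_pow (by norm_num) U) hU4
  have hQX : Q ≤ X := le_trans (le_trans (Nat.le_mul_of_pos_right Q hU)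
    (Nat.le_self_pow (by norm_num) _)) hQU
  have hlQ : Real.log Q ≤ L := log_le_L hQX
  set T := ⌈L ^ (b + 4)⌉₊ with hT
  set F := ⌈4 * L ^ (2 * b + 10)⌉₊ with hF
  set H := X / L ^ (2 * b + 10) with hH
  have hT1 : L ^ (b + 4) ≤ T := Nat.le_ceil _
  have hT2 : (T : ℝ) ≤ 2 * L ^ (b + 4) := ceil_le_two (hpw _)
  have hF1 : 4 * L ^ (2 * b + 10) ≤ F := Nat.le_ceil _
  have hF2 : (F : ℝ) ≤ L ^ (2 * b + 11) := by
    have := ceil_le_two (x := 4 * L ^ (2 * b + 10)) (by linarith [hpw (2 * b + 10)])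
    rw [pow_succ L (2 * b + 10)]
    nlinarith [hpw (2 * b + 10)]
  have hH2 : H ^ 2 = X ^ 2 / L ^ (4 * b + 20) := by
    rw [hH, div_pow, ← pow_mul]; congr 2; ring
  have hUL : L ^ (4 * b + 20) * L ^ 2 ≤ U := by rw [← pow_add]; exact hLU
  obtain ⟨E, hE0, hE1, hE2⟩ := large_q hinj c hD hDc X U T F Q H (5 * L) hL1 hU hUX
    (by exact_mod_cast (hpw _).trans hT1) 
    (by exact_mod_cast (show (1 : ℝ) ≤ F by linarith [hpw (2 * b + 10)]))
    (by positivity)
    (by
      rw [Real.log_mul (by norm_num) (by linarith)]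
      have := Real.log_two_lt_d9
      linarith)
    (by positivity)
    (by
      rw [hH, div_mul_eq_mul_div, le_div_iff₀ (by positivity)]
      nlinarith)
    (by
      rw [hH2, le_div_iff₀ (by positivity)]
      have e : 5 * L * (2 * X / U) * (4 * X) * L ^ (4 * b + 20)
          = X ^ 2 * (L ^ (4 * b + 20) * (40 * L) / U) := by ring
      rw [e]
      refine mul_le_of_le_one_right (by positivity) ?_
      rw [div_le_one (by linarith)]
      refine le_trans ?_ hUL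
      gcongr
      nlinarith)
    (by
      rw [hH2, le_div_iff₀ (by positivity)]
      have e1 : L ^ (4 * b + 20) * (100 * L ^ 2) ≤ U ^ 2 := by
        have e2 : (100 : ℝ) ≤ U := by
          refine le_trans ?_ hUL
          nlinarith [hpw (4 * b + 20)]
        calc _ = 100 * (L ^ (4 * b + 20) * L ^ 2) := by ring
          _ ≤ U * U := by gcongr
          _ = _ := by ring
      calc _ = X * (Q ^ 2 * (L ^ (4 * b + 20) * (100 * L ^ 2))) := by ring
        _ ≤ X * (Q ^ 2 * U ^ 2) := by gcongr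
        _ ≤ X * X := by rw [← mul_pow]; gcongr
        _ = _ := by ring)
  set ε := X / L ^ (3 * b + 13) with hε
  set pw := 8 * √X + (1 + 3 * D) * (U : ℝ) ^ 2 with hpwd
  have hpw0 : 0 ≤ pw := by positivity
  refine ⟨fun q => if q ≤ F then 2 * ε else L * (E q + 2 * (X / T * (1 + L) / q) + pw),
    fun q => by have := hE0 q; beta_reduce; split_ifs <;> positivity, ?_, fun f ψ hf h0 hs => ?_⟩
  · set Y := X / L ^ (b + 1) with hY
    have e1 : ∑ q ∈ Ioc 0 Q, (if q ≤ F then 2 * ε else L * (E q + 2 * (X / T * (1 + L) / q) + pw))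
        ≤ ∑ q ∈ Ioc 0 Q, ((if q ≤ F then 2 * ε else 0) + L * (if q ≤ F then 0 else E q)
          + (2 * L * (X / T * (1 + L))) * (1 / q) + L * pw) := by
      refine sum_le_sum fun q _ => ?_
      split_ifs
      · have : 0 ≤ (2 * L * (X / T * (1 + L))) * (1 / (q : ℝ)) + L * pw := by positivity
        linarith
      · exact le_of_eq (by ring)
    refine e1.trans ?_
    simp only [sum_add_distrib, ← Finset.mul_sum]
    have t1 : ∑ q ∈ Ioc 0 Q, (if q ≤ F then 2 * ε else 0) ≤ Y := by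
      calc _ = ∑ q ∈ (Ioc 0 Q).filter (· ≤ F), 2 * ε := (sum_filter _ _).symm
        _ ≤ ∑ q ∈ Ioc 0 F, 2 * ε := sum_le_sum_of_subset_of_nonneg (fun n hn => by
            simp only [mem_filter, mem_Ioc] at hn ⊢; omega) fun _ _ _ => by positivity
        _ = F * (2 * ε) := by simp
        _ ≤ L ^ (2 * b + 11) * (L * ε) := by gcongr; linarith
        _ = Y := by rw [hε, hY]; field_simp; ring
    have t2 : L * ∑ q ∈ Ioc 0 Q, (if q ≤ F then 0 else E q) ≤ Y := by
      have e2 : ∑ q ∈ Ioc 0 Q, (if q ≤ F then 0 else E q) = ∑ q ∈ Ioc F Q, E q := by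
        rw [sum_ite, sum_const_zero, zero_add]
        congr 1
        ext q
        simp only [mem_filter, mem_Ioc]
        omega
      rw [e2]
      have e3 : L * T + 1 ≤ 3 * L ^ (b + 5) := by
        have := hpw (b + 5)
        rw [pow_succ] at this ⊢
        nlinarith
      have e4 : (Nat.log 2 Q : ℝ) + 1 ≤ 3 * L := by linarith [natlog_le hQ hlQ]
      calc _ ≤ L * ((L * T + 1) * (2 * D * ((Nat.log 2 Q + 1) * (10 * H)))) := by gcongr
        _ = L * (L * T + 1) * (20 * D) * (Nat.log 2 Q + 1) * H := by ring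
        _ ≤ L * (3 * L ^ (b + 5)) * L * (3 * L) * H := by gcongr
        _ = 9 * (L ^ (b + 8) * H) := by ring
        _ ≤ L * (L ^ (b + 8) * H) := by gcongr; linarith
        _ = Y := by rw [hH, hY]; field_simp; ring
    have t3 : 2 * L * (X / T * (1 + L)) * ∑ q ∈ Ioc 0 Q, (1 : ℝ) / q ≤ 8 * Y := by
      calc _ ≤ 2 * L * (X / L ^ (b + 4) * (2 * L)) * (2 * L) := by
            gcongr
            · linarith
            · linarith [harm_le Q]
        _ = _ := by rw [hY]; field_simp; ring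
    have t4 : L * ∑ q ∈ Ioc 0 Q, pw ≤ Y := by
      simp only [sum_const, Nat.card_Ioc, Nat.sub_zero, nsmul_eq_mul]
      have e2 : pw ≤ L * √X := by
        have : (1 + 3 * D) * (U : ℝ) ^ 2 ≤ (1 + 3 * D) * √X := by gcongr
        have := Real.sqrt_nonneg (X : ℝ)
        nlinarith
      have e3 : L ^ (b + 3) ≤ U := le_trans (pow_le_pow_right₀ hL1 (by omega)) hLU
      rw [hY, le_div_iff₀ (by positivity)]
      calc _ ≤ L * (Q * (L * √X)) * L ^ (b + 1) := by gcongr
        _ = Q * L ^ (b + 3) * √X := by ring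
        _ ≤ Q * U * √X := by gcongr
        _ ≤ √X * √X := by gcongr
        _ = X := hs3
    have e5 : X / L ^ b = L * Y := by rw [hY]; field_simp; ring
    have e6 : 0 ≤ Y := by positivity
    rw [e5]
    nlinarith
  · beta_reduce
    split_ifs with hq
    · refine small_q hinj hc hDc X hf ψ h0 hs (X / (D * ∏ p ∈ f, pr p).totient) ε (by positivity)
        fun a ha => hSW _ (Nat.mul_pos hD (prod_pr_pos f)) ?_ a ha X le_rfl
      have : ((∏ p ∈ f, pr p : ℕ) : ℝ) ≤ F := by exact_mod_cast hq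
      rw [Nat.cast_mul, pow_succ' L (2 * b + 11)]
      gcongr
      · linarith
      · linarith
    · exact hE2 f ψ hf h0 hs

variable {ι : Type} [Fintype ι] [DecidableEq ι] {pr : ι → ℕ} [∀ p, Fact (pr p).Prime]

omit [DecidableEq ι] in
lemma euler_le (hinj : Function.Injective pr) {X : ℕ} (hp : ∀ p, pr p ≤ X)
    (hL : 2 * Real.exp 10 ≤ Real.log X) (C : ℕ) :
    ∏ p, (1 + (C : ℝ) / pr p) ≤ Real.log X ^ (6 * C) := by
  set L := Real.log X
  have h10 : 1 ≤ Real.exp 10 := Real.one_le_exp (by norm_num)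
  have h1 : ∑ p, (1 : ℝ) / pr p ≤ 3 * (Real.log (1 + L) + 10) := by
    have h2 := sum1_upper 1 one_pos X
    simp only [one_mul, mul_one] at h2
    calc _ = ∑ q ∈ univ.image pr, (1 : ℝ) / q :=
          (sum_image (f := fun q : ℕ => (1 : ℝ) / q) fun p _ q _ h => hinj h).symm
      _ ≤ ∑ q ∈ Nat.primesLE X, (1 : ℝ) / q := by
          refine sum_le_sum_of_subset_of_nonneg (fun q hq => ?_) fun _ _ _ => by positivity
          obtain ⟨p, _, rfl⟩ := mem_image.1 hq
          exact Nat.mem_primesLE.2 ⟨hp p, Fact.out⟩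
      _ ≤ ∑ q ∈ Nat.primesLE X, 3 * (Real.log q / q * (1 / (1 + Real.log q))) := by
          refine sum_le_sum fun q hq => ?_
          have h3 : (2 : ℝ) ≤ q := by exact_mod_cast (Nat.mem_primesLE.1 hq).2.two_le
          have h4 := Real.log_le_log (by norm_num) h3
          have h5 := Real.log_two_gt_d9
          have e : 3 * (Real.log q / q * (1 / (1 + Real.log q)))
              = 1 / q * (3 * Real.log q / (1 + Real.log q)) := by ring
          rw [e]
          refine le_mul_of_one_le_right (by positivity) ?_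
          rw [le_div_iff₀ (by linarith)]
          linarith
      _ ≤ _ := by rw [← Finset.mul_sum]; linarith
  calc _ ≤ ∏ p, Real.exp ((C : ℝ) * (1 / pr p)) :=
        prod_le_prod (fun p _ => by positivity) fun p _ => by
          rw [mul_one_div, add_comm]; exact Real.add_one_le_exp _
    _ = Real.exp (C * ∑ p, (1 : ℝ) / pr p) := by rw [← Real.exp_sum, Finset.mul_sum]
    _ ≤ Real.exp (C * (3 * (Real.log (1 + L) + 10))) := by gcongr
    _ = ((1 + L) * Real.exp 10) ^ (3 * C) := by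
        rw [← Real.exp_log (show 0 < 1 + L by linarith), ← Real.exp_add, ← Real.exp_nat_mul,
          Real.log_exp]
        congr 1; push_cast; ring
    _ ≤ (L ^ 2) ^ (3 * C) := by gcongr; nlinarith
    _ = _ := by rw [← pow_mul]; congr 1; ring

theorem BV {D c : ℕ} (hD : 0 < D) (hc : c.Coprime D) (K A : ℕ) : ∃ B : ℕ,
    ∀ᶠ X : ℕ in atTop, ∀ Q U : ℕ, 1 ≤ Q → (Q * U) ^ 2 ≤ X → U ^ 4 ≤ X → Real.log X ^ B ≤ U →
      ∀ (ι : Type) [Fintype ι] [DecidableEq ι] (pr : ι → ℕ) [∀ p, Fact (pr p).Prime],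
      Function.Injective pr → (∀ p, D.Coprime (pr p)) → (∀ p, pr p ≤ X) →
      ∃ E : Finset ι → ℝ, (∀ f, 0 ≤ E f) ∧ ∑ f, (K : ℝ) ^ #f * E f ≤ X / Real.log X ^ A ∧
        ∀ (f : Finset ι) (ψ : (p : ι) → ZMod (pr p) → ℝ), f.Nonempty → ∏ p ∈ f, pr p ≤ Q →
          (∀ p ∈ f, ψ p 0 = 0) → (∀ p ∈ f, ∑ t, ψ p t = 0) →
          |∑ n ∈ Ioc 0 X, lam n * PS D c f ψ n| ≤ kap f ψ * E f := by
  refine ⟨4 * (2 * A + 6 * K ^ 2 + 4) + 22, ?_⟩
  filter_upwards [BV0 hD hc (2 * A + 6 * K ^ 2 + 4), tendsto_L.eventually_ge_atTop 3,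
    tendsto_L.eventually_ge_atTop (2 * Real.exp 10), eventually_gt_atTop 0]
    with X h hL hL' hX Q U hQ hQU hU4 hLU ι _ _ pr _ hinj hDc hpX
  obtain ⟨E, hE0, hE1, hE2⟩ := h Q U hQ hQU hU4 hLU ι pr hinj hDc
  have hEu := euler_le hinj hpX hL' (K ^ 2)
  set L := Real.log X with hLdef
  have hL0 : 0 < L := by linarith
  have hX' : (0 : ℝ) < X := by exact_mod_cast hX
  have hU : 1 ≤ U := by exact_mod_cast (one_le_pow₀ (show 1 ≤ L by linarith)).trans hLU
  have hQX : Q ≤ X := le_trans (le_trans (Nat.le_mul_of_pos_right Q hU)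
    (Nat.le_self_pow (by norm_num) _)) hQU
  refine ⟨fun f => if ∏ p ∈ f, pr p ≤ Q then
      min (E (∏ p ∈ f, pr p)) (L * (X / (∏ p ∈ f, pr p : ℕ) + 2)) else 0,
    fun f => by have := hE0 (∏ p ∈ f, pr p); beta_reduce; split_ifs <;> positivity, ?_,
    fun f ψ hf hq h0 hs => ?_⟩
  · set W := L ^ (A + 6 * K ^ 2 + 3) with hW
    have hW0 : 0 < W := by positivity
    have e1 : ∀ f : Finset ι, (K : ℝ) ^ #f * (if ∏ p ∈ f, pr p ≤ Q then
        min (E (∏ p ∈ f, pr p)) (L * (X / (∏ p ∈ f, pr p : ℕ) + 2)) else 0)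
        ≤ W * (if ∏ p ∈ f, pr p ≤ Q then E (∏ p ∈ f, pr p) else 0)
          + 3 * L * X / W * ∏ p ∈ f, (((K ^ 2 : ℕ) : ℝ) / pr p) := by
      intro f
      have hq0 : (0 : ℝ) < (∏ p ∈ f, pr p : ℕ) := by exact_mod_cast prod_pr_pos (pr := pr) f
      split_ifs with hq
      · have e2 : ∏ p ∈ f, (((K ^ 2 : ℕ) : ℝ) / pr p)
            = ((K : ℝ) ^ #f) ^ 2 / (∏ p ∈ f, pr p : ℕ) := by
          rw [prod_div_distrib, prod_const]
          push_cast
          rw [← pow_mul, ← pow_mul, mul_comm]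
        rw [e2]
        set q : ℝ := ((∏ p ∈ f, pr p : ℕ) : ℝ) with hqd
        have hqX : 1 ≤ X / q := by
          rw [le_div_iff₀ hq0, one_mul, hqd]; exact_mod_cast hq.trans hQX
        have hE := hE0 (∏ p ∈ f, pr p)
        have hK : (0 : ℝ) ≤ (K : ℝ) ^ #f := by positivity
        rcases le_total ((K : ℝ) ^ #f) W with hk | hk
        · have : 0 ≤ 3 * L * X / W * (((K : ℝ) ^ #f) ^ 2 / q) := by positivity
          have := mul_le_mul hk (min_le_left (E (∏ p ∈ f, pr p)) (L * (X / q + 2)))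
            (by positivity) hW0.le
          linarith
        · have e3 : (K : ℝ) ^ #f ≤ ((K : ℝ) ^ #f) ^ 2 / W := by
            rw [le_div_iff₀ hW0, sq]; gcongr
          have e4 : L * (X / q + 2) ≤ L * (3 * (X / q)) := by gcongr; linarith
          have := mul_le_mul e3 ((min_le_right (E (∏ p ∈ f, pr p)) (L * (X / q + 2))).trans e4)
            (by positivity) (by positivity)
          have e5 : ((K : ℝ) ^ #f) ^ 2 / W * (L * (3 * (X / q)))
              = 3 * L * X / W * (((K : ℝ) ^ #f) ^ 2 / q) := by ring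
          have := mul_nonneg hW0.le hE
          linarith
      · simp only [mul_zero, zero_add]; positivity
    refine (sum_le_sum fun f _ => e1 f).trans ?_
    rw [sum_add_distrib, ← Finset.mul_sum, ← Finset.mul_sum]
    have e2 : ∑ f : Finset ι, (if ∏ p ∈ f, pr p ≤ Q then E (∏ p ∈ f, pr p) else 0)
        ≤ X / L ^ (2 * A + 6 * K ^ 2 + 4) := by
      refine le_trans ?_ hE1
      rw [← sum_filter, ← sum_image (f := E) (g := fun f : Finset ι => ∏ p ∈ f, pr p)
        (fun f _ g _ h => prod_pr_injective hinj h)]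
      refine sum_le_sum_of_subset_of_nonneg (fun q hq => ?_) fun q _ _ => hE0 q
      obtain ⟨f, hf, rfl⟩ := mem_image.1 hq
      exact mem_Ioc.2 ⟨prod_pr_pos f, (mem_filter.1 hf).2⟩
    have e3 : ∑ f : Finset ι, ∏ p ∈ f, (((K ^ 2 : ℕ) : ℝ) / pr p) ≤ L ^ (6 * K ^ 2) := by
      refine le_trans (le_of_eq ?_) hEu
      rw [prod_one_add, powerset_univ]
    set Y := X / L ^ (A + 2) with hY
    have e4 : W * (X / L ^ (2 * A + 6 * K ^ 2 + 4)) = L * Y := by rw [hW, hY]; field_simp; ring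
    have e5 : 3 * L * X / W * L ^ (6 * K ^ 2) = 3 * Y := by rw [hW, hY]; field_simp; ring
    have e6 : X / L ^ A = L * L * Y := by rw [hY]; field_simp; ring
    have e7 : 0 ≤ Y := by positivity
    have e8 := mul_le_mul_of_nonneg_left e2 hW0.le
    have e9 := mul_le_mul_of_nonneg_left e3 (show 0 ≤ 3 * L * X / W by positivity)
    have e10 : (L + 3) * Y ≤ L * L * Y := by gcongr; nlinarith
    linarith
  · beta_reduce
    rw [if_pos hq, mul_min_of_nonneg _ _ (kap_nonneg f ψ)]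
    exact le_min (hE2 f ψ hf h0 hs) (triv_q hinj D c X hX f ψ h0)

end Pool.Agent.Lib.MP_28260b_nt
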