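import Pool.Agent.Lib.MP_28260b_nt.BV3

/-! Harmonic sums over geometric boxes of integers prime to `W`. -/

namespace Pool.Agent.Lib.MP_28260b_nt

open Finset Pool.Agent.Lib.MP_6a20cc_nt
open Fintype (piFinset mem_piFinset)

lemma count_cop {W : ℕ} (hW : 0 < W) (y : ℕ) :
    |∑ n ∈ range y, ((if n.Coprime W then (1 : ℝ) else 0) - (W.totient : ℝ) / W)| ≤ W := by
  have e1 : ∑ n ∈ range y, (if n.Coprime W then (1 : ℝ) else 0)
      = ∑ a ∈ (range W).filter (fun a => W.Coprime a),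
        (#((range y).filter fun m => m ≡ a [MOD W]) : ℝ) := by
    simp only [card_filter, Nat.cast_sum, Nat.cast_ite, Nat.cast_one, Nat.cast_zero]
    rw [sum_comm]
    refine sum_congr rfl fun n _ => ?_
    split_ifs with h
    · rw [sum_eq_single_of_mem (n % W)]
      · rw [if_pos (Nat.mod_modEq n W).symm]
      · exact mem_filter.2 ⟨mem_range.2 (Nat.mod_lt _ hW), by
          rw [Nat.Coprime, Nat.gcd_comm, ← Nat.gcd_rec]; exact h.symm⟩
      · intro a ha hne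
        refine if_neg fun h' => hne ?_
        rw [h', Nat.mod_eq_of_lt (mem_range.1 (mem_filter.1 ha).1)]
    · refine (sum_eq_zero fun a ha => if_neg fun h' => h ?_).symm
      rw [Nat.Coprime, h'.gcd_eq]
      exact (mem_filter.1 ha).2.symm
  have e2 : ∑ n ∈ range y, (W.totient : ℝ) / W
      = ∑ a ∈ (range W).filter (fun a => W.Coprime a), (y : ℝ) / W := by
    simp only [sum_const, card_range, nsmul_eq_mul, ← Nat.totient_eq_card_coprime]
    ring
  rw [sum_sub_distrib, e1, e2, ← sum_sub_distrib]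
  refine (abs_sum_le_sum_abs _ _).trans ((sum_le_sum fun a _ => count_mod y W a hW).trans ?_)
  simp only [sum_const, nsmul_eq_mul, mul_one, ← Nat.totient_eq_card_coprime]
  exact_mod_cast Nat.totient_le W

lemma harm_Ico {y₁ : ℕ} (h : 1 ≤ y₁) (y₂ : ℕ) (hy : y₁ ≤ y₂) :
    Real.log y₂ - Real.log y₁ ≤ ∑ t ∈ Ico y₁ y₂, (1 : ℝ) / t ∧
      ∑ t ∈ Ico y₁ y₂, (1 : ℝ) / t ≤ Real.log y₂ - Real.log y₁ + (1 / y₁ - 1 / y₂) := by
  induction y₂, hy using Nat.le_induction with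
  | base => simp
  | succ n hn ih =>
    have hn' : (0 : ℝ) < n := by exact_mod_cast lt_of_lt_of_le h hn
    rw [sum_Ico_succ_top hn]
    push_cast
    have h1 := Real.log_le_sub_one_of_pos (show 0 < ((n : ℝ) + 1) / n by positivity)
    have h2 := Real.log_le_sub_one_of_pos (show 0 < (n : ℝ) / (n + 1) by positivity)
    rw [Real.log_div (by positivity) (by positivity)] at h1 h2
    have e1 : ((n : ℝ) + 1) / n - 1 = 1 / n := by field_simp; ring
    have e2 : (n : ℝ) / (n + 1) - 1 = -(1 / (n + 1)) := by field_simp; ring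
    constructor <;> linarith [ih.1, ih.2]

lemma harm_cop {W y₁ y₂ : ℕ} (hW : 0 < W) (h : 1 ≤ y₁) (hy : y₁ < y₂) :
    |∑ t ∈ (Ico y₁ y₂).filter (fun t => t.Coprime W), (1 : ℝ) / t
      - (W.totient : ℝ) / W * (Real.log y₂ - Real.log y₁)| ≤ 2 * W + 1 := by
  set ρ := (W.totient : ℝ) / W with hρ
  set a : ℕ → ℝ := fun n => (if n.Coprime W then (1 : ℝ) else 0) - ρ with ha
  have hW' : (0 : ℝ) < W := by exact_mod_cast hW
  have hy1 : (1 : ℝ) ≤ y₁ := by exact_mod_cast h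
  have hρ0 : 0 ≤ ρ := by positivity
  have hρ1 : ρ ≤ 1 := by rw [hρ, div_le_one hW']; exact_mod_cast Nat.totient_le W
  have hB : ∀ y, |∑ n ∈ range y, a (y₁ + n)| ≤ 2 * W := by
    intro y
    have e := sum_range_add a y₁ y
    have h1 := abs_le.1 (count_cop hW (y₁ + y))
    have h2 := abs_le.1 (count_cop hW y₁)
    rw [abs_le]
    constructor <;> linarith [h1.1, h1.2, h2.1, h2.2]
  obtain ⟨y, rfl⟩ : ∃ y, y₂ = y₁ + (y + 1) := ⟨y₂ - y₁ - 1, by omega⟩
  have h1 := abel_abs (fun n => a (y₁ + n)) (fun n => -(1 / ((y₁ + n : ℕ) : ℝ))) _ hB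
    (fun n => by push_cast; rw [neg_le_neg_iff]; gcongr; linarith) y
  have e1 : ∑ t ∈ (Ico y₁ (y₁ + (y + 1))).filter (fun t => t.Coprime W), (1 : ℝ) / t
      = -(∑ n ∈ range (y + 1), -(1 / ((y₁ + n : ℕ) : ℝ)) * a (y₁ + n))
        + ρ * ∑ t ∈ Ico y₁ (y₁ + (y + 1)), (1 : ℝ) / t := by
    rw [sum_filter, sum_Ico_eq_sum_range, sum_Ico_eq_sum_range, Nat.add_sub_cancel_left,
      ← sum_neg_distrib, Finset.mul_sum, ← sum_add_distrib]
    refine sum_congr rfl fun n _ => ?_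
    simp only [ha]
    split_ifs <;> ring
  obtain ⟨h2, h3⟩ := harm_Ico h (y₁ + (y + 1)) hy.le
  have h4 := abs_le.1 (hB (y + 1))
  have h5 : (0 : ℝ) < 1 / ((y₁ + y : ℕ) : ℝ) := by push_cast; positivity
  have h6 : (1 : ℝ) / y₁ ≤ 1 := by rw [div_le_one (by linarith)]; exact hy1
  have h7 : (0 : ℝ) < 1 / ((y₁ + (y + 1) : ℕ) : ℝ) := by push_cast; positivity
  have h8 := mul_le_mul_of_nonneg_left h4.1 h5.le
  have h9 := mul_le_mul_of_nonneg_left h4.2 h5.le
  have h10 := mul_le_mul_of_nonneg_left h2 hρ0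
  have h11 := mul_le_mul_of_nonneg_left
    (h3.trans (show _ ≤ Real.log ((y₁ + (y + 1) : ℕ) : ℝ) - Real.log y₁ + 1 by linarith)) hρ0
  have h12 := mul_le_mul_of_nonneg_left h6 hW'.le
  rw [e1]
  simp only [Nat.add_zero] at h1
  rw [abs_le] at h1 ⊢
  constructor <;> linarith [h1.1, h1.2]

noncomputable def HH (W z j : ℕ) : ℝ :=
  ∑ t ∈ (Ico (z ^ j) (z ^ (j + 1))).filter (fun t => t.Coprime W), (1 : ℝ) / t

lemma HH_close {W z : ℕ} (hW : 0 < W) (hz : 2 ≤ z) (j : ℕ) :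
    |HH W z j - (W.totient : ℝ) / W * Real.log z| ≤ 2 * W + 1 := by
  have h := harm_cop (y₁ := z ^ j) (y₂ := z ^ (j + 1)) hW (Nat.one_le_pow _ _ (by omega))
    (Nat.pow_lt_pow_right (by omega) (by omega))
  have e : Real.log ((z ^ (j + 1) : ℕ) : ℝ) - Real.log ((z ^ j : ℕ) : ℝ) = Real.log z := by
    push_cast
    rw [Real.log_pow, Real.log_pow]
    push_cast
    ring
  rwa [e] at h

def TT (W z Nb : ℕ) : Finset ℕ := (Ico 1 (z ^ Nb)).filter fun t => t.Coprime W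

lemma mem_TT {W z Nb t : ℕ} : t ∈ TT W z Nb ↔ 1 ≤ t ∧ t < z ^ Nb ∧ t.Coprime W := by
  simp [TT, and_assoc]

lemma box_iff {W z Nb j t : ℕ} (hz : 2 ≤ z) (hj : j < Nb) :
    t ∈ TT W z Nb ∧ Nat.log z t = j ↔
      t ∈ (Ico (z ^ j) (z ^ (j + 1))).filter fun t => t.Coprime W := by
  rw [mem_TT, mem_filter, mem_Ico]
  constructor
  · rintro ⟨⟨h1, _, h3⟩, rfl⟩
    exact ⟨⟨Nat.pow_log_le_self z (by omega), Nat.lt_pow_succ_log_self (by omega) t⟩, h3⟩
  · rintro ⟨⟨h1, h2⟩, h3⟩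
    exact ⟨⟨le_trans (Nat.one_le_pow _ _ (by omega)) h1,
      h2.trans_le (Nat.pow_le_pow_right (by omega) hj), h3⟩, Nat.log_eq_of_pow_le_of_lt_pow h1 h2⟩

lemma log_lt {W z Nb t : ℕ} (ht : t ∈ TT W z Nb) : Nat.log z t < Nb := by
  obtain ⟨h1, h2, _⟩ := mem_TT.1 ht
  exact Nat.log_lt_of_lt_pow (by omega) h2

lemma sum_TT {W z : ℕ} (hz : 2 ≤ z) (Nb : ℕ) :
    ∑ t ∈ TT W z Nb, (1 : ℝ) / t = ∑ j ∈ range Nb, HH W z j := by
  rw [← sum_fiberwise_of_maps_to (g := Nat.log z) (t := range Nb)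
    fun t ht => mem_range.2 (log_lt ht)]
  refine sum_congr rfl fun j hj => ?_
  unfold HH
  congr 1
  ext t
  rw [mem_filter, box_iff hz (mem_range.1 hj)]

variable {κ : Type} [Fintype κ] [DecidableEq κ]

lemma box_sum {W z : ℕ} (hz : 2 ≤ z) (Nb : ℕ) (G : (κ → ℕ) → ℝ) :
    ∑ τ ∈ piFinset (fun _ : κ => TT W z Nb), G (fun i => Nat.log z (τ i)) * ∏ i, (1 : ℝ) / τ i
      = ∑ j ∈ piFinset (fun _ : κ => range Nb), G j * ∏ i, HH W z (j i) := by
  rw [← sum_fiberwise_of_maps_to (g := fun τ i => Nat.log z (τ i))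
    (t := piFinset (fun _ : κ => range Nb))
    fun τ hτ => mem_piFinset.2 fun i => mem_range.2 (log_lt (mem_piFinset.1 hτ i))]
  refine sum_congr rfl fun j hj => ?_
  unfold HH
  rw [prod_univ_sum, Finset.mul_sum]
  refine sum_congr ?_ fun τ hτ => ?_
  · ext τ
    rw [mem_filter, mem_piFinset, mem_piFinset, funext_iff, ← forall_and]
    exact forall_congr' fun i => box_iff hz (mem_range.1 (mem_piFinset.1 hj i))
  · congr 2
    funext i
    exact ((box_iff hz (mem_range.1 (mem_piFinset.1 hj i))).2 (mem_piFinset.1 hτ i)).2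

lemma dvd_sum1 (W z Nb : ℕ) {d : ℕ} (hd : 0 < d) :
    ∑ t ∈ TT W z Nb, (if d ∣ t then (1 : ℝ) / t else 0) ≤ (∑ t ∈ TT W z Nb, (1 : ℝ) / t) / d := by
  rw [← sum_filter, sum_div]
  calc _ = ∑ t ∈ (TT W z Nb).filter (d ∣ ·), (1 : ℝ) / (t / d : ℕ) / d := by
        refine sum_congr rfl fun t ht => ?_
        obtain ⟨s, rfl⟩ := (mem_filter.1 ht).2
        rw [Nat.mul_div_cancel_left _ hd]
        push_cast
        rw [div_div, mul_comm]
    _ = ∑ s ∈ ((TT W z Nb).filter (d ∣ ·)).image (· / d), (1 : ℝ) / s / d := by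
        rw [sum_image]
        intro t ht t' ht' h
        obtain ⟨s, rfl⟩ := (mem_filter.1 ht).2
        obtain ⟨s', rfl⟩ := (mem_filter.1 ht').2
        simp only [Nat.mul_div_cancel_left _ hd] at h
        rw [h]
    _ ≤ _ := by
        refine sum_le_sum_of_subset_of_nonneg (fun s hs => ?_) fun _ _ _ => by positivity
        obtain ⟨t, ht, rfl⟩ := mem_image.1 hs
        obtain ⟨s, rfl⟩ := (mem_filter.1 ht).2
        obtain ⟨h1, h2, h3⟩ := mem_TT.1 (mem_filter.1 ht).1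
        rw [Nat.mul_div_cancel_left _ hd]
        exact mem_TT.2 ⟨Nat.pos_of_mul_pos_left h1 , lt_of_le_of_lt (Nat.le_mul_of_pos_left s hd) h2,
          Nat.Coprime.coprime_mul_left h3⟩

lemma dvd_sum (W z Nb : ℕ) (d : κ → ℕ) (hd : ∀ i, 0 < d i) :
    ∑ τ ∈ piFinset (fun _ : κ => TT W z Nb), (if ∀ i, d i ∣ τ i then ∏ i, (1 : ℝ) / τ i else 0)
      ≤ (∑ t ∈ TT W z Nb, (1 : ℝ) / t) ^ Fintype.card κ / ∏ i, (d i : ℝ) := by
  calc _ = ∏ i, ∑ t ∈ TT W z Nb, (if d i ∣ t then (1 : ℝ) / t else 0) := by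
        rw [prod_univ_sum]
        refine sum_congr rfl fun τ _ => ?_
        rw [Fintype.prod_ite_zero]
    _ ≤ ∏ i, (∑ t ∈ TT W z Nb, (1 : ℝ) / t) / d i :=
        prod_le_prod (fun i _ => sum_nonneg fun t _ => by split_ifs <;> positivity)
          fun i _ => dvd_sum1 W z Nb (hd i)
    _ = _ := by rw [prod_div_distrib, prod_const, Finset.card_univ]

end Pool.Agent.Lib.MP_28260b_nt
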