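import Pool.Agent.Lib.MP_28260b_nt.Num

/-! From two primes among 64 forms to equal divisor sums. -/

namespace Pool.Agent.Lib.MP_28260b_nt

open Finset ArithmeticFunction
open scoped ArithmeticFunction.sigma

def isPA (p : ℕ) : ℕ → ℕ → Bool
  | 0, _ => false
  | f + 1, d => Nat.blt p (d * d) || (p % d != 0 && isPA p f (d + 1))

lemma isPA_spec {p : ℕ} : ∀ f d, isPA p f d = true → ∀ m, d ≤ m → m * m ≤ p → ¬ m ∣ p
  | 0, _, h => by simp [isPA] at h
  | f + 1, d, h => fun m h1 h2 => by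
    simp only [isPA, Bool.or_eq_true, Nat.blt_eq, Bool.and_eq_true, bne_iff_ne] at h
    rcases h with h | h
    · exact absurd (h.trans_le (Nat.mul_le_mul h1 h1)) (not_lt.2 h2)
    · rcases h1.eq_or_lt with rfl | h3
      · exact fun h4 => h.1 (Nat.mod_eq_zero_of_dvd h4)
      · exact isPA_spec f _ h.2 m h3 h2

def isP (p : ℕ) : Bool := decide (2 ≤ p) && isPA p 14000 2

lemma isP_prime {p : ℕ} (h : isP p = true) : p.Prime := by
  simp only [isP, Bool.and_eq_true, decide_eq_true_eq] at h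
  exact Nat.prime_def_le_sqrt.2 ⟨h.1, fun m h1 h2 => isPA_spec _ _ h.2 m h1 (Nat.le_sqrt.1 h2)⟩

def pp (l : List (ℕ × ℕ)) : ℕ := (l.map fun x => x.1 ^ x.2).prod

def sg (l : List (ℕ × ℕ)) : ℕ := (l.map fun x => ∑ j ∈ range (x.2 + 1), x.1 ^ j).prod

def okl : List (ℕ × ℕ) → Bool
  | [] => true
  | x :: l => isP x.1 && Nat.gcd x.1 (pp l) == 1 && okl l

lemma sigma_pp : ∀ l, okl l = true → σ 1 (pp l) = sg l
  | [], _ => by simp [pp, sg]
  | x :: l, h => by
    simp only [okl, Bool.and_eq_true, beq_iff_eq] at h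
    have e : pp (x :: l) = x.1 ^ x.2 * pp l := by simp [pp]
    rw [e, isMultiplicative_sigma.map_mul_of_coprime (Nat.Coprime.pow_left _ h.1.2),
      sigma_pp l h.2, sigma_one_apply_prime_pow (isP_prime h.1.1)]
    simp [sg]

def FU : Fin 6 → List (ℕ × ℕ) :=
  ![[(2, 16), (131071, 1)],
    [(5, 5), (11, 2), (61, 2), (71, 2), (1279, 1), (2557, 1), (5113, 1)],
    [(3, 7), (7, 2), (41, 2), (431, 1), (467, 1), (1723, 1)],
    [(13, 6), (31, 3), (47, 5), (53, 3), (67, 1), (83, 2), (103, 2), (131, 2), (191, 2),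
    (281, 1), (349, 1), (367, 2), (433, 1), (683, 4), (1151, 1), (3463, 1), (3571, 1),
    (8647, 1), (17293, 1), (67429, 1), (1307261, 1), (5229043, 1), (189340631, 1)],
    [(19, 4), (151, 1), (911, 1)],
    [(17, 7), (23, 4), (29, 3), (157, 3), (211, 1), (337, 1), (401, 1), (421, 3), (673, 1),
    (827, 1), (7699, 1), (41761, 1), (292561, 1)]]

def FV : Fin 6 → List (ℕ × ℕ) :=
  ![[(2, 12), (8191, 1)],
    [(5, 4), (11, 3), (61, 3), (71, 3), (1861, 1), (2521, 1)],
    [(3, 5), (7, 4), (41, 1), (467, 2), (719, 1), (2801, 1), (11503, 1)],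
    [(13, 4), (31, 2), (47, 2), (53, 4), (67, 2), (83, 3), (103, 1), (131, 3), (191, 3),
    (311, 1), (331, 1), (349, 2), (367, 1), (683, 3), (2143, 1), (2791, 1), (5581, 1),
    (8581, 1), (30941, 1), (46649, 1)],
    [(19, 2), (127, 1)],
    [(17, 6), (23, 5), (29, 2), (157, 2), (173, 1), (229, 1), (421, 2), (673, 2), (827, 2),
    (8269, 1), (13999, 1), (29611, 1), (59221, 1), (151201, 1), (342379, 1), (684757, 1),
    (25646167, 1)]]

lemma friendly (i : Fin 6) : σ 1 (pp (FU i)) * pp (FV i) = σ 1 (pp (FV i)) * pp (FU i) := by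
  have h : ∀ i, okl (FU i) = true ∧ okl (FV i) = true ∧
      sg (FU i) * pp (FV i) = sg (FV i) * pp (FU i) := by decide +kernel
  rw [sigma_pp _ (h i).1, sigma_pp _ (h i).2.1, (h i).2.2]

theorem club_good {U V : Fin 6 → ℕ} {W : Finset (Fin 6) → Finset (Fin 6) → ℕ} {L m : ℕ}
    (hW : ∀ S T, W S T = (∏ i ∈ S \ T, U i) * ∏ i ∈ T \ S, V i)
    (h0 : ∀ i, 0 < U i ∧ 0 < V i)
    (hcop : ∀ i j, i ≠ j → (U i * V i).Coprime (U j * V j))
    (hfr : ∀ i, σ 1 (U i) * V i = σ 1 (V i) * U i)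
    (hne : ∀ S T, S ≠ T → W S T ≠ W T S) (hL0 : 0 < L)
    (hL : ∀ S T, W T S < W S T → W S T - W T S ∣ L ∧
      (L / (W S T - W T S)).Coprime (W S T * W T S))
    (hm0 : 0 < m) (hm : m.Coprime (∏ i, U i * V i)) :
    {n : ℕ | 0 < n ∧ σ 1 n = σ 1 (n + L * m)}.Infinite := by
  set e : Finset (Fin 6) → Finset (Fin 6) → Fin 6 → ℕ := fun S T i =>
    if i ∈ S \ T then U i else if i ∈ T \ S then V i else 1 with he
  have hWe : ∀ S T, W S T = ∏ i, e S T i := fun S T => by
    rw [hW, ← Fintype.prod_ite_mem (S \ T), ← Fintype.prod_ite_mem (T \ S), ← prod_mul_distrib]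
    refine prod_congr rfl fun i _ => ?_
    by_cases h1 : i ∈ S <;> by_cases h2 : i ∈ T <;> simp [he, h1, h2]
  have hed : ∀ S T i, e S T i ∣ U i * V i := fun S T i => by
    simp only [he]
    split_ifs <;> simp
  have hWd : ∀ S T, W S T ∣ ∏ i, U i * V i := fun S T =>
    hWe S T ▸ prod_dvd_prod_of_dvd _ _ fun i _ => hed S T i
  have hP : 0 < ∏ i, U i * V i := prod_pos fun i _ => Nat.mul_pos (h0 i).1 (h0 i).2
  have hW0 : ∀ S T, 0 < W S T := fun S T => Nat.pos_of_dvd_of_pos (hWd S T) hP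
  have hs : ∀ S T, σ 1 (W S T) = ∏ i, σ 1 (e S T i) := fun S T => by
    rw [hWe]
    exact isMultiplicative_sigma.map_prod _ _ fun i _ j _ h =>
      ((hcop i j h).of_dvd_left (hed S T i)).of_dvd_right (hed S T j)
  have hsW : ∀ S T, σ 1 (W S T) * W T S = σ 1 (W T S) * W S T := fun S T => by
    rw [hs, hs, hWe, hWe, ← prod_mul_distrib, ← prod_mul_distrib]
    refine prod_congr rfl fun i _ => ?_
    by_cases h1 : i ∈ S <;> by_cases h2 : i ∈ T <;> simp [he, h1, h2, hfr]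
  set a : Finset (Fin 6) → ℕ := fun S => ∏ i, if i ∈ S then U i else V i with ha
  have ha0 : ∀ S, 0 < a S := fun S => prod_pos fun i _ => by
    split_ifs
    exacts [(h0 i).1, (h0 i).2]
  have haW : ∀ S T, a S * W T S = a T * W S T := fun S T => by
    rw [hWe, hWe, ← prod_mul_distrib, ← prod_mul_distrib]
    refine prod_congr rfl fun i _ => ?_
    by_cases h1 : i ∈ S <;> by_cases h2 : i ∈ T <;> simp [he, h1, h2, mul_comm]
  have hinj : Function.Injective a := fun S T h => by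
    by_contra hST
    have := haW S T
    rw [h] at this
    exact hne S T hST (Nat.eq_of_mul_eq_mul_left (ha0 T) this).symm
  let f : Fin 64 ≃ Finset (Fin 6) := (Fintype.equivFinOfCardEq (by simp)).symm
  refine Set.infinite_of_forall_exists_gt fun N => ?_
  obtain ⟨n, hn, i, j, hij, hp, hq⟩ := maynard64 (a ∘ f) (fun i => ha0 _) (hinj.comp f.injective)
    (L * m * (∏ i, U i * V i) + N + 1)
  obtain ⟨S, T, hST, hp, hq⟩ : ∃ S T, W T S < W S T ∧ (a S * n - 1).Prime ∧ (a T * n - 1).Prime := by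
    rcases lt_or_gt_of_ne (hne _ _ (f.injective.ne hij)) with h | h
    exacts [⟨_, _, h, hq, hp⟩, ⟨_, _, h, hp, hq⟩]
  obtain ⟨⟨c, hc⟩, h2⟩ := hL S T hST
  rw [hc, Nat.mul_div_cancel_left _ (by omega)] at h2
  have hc0 : 0 < c := Nat.pos_of_mul_pos_left (hc ▸ hL0)
  have hcL : c ≤ L := Nat.le_of_dvd hL0 (hc ▸ dvd_mul_left _ _)
  have key : ∀ S T R, (a R * n - 1).Prime → c.Coprime (W S T) → N < a R * n - 1 ∧
      σ 1 (c * m * W S T * (a R * n - 1)) = σ 1 (c * m) * σ 1 (W S T) * (a R * n) := by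
    intro S T R hp hcW
    have b1 : n ≤ a R * n := Nat.le_mul_of_pos_left n (ha0 R)
    have b2 : c * m * W S T ≤ L * m * ∏ i, U i * V i :=
      Nat.mul_le_mul (Nat.mul_le_mul_right m hcL) (Nat.le_of_dvd hP (hWd S T))
    have b3 : 0 < c * m * W S T := Nat.mul_pos (Nat.mul_pos hc0 hm0) (hW0 S T)
    have b4 := sigma_one_apply_prime_pow (i := 1) hp
    rw [pow_one] at b4
    refine ⟨by omega, ?_⟩
    rw [isMultiplicative_sigma.map_mul_of_coprime
      (Nat.coprime_of_lt_prime b3.ne' (by omega) hp).symm,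
      isMultiplicative_sigma.map_mul_of_coprime (hcW.mul_left (hm.of_dvd_right (hWd S T))), b4]
    congr 1
    simp only [sum_range_succ, range_zero, sum_empty, pow_zero, pow_one]
    omega
  obtain ⟨k1, k2⟩ := key S T T hq h2.coprime_mul_right_right
  obtain ⟨-, k3⟩ := key T S S hp h2.coprime_mul_left_right
  have b3 : 0 < c * m * W S T := Nat.mul_pos (Nat.mul_pos hc0 hm0) (hW0 S T)
  have b4 := Nat.le_mul_of_pos_left (a T * n - 1) b3
  refine ⟨c * m * W S T * (a T * n - 1), ⟨by omega, ?_⟩, by omega⟩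
  have e1 : c * m * W S T * (a T * n - 1) + L * m = c * m * W T S * (a S * n - 1) := by
    have := hp.two_le
    have := hq.two_le
    rw [hc]
    zify [hST.le, show 1 ≤ a T * n by omega, show 1 ≤ a S * n by omega]
    have h3 : (a S : ℤ) * W T S = a T * W S T := by exact_mod_cast haW S T
    linear_combination (-c * m * n) * h3
  rw [e1, k2, k3]
  refine Nat.eq_of_mul_eq_mul_left (hW0 S T) ?_
  have h3 := haW S T
  have h4 := hsW S T
  zify at h3 h4 ⊢
  linear_combination (σ 1 (c * m) * n * a S : ℤ) * h4 - (σ 1 (c * m) * n * σ 1 (W S T) : ℤ) * h3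

end Pool.Agent.Lib.MP_28260b_nt
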