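import Pool.Agent.Lib.MP_28260b_nt.Ten
import Pool.Agent.Lib.MP_6a20cc_nt.Count

/-! Local functions of the Maynard sieve at one prime and their Gram matrices. -/

namespace Pool.Agent.Lib.MP_28260b_nt

open Finset Pool.Agent.Lib.MP_6a20cc_nt

variable {k : ℕ}

/-- diagonal majorant of the Gram matrix over all residues -/
noncomputable def B1 (p : ℝ) (s t : Option (Fin k)) : ℝ :=
  if s = t then s.elim 1 (fun _ => 1 / p) else 0

noncomputable def chi (p : ℝ) (m : Fin k) (s : Option (Fin k)) : ℝ :=
  s.elim 1 (fun i => if i = m then 1 / p else 0)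

noncomputable def eta (m : Fin k) (s : Option (Fin k)) : ℝ :=
  s.elim 0 (fun i => if i = m then 0 else 1)

/-- minorant of the Gram matrix over the invertible residues -/
noncomputable def B2 (p : ℝ) (m : Fin k) (s t : Option (Fin k)) : ℝ :=
  (1 - 1 / p ^ 2) * (chi p m s * chi p m t) + (p - 2 * k) / p ^ 2 * (if s = t then eta m s else 0)

lemma quad_outer {σ : Type} [Fintype σ] (c u : σ → ℝ) :
    ∑ s, ∑ t, c s * c t * (u s * u t) = (∑ s, c s * u s) ^ 2 := by
  rw [sq, sum_mul_sum]
  exact sum_congr rfl fun s _ => sum_congr rfl fun t _ => by ring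

lemma quad_diag {σ : Type} [Fintype σ] [DecidableEq σ] (c u : σ → ℝ) :
    ∑ s, ∑ t, c s * c t * (if s = t then u s else 0) = ∑ s, c s ^ 2 * u s := by
  refine sum_congr rfl fun s _ => ?_
  simp only [mul_ite, mul_zero, sum_ite_eq, mem_univ, if_true]
  ring

lemma chi_nonneg {p : ℝ} (hp : 0 ≤ p) (m : Fin k) (s : Option (Fin k)) : 0 ≤ chi p m s := by
  rcases s with _ | i
  · simp [chi]
  · simp only [chi, Option.elim]; split_ifs <;> positivity

lemma eta_cases (m : Fin k) (s : Option (Fin k)) : eta m s = 0 ∨ eta m s = 1 := by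
  rcases s with _ | i
  · simp [eta]
  · simp only [eta, Option.elim]; split_ifs <;> simp

lemma eta_nonneg (m : Fin k) (s : Option (Fin k)) : 0 ≤ eta m s := by
  rcases eta_cases m s with h | h <;> simp [h]

lemma d0_nonneg {p : ℝ} (hp : 1 ≤ p) : 0 ≤ 1 - 1 / p ^ 2 := by
  rw [sub_nonneg, div_le_one (by positivity)]
  exact one_le_pow₀ hp

lemma B2_nonneg {p : ℝ} (hp : 4 * k + 1 ≤ p) (m : Fin k) (s t : Option (Fin k)) :
    0 ≤ B2 p m s t := by
  have hk : (0 : ℝ) ≤ k := Nat.cast_nonneg k
  have h1 := d0_nonneg (show 1 ≤ p by linarith)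
  have h2 := chi_nonneg (show 0 ≤ p by linarith) m s
  have h3 := chi_nonneg (show 0 ≤ p by linarith) m t
  have h4 := eta_nonneg m s
  have h5 : 0 ≤ p - 2 * k := by linarith
  unfold B2
  split_ifs <;> positivity

lemma psd_B2 {p : ℝ} (hp : 4 * k + 1 ≤ p) (m : Fin k) : Psd (B2 p m) := by
  have hk : (0 : ℝ) ≤ k := Nat.cast_nonneg k
  refine ⟨fun s t => ?_, fun c => ?_⟩
  · unfold B2
    by_cases h : s = t
    · rw [h]
    · rw [if_neg h, if_neg (Ne.symm h), mul_comm (chi p m s)]
  · have e : ∑ s, ∑ t, c s * c t * B2 p m s t = (1 - 1 / p ^ 2) * (∑ s, c s * chi p m s) ^ 2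
        + (p - 2 * k) / p ^ 2 * ∑ s, c s ^ 2 * eta m s := by
      rw [← quad_outer, ← quad_diag]
      simp only [Finset.mul_sum, ← sum_add_distrib, B2]
      exact sum_congr rfl fun s _ => sum_congr rfl fun t _ => by ring
    rw [e]
    have h1 := d0_nonneg (show 1 ≤ p by linarith)
    have h5 : 0 ≤ p - 2 * k := by linarith
    have h6 : 0 ≤ ∑ s, c s ^ 2 * eta m s :=
      sum_nonneg fun s _ => mul_nonneg (sq_nonneg _) (eta_nonneg m s)
    positivity

/-- the Gram matrix over the invertible residues -/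
noncomputable def A2 (p : ℝ) (m : Fin k) (s t : Option (Fin k)) : ℝ :=
  (chi p m s + (1 / p - 1 / (p - 1)) * eta m s) * (chi p m t + (1 / p - 1 / (p - 1)) * eta m t)
    + 1 / (p - 1) * (if s = t then eta m s else 0) - 1 / (p - 1) ^ 2 * (eta m s * eta m t)

lemma psd_A2 {p : ℝ} (hp : 4 * k + 1 ≤ p) (m : Fin k) :
    Psd (fun s t => A2 p m s t - B2 p m s t) := by
  have hk : (1 : ℝ) ≤ k := by exact_mod_cast m.pos
  refine ⟨fun s t => ?_, fun c => ?_⟩
  · beta_reduce
    unfold A2 B2
    by_cases h : s = t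
    · rw [h]
    · rw [if_neg h, if_neg (Ne.symm h)]; ring
  · set u := ∑ s, c s * chi p m s with hu
    set S := ∑ s, c s * eta m s with hS
    set V := ∑ s, c s ^ 2 * eta m s with hV
    have e : ∑ s, ∑ t, c s * c t * (A2 p m s t - B2 p m s t)
        = (u + (1 / p - 1 / (p - 1)) * S) ^ 2 + 1 / (p - 1) * V - 1 / (p - 1) ^ 2 * S ^ 2
          - ((1 - 1 / p ^ 2) * u ^ 2 + (p - 2 * k) / p ^ 2 * V) := by
      have e1 : u + (1 / p - 1 / (p - 1)) * S
          = ∑ s, c s * (chi p m s + (1 / p - 1 / (p - 1)) * eta m s) := by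
        simp only [hu, hS, Finset.mul_sum, ← sum_add_distrib]
        exact sum_congr rfl fun s _ => by ring
      rw [e1, hu, hS, hV, ← quad_outer, ← quad_outer, ← quad_outer, ← quad_diag]
      simp only [Finset.mul_sum, ← sum_add_distrib, ← sum_sub_distrib, A2, B2]
      exact sum_congr rfl fun s _ => sum_congr rfl fun t _ => by ring
    rw [e]
    have hV0 : 0 ≤ V := sum_nonneg fun s _ => mul_nonneg (sq_nonneg _) (eta_nonneg m s)
    have hCS : S ^ 2 ≤ k * V := by
      have h1 : S = ∑ i : Fin k, c (some i) * eta m (some i) := by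
        rw [hS, Fintype.sum_option]; simp [eta]
      have h2 : V = ∑ i : Fin k, (c (some i) * eta m (some i)) ^ 2 := by
        rw [hV, Fintype.sum_option]
        simp only [eta, Option.elim, mul_zero, zero_add]
        exact sum_congr rfl fun i _ => by split_ifs <;> simp
      rw [h1, h2]
      simpa using sq_sum_le_card_mul_sum_sq (s := (univ : Finset (Fin k)))
        (f := fun i => c (some i) * eta m (some i))
    have hp0 : 0 < p := by linarith
    have hp1 : 0 < p - 1 := by linarith
    have e2 : (u + (1 / p - 1 / (p - 1)) * S) ^ 2 + 1 / (p - 1) * V - 1 / (p - 1) ^ 2 * S ^ 2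
          - ((1 - 1 / p ^ 2) * u ^ 2 + (p - 2 * k) / p ^ 2 * V)
        = (u / p - S / (p - 1)) ^ 2 + (S / (p * (p - 1))) ^ 2 + 2 * (k * V - S ^ 2) / (p - 1) ^ 2
          + (p * (p - 1 - 4 * k) + 2 * k) / (p ^ 2 * (p - 1) ^ 2) * V := by
      field_simp
      ring
    rw [e2]
    have h3 : 0 ≤ k * V - S ^ 2 := by linarith
    have h4 : 0 ≤ p - 1 - 4 * k := by linarith
    positivity

variable {p : ℕ} [Fact p.Prime]

noncomputable def loc (r : Fin k → ZMod p) (s : Option (Fin k)) (x : ZMod p) : ℝ :=
  s.elim 1 (fun i => 1 / p - if x = r i then 1 else 0)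

lemma p_pos : (0 : ℝ) < p := by exact_mod_cast (Fact.out : p.Prime).pos

lemma p_two : (2 : ℝ) ≤ p := by exact_mod_cast (Fact.out : p.Prime).two_le

lemma sum_loc {r : Fin k → ZMod p} (hr : Function.Injective r) (s t : Option (Fin k)) :
    ∑ x, loc r s x * loc r t x
      = p * (B1 p s t - s.elim 0 (fun _ => 1 / (p : ℝ)) * t.elim 0 (fun _ => 1 / (p : ℝ))) := by
  have hp := p_pos (p := p)
  rcases s with _ | i <;> rcases t with _ | j
  · simp [loc, B1, ZMod.card]
  · simp [loc, B1, ZMod.card, hp.ne']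
  · simp [loc, B1, ZMod.card, hp.ne']
  · have e : ∀ x, loc r (some i) x * loc r (some j) x = 1 / (p : ℝ) ^ 2
        - (if x = r i then 1 / (p : ℝ) else 0) - (if x = r j then 1 / (p : ℝ) else 0)
        + (if x = r i then (if i = j then 1 else 0) else 0) := by
      intro x
      simp only [loc, Option.elim]
      by_cases h1 : x = r i
      · subst h1
        simp only [hr.eq_iff, if_true]
        split_ifs <;> ring
      · simp only [h1, if_false]
        split_ifs <;> ring
    simp only [e, sum_add_distrib, sum_sub_distrib, sum_ite_eq', mem_univ, if_true, sum_const,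
      card_univ, ZMod.card, nsmul_eq_mul, B1, Option.elim, Option.some.injEq]
    split_ifs <;> field_simp <;> ring

lemma psd_mean (r : Fin k → ZMod p) : Psd (fun s t => mean fun x => loc r s x * loc r t x) := by
  refine ⟨fun s t => by simp only [mul_comm], fun c => ?_⟩
  have e : ∑ s, ∑ t, c s * c t * (mean fun x => loc r s x * loc r t x)
      = (∑ x, (∑ s, c s * loc r s x) ^ 2) / p := by
    simp only [← quad_outer, mean, ← mul_div_assoc, ← sum_div, Finset.mul_sum]
    congr 1
    symm
    rw [sum_comm]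
    exact sum_congr rfl fun s _ => sum_comm
  rw [e]
  positivity

lemma psd_B1 {r : Fin k → ZMod p} (hr : Function.Injective r) :
    Psd (fun s t => B1 p s t - mean fun x => loc r s x * loc r t x) := by
  have hp := p_pos (p := p)
  have e : ∀ s t, (B1 p s t - mean fun x => loc r s x * loc r t x)
      = s.elim 0 (fun _ => 1 / (p : ℝ)) * t.elim 0 (fun _ => 1 / (p : ℝ)) := by
    intro s t
    rw [mean, sum_loc hr, mul_div_cancel_left₀ _ hp.ne']
    ring
  simp only [e]
  exact ⟨fun s t => mul_comm _ _, fun c => by rw [quad_outer]; positivity⟩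

lemma loc_dec (r : Fin k → ZMod p) {s t : Option (Fin k)} (h : ¬ (s = none ∧ t = none)) :
    ∃ α : ℝ, |α| ≤ 1 / p ∧ ∑ x, |loc r s x * loc r t x - α| ≤ 2 := by
  have hp := p_pos (p := p)
  have hp2 := p_two (p := p)
  have h1 : ∀ i, ∑ x, |loc r (some i) x - 1 / p| ≤ 2 := by
    intro i
    have : ∀ x, |loc r (some i) x - 1 / p| = if x = r i then 1 else 0 := by
      intro x
      simp only [loc, Option.elim]
      split_ifs <;> simp
    simp only [this]
    simp
  have hq : 1 / (p : ℝ) ≤ 1 / 2 := by gcongr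
  have hq0 : 0 < 1 / (p : ℝ) := by positivity
  rcases s with _ | i <;> rcases t with _ | j
  · simp at h
  · exact ⟨1 / p, (abs_of_pos hq0).le, by simpa [loc] using h1 j⟩
  · exact ⟨1 / p, (abs_of_pos hq0).le, by simpa [loc] using h1 i⟩
  · refine ⟨1 / p * (1 / p), by rw [abs_of_pos (by positivity)]; nlinarith, ?_⟩
    calc _ ≤ ∑ x, ((if x = r i then (1 : ℝ) else 0) + if x = r j then (1 : ℝ) else 0) := by
          refine sum_le_sum fun x _ => ?_
          simp only [loc, Option.elim]
          rw [abs_le]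
          split_ifs <;> constructor <;> nlinarith
      _ = 2 := by simp [sum_add_distrib]; norm_num

lemma nrm_loc (r : Fin k → ZMod p) (s t : Option (Fin k)) :
    Nrm (fun x => loc r s x * loc r t x) (s.elim 1 (fun _ => 3) * t.elim 1 (fun _ => 3)) := by
  by_cases h : s = none ∧ t = none
  · obtain ⟨rfl, rfl⟩ := h
    exact ⟨1, by simp [loc]⟩
  · obtain ⟨α, h1, h2⟩ := loc_dec r h
    have hq : 1 / (p : ℝ) ≤ 1 / 2 := by have := p_two (p := p); gcongr
    refine ⟨α, ?_⟩
    rcases s with _ | i <;> rcases t with _ | j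
    · simp at h
    all_goals simp only [Option.elim]; linarith

/-- average over the invertible residues -/
noncomputable def um (F : ZMod p → ℝ) : ℝ := (∑ x, F x - F 0) / (p - 1)

/-- the part with mean zero on the invertible residues -/
noncomputable def nw (F : ZMod p → ℝ) (x : ZMod p) : ℝ := if x = 0 then 0 else F x - um F

lemma nw_zero (F : ZMod p → ℝ) : nw F 0 = 0 := by simp [nw]

lemma sum_ite_ne (G : ZMod p → ℝ) : ∑ x, (if x = 0 then 0 else G x) = ∑ x, G x - G 0 := by
  have : ∀ x, (if x = 0 then 0 else G x) = G x - if x = 0 then G 0 else 0 := by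
    intro x; split_ifs with h <;> simp [h]
  simp [this]

lemma sum_nw (F : ZMod p → ℝ) : ∑ x, nw F x = 0 := by
  have := p_two (p := p)
  have h : (p : ℝ) - 1 ≠ 0 := by linarith
  unfold nw
  rw [sum_ite_ne (fun x => F x - um F)]
  simp only [sum_sub_distrib, sum_const, card_univ, ZMod.card, nsmul_eq_mul, um]
  field_simp
  ring

lemma um_nw_le (F : ZMod p → ℝ) (α g : ℝ) (h : ∑ x, |F x - α| ≤ g) :
    |um F - α| ≤ g / (p - 1) ∧ ∑ x, |nw F x| ≤ 2 * g := by
  have := p_two (p := p)
  have hp : (0 : ℝ) < p - 1 := by linarith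
  have h0 : ∑ x, (if x = 0 then 0 else |F x - α|) ≤ g :=
    le_trans (sum_le_sum fun x _ => by split_ifs; exacts [abs_nonneg _, le_rfl]) h
  have h1 : |um F - α| ≤ g / (p - 1) := by
    have e : um F - α = (∑ x, if x = 0 then 0 else (F x - α)) / (p - 1) := by
      rw [sum_ite_ne (fun x => F x - α)]
      simp only [sum_sub_distrib, sum_const, card_univ, ZMod.card, nsmul_eq_mul, um]
      field_simp
      ring
    rw [e, abs_div, abs_of_pos hp]
    gcongr
    refine (abs_sum_le_sum_abs _ _).trans (le_trans (sum_le_sum fun x _ => ?_) h0)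
    split_ifs <;> simp
  refine ⟨h1, ?_⟩
  calc _ ≤ ∑ x, ((if x = 0 then 0 else |F x - α|) + if x = 0 then 0 else g / (p - 1)) := by
        refine sum_le_sum fun x _ => ?_
        unfold nw
        split_ifs
        · simp
        · have := abs_sub (F x - α) (um F - α)
          rw [sub_sub_sub_cancel_right] at this
          linarith
    _ ≤ _ := by
        rw [sum_add_distrib, sum_ite_ne (fun _ => g / (p - 1))]
        simp only [sum_const, card_univ, ZMod.card, nsmul_eq_mul]
        have : (p : ℝ) * (g / (p - 1)) - g / (p - 1) = g := by field_simp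
        linarith

lemma abs_um_loc (r : Fin k → ZMod p) (s t : Option (Fin k)) :
    |um fun x => loc r s x * loc r t x| ≤ (if s = none ∧ t = none then 1 else 5 / (p : ℝ)) ∧
    ∑ x, |nw (fun x => loc r s x * loc r t x) x| ≤ (if s = none ∧ t = none then 0 else 5) := by
  split_ifs with h
  · obtain ⟨rfl, rfl⟩ := h
    obtain ⟨h1, h2⟩ := um_nw_le (fun x => loc r none x * loc r none x) 1 0 (by simp [loc])
    rw [zero_div, abs_nonpos_iff, sub_eq_zero] at h1
    exact ⟨by rw [h1, abs_one], by linarith⟩
  · obtain ⟨α, h1, h2⟩ := loc_dec r h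
    obtain ⟨h3, h4⟩ := um_nw_le _ α 2 h2
    refine ⟨?_, by linarith⟩
    have h5 := p_two (p := p)
    have h6 : 2 / ((p : ℝ) - 1) ≤ 4 / p := by
      rw [div_le_div_iff₀ (by linarith) (by linarith)]; linarith
    have h7 := abs_add_le ((um fun x => loc r s x * loc r t x) - α) α
    rw [sub_add_cancel] at h7
    have h8 : 5 / (p : ℝ) = 4 / p + 1 / p := by ring
    linarith

lemma um_loc {r : Fin k → ZMod p} (hr : Function.Injective r) {m : Fin k} (hm : r m = 0)
    (s t : Option (Fin k)) : (um fun x => loc r s x * loc r t x) = A2 p m s t := by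
  have hp := p_pos (p := p)
  have hp1 : (p : ℝ) - 1 ≠ 0 := by linarith [p_two (p := p)]
  have h0 : ∀ i, (0 = r i) ↔ i = m := fun i => by rw [← hm, hr.eq_iff, eq_comm]
  rw [um, sum_loc hr]
  rcases s with _ | i <;> rcases t with _ | j
  all_goals simp only [loc, B1, A2, chi, eta, Option.elim, h0, Option.some.injEq, reduceCtorEq,
    if_true, if_false]
  · field_simp; ring
  · split_ifs <;> field_simp <;> ring
  · split_ifs <;> field_simp <;> ring
  · by_cases h1 : i = m <;> by_cases h2 : j = m
    · subst h1; subst h2; simp only [if_true]; field_simp; ring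
    · subst h1; simp only [if_true, h2, Ne.symm h2, if_false]; field_simp; ring
    · subst h2; simp only [if_true, h1, if_false]; field_simp; ring
    · simp only [h1, h2, if_false]; split_ifs <;> field_simp <;> ring

end Pool.Agent.Lib.MP_28260b_nt
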