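import Pool.Agent.Lib.MP_28260b_nt.Loc
import Pool.Agent.Lib.MP_28260b_nt.Box

/-! Evaluation of the two diagonal quadratic forms by sums over boxes. -/

namespace Pool.Agent.Lib.MP_28260b_nt

open Finset Pool.Agent.Lib.MP_6a20cc_nt
open Fintype (piFinset mem_piFinset)

variable {ι : Type} [Fintype ι] [DecidableEq ι] {pr : ι → ℕ} [∀ p, Fact (pr p).Prime] {k : ℕ}

def tt (pr : ι → ℕ) (ω : ι → Option (Fin k)) (i : Fin k) : ℕ :=
  ∏ p ∈ univ.filter (fun p => ω p = some i), pr p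

noncomputable def cw (pr : ι → ℕ) (z : ℕ) (Fb : (Fin k → ℕ) → ℝ) (ω : ι → Option (Fin k)) : ℝ :=
  Fb (fun i => Nat.log z (tt pr ω i))

omit [DecidableEq ι] in
lemma tt_pos (ω : ι → Option (Fin k)) (i : Fin k) : 0 < tt pr ω i := prod_pr_pos _

omit [DecidableEq ι] in
lemma dvd_tt (hinj : Function.Injective pr) (ω : ι → Option (Fin k)) (i : Fin k) (p : ι) :
    pr p ∣ tt pr ω i ↔ ω p = some i := by
  constructor
  · intro h
    obtain ⟨r, hr, h2⟩ := (Prime.dvd_finsetProd_iff (Fact.out : (pr p).Prime).prime _).1 h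
    rw [hinj ((Nat.prime_dvd_prime_iff_eq Fact.out Fact.out).1 h2)]
    exact (mem_filter.1 hr).2
  · exact fun h => dvd_prod_of_mem pr (mem_filter.2 ⟨mem_univ _, h⟩)

omit [DecidableEq ι] in
lemma tt_inj (hinj : Function.Injective pr) : Function.Injective (tt (k := k) pr) := by
  intro ω ω' h
  funext p
  refine Option.ext fun i => ?_
  rw [← dvd_tt hinj, ← dvd_tt hinj, h]

omit [DecidableEq ι] [∀ p, Fact (pr p).Prime] in
lemma prod_fib {M : Type} [CommMonoid M] (g : ι → M) (ω : ι → Option (Fin k)) :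
    ∏ i, ∏ p ∈ univ.filter (fun p => ω p = some i), g p = ∏ p, (ω p).elim 1 (fun _ => g p) := by
  simp only [prod_filter]
  rw [prod_comm]
  refine prod_congr rfl fun p _ => ?_
  rcases ω p with _ | i <;> simp

omit [DecidableEq ι] [∀ p, Fact (pr p).Prime] in
lemma cw_supp {z Nb : ℕ} (hz : 2 ≤ z) {Fb : (Fin k → ℕ) → ℝ}
    (hs : ∀ j, Fb j ≠ 0 → ∑ i, (j i + 1) ≤ Nb) {ω : ι → Option (Fin k)} (h : cw pr z Fb ω ≠ 0) :
    ∏ p, (ω p).elim 1 (fun _ => pr p) ≤ z ^ Nb ∧ ∀ i, tt pr ω i < z ^ Nb := by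
  have h1 := hs _ h
  have h2 : ∀ i, tt pr ω i < z ^ (Nat.log z (tt pr ω i) + 1) :=
    fun i => Nat.lt_pow_succ_log_self (by omega) _
  constructor
  · rw [← prod_fib]
    calc _ ≤ ∏ i, z ^ (Nat.log z (tt pr ω i) + 1) := prod_le_prod' fun i _ => (h2 i).le
      _ ≤ _ := by rw [prod_pow_eq_pow_sum]; exact Nat.pow_le_pow_right (by omega) h1
  · intro i
    refine (h2 i).trans_le (Nat.pow_le_pow_right (by omega) (le_trans ?_ h1))
    exact single_le_sum (f := fun i => Nat.log z (tt pr ω i) + 1) (fun _ _ => Nat.zero_le _)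
      (mem_univ i)

theorem QF_upper (hinj : Function.Injective pr) {W z Nb : ℕ} (hz : 2 ≤ z)
    (hW : ∀ p, (pr p).Coprime W) {Fb : (Fin k → ℕ) → ℝ}
    (hs : ∀ j, Fb j ≠ 0 → ∑ i, (j i + 1) ≤ Nb) :
    QF (fun p => B1 (pr p)) (cw pr z Fb)
      ≤ ∑ j ∈ piFinset (fun _ : Fin k => range Nb), Fb j ^ 2 * ∏ i, HH W z (j i) := by
  rw [← box_sum hz Nb (fun j => Fb j ^ 2)]
  set g : (Fin k → ℕ) → ℝ := fun τ => Fb (fun i => Nat.log z (τ i)) ^ 2 * ∏ i, (1 : ℝ) / τ i
  have e1 : QF (fun p => B1 (pr p)) (cw pr z Fb) = ∑ ω, g (tt pr ω) := by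
    refine sum_congr rfl fun ω _ => ?_
    rw [sum_eq_single ω]
    · simp only [B1, if_true, g, tt, Nat.cast_prod, ← prod_fib, one_div, prod_inv_distrib]
      rw [sq]; rfl
    · intro ω' _ hne
      obtain ⟨p, hp⟩ := Function.ne_iff.1 hne
      rw [prod_eq_zero (mem_univ p) (if_neg (Ne.symm hp)), mul_zero]
    · simp
  rw [e1, ← sum_image (f := g) fun ω _ ω' _ h => tt_inj hinj h, ← sum_filter_ne_zero]
  refine sum_le_sum_of_subset_of_nonneg (fun τ hτ => ?_) fun τ _ _ => by positivity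
  obtain ⟨h1, h2⟩ := mem_filter.1 hτ
  obtain ⟨ω, _, rfl⟩ := mem_image.1 h1
  have h3 : cw pr z Fb ω ≠ 0 := fun h => h2 (by simp only [g]; rw [show Fb _ = 0 from h]; simp)
  exact mem_piFinset.2 fun i => mem_TT.2 ⟨tt_pos ω i, (cw_supp hz hs h3).2 i,
    Nat.Coprime.prod_left fun p _ => hW p⟩

open Classical in
noncomputable def om (pr : ι → ℕ) (t : Fin k → ℕ) (p : ι) : Option (Fin k) :=
  if h : ∃ i, pr p ∣ t i then some h.choose else none

omit [Fintype ι] [DecidableEq ι] [∀ p, Fact (pr p).Prime] in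
lemma om_iff {t : Fin k → ℕ} {p : ι} (hu : ∀ i j, pr p ∣ t i → pr p ∣ t j → i = j) (i : Fin k) :
    om pr t p = some i ↔ pr p ∣ t i := by
  unfold om
  split_ifs with h
  · rw [Option.some.injEq]
    exact ⟨fun e => e ▸ h.choose_spec, fun e => hu _ _ h.choose_spec e⟩
  · simp only [false_iff]
    exact fun e => h ⟨i, e⟩

omit [Fintype ι] [DecidableEq ι] [∀ p, Fact (pr p).Prime] in
lemma om_none {t : Fin k → ℕ} {p : ι} (h : ∀ i, ¬ pr p ∣ t i) : om pr t p = none :=
  dif_neg fun ⟨i, hi⟩ => h i hi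

omit [DecidableEq ι] in
lemma prod_filter_dvd (hinj : Function.Injective pr) {W z Nb t : ℕ}
    (hcov : ∀ q : ℕ, q.Prime → q < z ^ Nb → q.Coprime W → ∃ p, pr p = q) (ht : t ∈ TT W z Nb)
    (hsq : ∀ p, ¬ pr p * pr p ∣ t) : ∏ p ∈ univ.filter (fun p => pr p ∣ t), pr p = t := by
  classical
  obtain ⟨h1, h2, h3⟩ := mem_TT.1 ht
  have hc : ∀ q : ℕ, q.Prime → q ∣ t → ∃ p, pr p = q := fun q hq hd =>
    hcov q hq ((Nat.le_of_dvd h1 hd).trans_lt h2) (h3.coprime_dvd_left hd)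
  have h4 : Squarefree t := by
    rw [Nat.squarefree_iff_prime_squarefree]
    intro q hq hd
    obtain ⟨p, rfl⟩ := hc q hq (dvd_of_mul_left_dvd hd)
    exact hsq p hd
  conv_rhs => rw [← Nat.prod_primeFactors_of_squarefree h4]
  rw [← prod_image (f := fun q => q) fun p _ q _ h => hinj h]
  congr 1
  ext q
  simp only [mem_image, mem_filter, mem_univ, true_and, Nat.mem_primeFactors]
  constructor
  · rintro ⟨p, hp, rfl⟩; exact ⟨Fact.out, hp, by omega⟩
  · rintro ⟨hq, hd, _⟩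
    obtain ⟨p, rfl⟩ := hc q hq hd
    exact ⟨p, hd, rfl⟩

lemma one_sub_sum_le {α : Type} (S : Finset α) (a : α → ℝ) (h0 : ∀ p ∈ S, 0 ≤ a p)
    (h1 : ∀ p ∈ S, a p ≤ 1) : 1 - ∑ p ∈ S, a p ≤ ∏ p ∈ S, (1 - a p) := by
  classical
  induction S using Finset.induction_on with
  | empty => simp
  | insert p S hp ih =>
    rw [sum_insert hp, prod_insert hp]
    have h2 := ih (fun q hq => h0 q (mem_insert_of_mem hq)) fun q hq => h1 q (mem_insert_of_mem hq)
    have h3 := h0 p (mem_insert_self _ _)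
    have h4 := h1 p (mem_insert_self _ _)
    have h5 : 0 ≤ ∑ p ∈ S, a p := sum_nonneg fun q hq => h0 q (mem_insert_of_mem hq)
    nlinarith

def D2 {κ : Type} [DecidableEq κ] (q : ℕ) (j j' l : κ) : ℕ :=
  (if l = j then q else 1) * (if l = j' then q else 1)

def Good (pr : ι → ℕ) (τ : Option (Fin k) → ℕ) : Prop :=
  ∀ p j j', ¬ ∀ l, D2 (pr p) j j' l ∣ τ l

omit [Fintype ι] [DecidableEq ι] [∀ p, Fact (pr p).Prime] in
lemma Good.uniq {τ : Option (Fin k) → ℕ} (h : Good pr τ) (p : ι) (j j' : Option (Fin k))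
    (h1 : pr p ∣ τ j) (h2 : pr p ∣ τ j') : j = j' := by
  by_contra hne
  refine h p j j' fun l => ?_
  unfold D2
  by_cases e : l = j
  · subst e; simpa [hne] using h1
  · by_cases e' : l = j'
    · subst e'; simpa [e] using h2
    · simp [e, e']

omit [Fintype ι] [DecidableEq ι] [∀ p, Fact (pr p).Prime] in
lemma Good.sq {τ : Option (Fin k) → ℕ} (h : Good pr τ) (j : Option (Fin k)) (p : ι) :
    ¬ pr p * pr p ∣ τ j := by
  intro hd
  refine h p j j fun l => ?_
  unfold D2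
  by_cases e : l = j
  · subst e; simpa using hd
  · simp [e]

/-- the second tuple: coordinate `m` is replaced by the extra coordinate -/
def sw (m : Fin k) (τ : Option (Fin k) → ℕ) (i : Fin k) : ℕ := τ (if i = m then none else some i)

omit [Fintype ι] [DecidableEq ι] [∀ p, Fact (pr p).Prime] in
lemma Good.uniq1 {τ : Option (Fin k) → ℕ} (h : Good pr τ) (p : ι) (i j : Fin k)
    (h1 : pr p ∣ τ (some i)) (h2 : pr p ∣ τ (some j)) : i = j :=
  Option.some.inj (h.uniq p _ _ h1 h2)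

omit [Fintype ι] [DecidableEq ι] [∀ p, Fact (pr p).Prime] in
lemma Good.uniq2 {τ : Option (Fin k) → ℕ} (h : Good pr τ) (m : Fin k) (p : ι) (i j : Fin k)
    (h1 : pr p ∣ sw m τ i) (h2 : pr p ∣ sw m τ j) : i = j := by
  have := h.uniq p _ _ h1 h2
  split_ifs at this with a b
  · rw [a, b]
  · exact Option.some.inj this

omit [Fintype ι] [DecidableEq ι] in
lemma Good.local {τ : Option (Fin k) → ℕ} (h : Good pr τ) (m : Fin k) (p : ι) :
    (∏ j, if pr p ∣ τ j then (1 : ℝ) / pr p else 1) *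
      (1 - (1 / (pr p : ℝ) ^ 2 + ∑ j, if pr p ∣ τ j then 2 * (k : ℝ) / pr p else 0))
      ≤ B2 (pr p) m (om pr (fun i => τ (some i)) p) (om pr (sw m τ) p) := by
  have hp0 : (0 : ℝ) < pr p := p_pos
  have hk : (0 : ℝ) ≤ k := Nat.cast_nonneg k
  by_cases hex : ∃ j, pr p ∣ τ j
  · obtain ⟨j, hj⟩ := hex
    have hiff : ∀ l, pr p ∣ τ l ↔ l = j := fun l => ⟨fun e => h.uniq p _ _ e hj, fun e => e ▸ hj⟩
    simp only [hiff, prod_ite_eq', sum_ite_eq', mem_univ, if_true]
    have e1 : 0 ≤ 1 / (pr p : ℝ) * (2 * k / pr p) := by positivity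
    have e2 : 0 ≤ 1 / (pr p : ℝ) * (1 / (pr p : ℝ) ^ 2) := by positivity
    rcases j with _ | i
    · rw [om_none (t := fun i => τ (some i)) fun i => by simp [hiff],
        (om_iff (h.uniq2 m p) m).2 (by simp [sw, hiff])]
      simp only [B2, chi, Option.elim, reduceCtorEq, if_false, if_true]
      linarith
    · rw [(om_iff (t := fun i => τ (some i)) (h.uniq1 p) i).2 hj]
      by_cases him : i = m
      · subst him
        rw [om_none (t := sw i τ) fun l => by
          simp only [sw, hiff]; split_ifs with e <;> simp [e]]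
        simp only [B2, chi, Option.elim, reduceCtorEq, if_false, if_true]
        linarith
      · rw [(om_iff (h.uniq2 m p) i).2 (by simp [sw, hiff, him])]
        simp only [B2, chi, eta, Option.elim, him, if_false, if_true]
        have : ((pr p : ℝ) - 2 * k) / (pr p : ℝ) ^ 2 = 1 / pr p - 1 / pr p * (2 * k / pr p) := by
          field_simp
        rw [this]
        linarith
  · push Not at hex
    rw [om_none (t := fun i => τ (some i)) fun i => hex _, om_none (t := sw m τ) fun i => hex _]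
    simp [hex, B2, chi, eta]

theorem QF_lower (hinj : Function.Injective pr) {W z Nb : ℕ} (hz : 2 ≤ z)
    (hcov : ∀ q : ℕ, q.Prime → q < z ^ Nb → q.Coprime W → ∃ p, pr p = q)
    (hp : ∀ p, 4 * (k : ℝ) + 1 ≤ pr p) {Fb : (Fin k → ℕ) → ℝ} {Fm : ℝ} (h0 : ∀ j, 0 ≤ Fb j)
    (hm : ∀ j, Fb j ≤ Fm) (m : Fin k) :
    ∑ j ∈ piFinset (fun _ : Option (Fin k) => range Nb),
        Fb (fun i => j (some i)) * Fb (sw m j) * ∏ i, HH W z (j i)
      - Fm ^ 2 * (∑ j ∈ range Nb, HH W z j) ^ (k + 1) * (4 * (k + 1) ^ 2) * ∑ p, 1 / (pr p : ℝ) ^ 2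
      ≤ QF (fun p => B2 (pr p) m) (cw pr z Fb) := by
  classical
  rw [← box_sum hz Nb (fun j => Fb (fun i => j (some i)) * Fb (sw m j)), ← sum_TT hz]
  set H := ∑ t ∈ TT W z Nb, (1 : ℝ) / t with hH
  set P := piFinset (fun _ : Option (Fin k) => TT W z Nb) with hP
  set G : (Option (Fin k) → ℕ) → ℝ := fun τ =>
    Fb (fun i => Nat.log z (τ (some i))) * Fb (sw m fun i => Nat.log z (τ i)) with hG
  set v : (Option (Fin k) → ℕ) → ℝ := fun τ => ∏ i, (1 : ℝ) / τ i with hv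
  set y : (Option (Fin k) → ℕ) → ι → ℝ := fun τ p =>
    1 / (pr p : ℝ) ^ 2 + ∑ j, if pr p ∣ τ j then 2 * (k : ℝ) / pr p else 0 with hy
  have hk : (0 : ℝ) ≤ k := Nat.cast_nonneg k
  have hp0 : ∀ p, (0 : ℝ) < pr p := fun p => p_pos
  have hG0 : ∀ τ, 0 ≤ G τ := fun τ => mul_nonneg (h0 _) (h0 _)
  have hGm : ∀ τ, G τ ≤ Fm ^ 2 := fun τ => by
    rw [sq]; exact mul_le_mul (hm _) (hm _) (h0 _) ((h0 0).trans (hm 0))
  have hv0 : ∀ τ, 0 ≤ v τ := fun τ => by positivity
  have hy0 : ∀ τ p, 0 ≤ y τ p := fun τ p => by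
    have := hp0 p
    exact add_nonneg (by positivity) (sum_nonneg fun j _ => by split_ifs <;> positivity)
  have hH0 : 0 ≤ H := by positivity
  -- the good tuples
  set φ : (Option (Fin k) → ℕ) → (ι → Option (Fin k)) × (ι → Option (Fin k)) :=
    fun τ => (om pr (fun i => τ (some i)), om pr (sw m τ)) with hφ
  set Φ : (ι → Option (Fin k)) × (ι → Option (Fin k)) → ℝ :=
    fun x => cw pr z Fb x.1 * cw pr z Fb x.2 * ∏ p, B2 (pr p) m (x.1 p) (x.2 p) with hΦ
  have ht1 : ∀ τ ∈ P.filter (Good pr), ∀ i, tt pr (φ τ).1 i = τ (some i) := by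
    intro τ hτ i
    obtain ⟨h1, h2⟩ := mem_filter.1 hτ
    rw [← prod_filter_dvd hinj hcov (mem_piFinset.1 h1 (some i)) (h2.sq _)]
    exact prod_congr (filter_congr fun p _ => om_iff (h2.uniq1 p) i) fun _ _ => rfl
  have ht2 : ∀ τ ∈ P.filter (Good pr), ∀ i, tt pr (φ τ).2 i = sw m τ i := by
    intro τ hτ i
    obtain ⟨h1, h2⟩ := mem_filter.1 hτ
    rw [sw, ← prod_filter_dvd hinj hcov (mem_piFinset.1 h1 _) (h2.sq _)]
    exact prod_congr (filter_congr fun p _ => om_iff (h2.uniq2 m p) i) fun _ _ => rfl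
  have s1 : ∑ τ ∈ P.filter (Good pr), Φ (φ τ) ≤ QF (fun p => B2 (pr p) m) (cw pr z Fb) := by
    rw [← sum_image (f := Φ), QF, ← Fintype.sum_prod_type']
    · exact sum_le_sum_of_subset_of_nonneg (subset_univ _) fun x _ _ =>
        mul_nonneg (mul_nonneg (h0 _) (h0 _)) (prod_nonneg fun p _ => B2_nonneg (hp p) m _ _)
    · intro τ hτ τ' hτ' h
      funext j
      rcases j with _ | i
      · have := (ht2 τ hτ m).symm.trans (h ▸ ht2 τ' hτ' m)
        simpa [sw] using this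
      · exact (ht1 τ hτ i).symm.trans (h ▸ ht1 τ' hτ' i)
  have s2 : ∀ τ ∈ P.filter (Good pr), G τ * v τ * (1 - ∑ p, y τ p) ≤ Φ (φ τ) := by
    intro τ hτ
    obtain ⟨h1, h2⟩ := mem_filter.1 hτ
    have e1 : cw pr z Fb (φ τ).1 * cw pr z Fb (φ τ).2 = G τ := by
      simp only [cw, ht1 τ hτ, ht2 τ hτ, hG]; rfl
    have e2 : v τ = ∏ p, ∏ j, if pr p ∣ τ j then (1 : ℝ) / pr p else 1 := by
      rw [prod_comm]
      refine prod_congr rfl fun j _ => ?_
      rw [← prod_filter]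
      conv_lhs => rw [← prod_filter_dvd hinj hcov (mem_piFinset.1 h1 j) (h2.sq _)]
      simp
    have e3 : ∀ p, y τ p ≤ 1 := by
      intro p
      have e4 : ∑ j, (if pr p ∣ τ j then 2 * (k : ℝ) / pr p else 0) ≤ 2 * k / pr p := by
        have := hp0 p
        rw [← sum_filter, sum_const, nsmul_eq_mul]
        refine mul_le_of_le_one_left (by positivity) ?_
        exact_mod_cast card_le_one.2 fun a ha b hb =>
          h2.uniq p a b (mem_filter.1 ha).2 (mem_filter.1 hb).2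
      have e5 : 2 * (k : ℝ) / pr p ≤ 1 / 2 := by
        rw [div_le_div_iff₀ (hp0 p) two_pos]; linarith [hp p]
      have e6 : 1 / (pr p : ℝ) ^ 2 ≤ 1 / 2 := by
        have := p_two (p := pr p)
        gcongr; nlinarith
      simp only [hy]; linarith
    simp only [hΦ]
    rw [e1, mul_assoc]
    refine mul_le_mul_of_nonneg_left ?_ (hG0 τ)
    refine (mul_le_mul_of_nonneg_left (one_sub_sum_le univ (y τ) (fun p _ => hy0 τ p)
      fun p _ => e3 p) (hv0 τ)).trans ?_
    rw [e2, ← prod_mul_distrib]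
    refine prod_le_prod (fun p _ => mul_nonneg (prod_nonneg fun j _ => ?_) (sub_nonneg.2 (e3 p)))
      fun p _ => h2.local m p
    split_ifs <;> positivity
  -- the union bound
  set bad : (Option (Fin k) → ℕ) → ℝ := fun τ =>
    ∑ p, ∑ j, ∑ j', if ∀ l, D2 (pr p) j j' l ∣ τ l then v τ else 0 with hbad
  have hb0 : ∀ τ p j j', 0 ≤ if ∀ l, D2 (pr p) j j' l ∣ τ l then v τ else 0 :=
    fun τ p j j' => by split_ifs; exacts [hv0 τ, le_rfl]
  have s3 : ∑ τ ∈ P, (G τ * v τ - Fm ^ 2 * (bad τ + v τ * ∑ p, y τ p))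
      ≤ ∑ τ ∈ P.filter (Good pr), G τ * v τ * (1 - ∑ p, y τ p) := by
    rw [sum_filter]
    refine sum_le_sum fun τ _ => ?_
    have e1 : 0 ≤ ∑ p, y τ p := sum_nonneg fun p _ => hy0 τ p
    have e2 : 0 ≤ bad τ :=
      sum_nonneg fun p _ => sum_nonneg fun j _ => sum_nonneg fun j' _ => hb0 τ p j j'
    have e3 := mul_nonneg (hv0 τ) e1
    split_ifs with hg
    · have := mul_le_mul_of_nonneg_right (hGm τ) e3
      have := mul_nonneg (sq_nonneg Fm) e2
      linarith
    · have e4 : v τ ≤ bad τ := by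
        unfold Good at hg
        push Not at hg
        obtain ⟨p, j, j', hg⟩ := hg
        refine le_trans ?_ (single_le_sum (f := fun p => ∑ j, ∑ j',
          if ∀ l, D2 (pr p) j j' l ∣ τ l then v τ else 0)
          (fun p _ => sum_nonneg fun j _ => sum_nonneg fun j' _ => hb0 τ p j j') (mem_univ p))
        refine le_trans ?_ (single_le_sum (f := fun j => ∑ j',
          if ∀ l, D2 (pr p) j j' l ∣ τ l then v τ else 0)
          (fun j _ => sum_nonneg fun j' _ => hb0 τ p j j') (mem_univ j))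
        refine le_trans ?_ (single_le_sum (f := fun j' =>
          if ∀ l, D2 (pr p) j j' l ∣ τ l then v τ else 0) (fun j' _ => hb0 τ p j j') (mem_univ j'))
        rw [if_pos hg]
      have := mul_le_mul (hGm τ) e4 (hv0 τ) (sq_nonneg Fm)
      have := mul_nonneg (sq_nonneg Fm) e3
      linarith
  have hds := fun d hd => dvd_sum (κ := Option (Fin k)) W z Nb d hd
  simp only [Fintype.card_option, Fintype.card_fin] at hds
  have s4 : ∑ τ ∈ P, bad τ ≤ ∑ p, (k + 1) ^ 2 * (H ^ (k + 1) * (1 / (pr p : ℝ) ^ 2)) := by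
    rw [sum_comm]
    refine sum_le_sum fun p _ => ?_
    rw [sum_comm]
    calc _ ≤ ∑ j : Option (Fin k), ∑ j' : Option (Fin k), H ^ (k + 1) * (1 / (pr p : ℝ) ^ 2) := by
          refine sum_le_sum fun j _ => ?_
          rw [sum_comm]
          refine sum_le_sum fun j' _ => (hds (D2 (pr p) j j') fun l => ?_).trans (le_of_eq ?_)
          · have := (Fact.out : (pr p).Prime).pos
            unfold D2; split_ifs <;> positivity
          · simp only [D2, Nat.cast_mul, prod_mul_distrib, Nat.cast_ite, Nat.cast_one, prod_ite_eq',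
              mem_univ, if_true, hH]
            ring
      _ = _ := by simp; ring
  have s5 : ∑ τ ∈ P, v τ * ∑ p, y τ p
      ≤ ∑ p, (1 + 2 * k * (k + 1)) * (H ^ (k + 1) * (1 / (pr p : ℝ) ^ 2)) := by
    simp only [Finset.mul_sum]
    rw [sum_comm]
    refine sum_le_sum fun p _ => ?_
    have hpp := hp0 p
    simp only [hy, mul_add, sum_add_distrib, Finset.mul_sum, ← Finset.sum_mul]
    have e1 : ∑ τ ∈ P, v τ ≤ H ^ (k + 1) := by simpa [hv, hH] using hds (fun _ => 1) fun _ => one_pos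
    have e2 : ∑ τ ∈ P, ∑ j, v τ * (if pr p ∣ τ j then 2 * (k : ℝ) / pr p else 0)
        ≤ ∑ j : Option (Fin k), 2 * k / pr p * (H ^ (k + 1) / pr p) := by
      rw [sum_comm]
      refine sum_le_sum fun j _ => ?_
      have e3 := hds (fun l => if l = j then pr p else 1) fun l => by
        split_ifs; exacts [(Fact.out : (pr p).Prime).pos, one_pos]
      simp only [Nat.cast_ite, Nat.cast_one, prod_ite_eq', mem_univ, if_true] at e3
      refine le_trans (le_of_eq ?_) (mul_le_mul_of_nonneg_left e3 (by positivity))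
      rw [Finset.mul_sum]
      refine sum_congr rfl fun τ _ => ?_
      have e4 : (∀ l, (if l = j then pr p else 1) ∣ τ l) ↔ pr p ∣ τ j :=
        ⟨fun h => by simpa using h j, fun h l => by split_ifs with e; exacts [e ▸ h, one_dvd _]⟩
      simp only [e4]
      split_ifs
      · exact mul_comm _ _
      · simp
    simp only [sum_const, card_univ, Fintype.card_option, Fintype.card_fin, nsmul_eq_mul] at e2
    have e5 : ((k + 1 : ℕ) : ℝ) * (2 * k / pr p * (H ^ (k + 1) / pr p))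
        = (2 * k * k + 2 * k * 1) * (H ^ (k + 1) * (1 / (pr p : ℝ) ^ 2)) := by
      push_cast; field_simp
    have e6 := mul_le_mul_of_nonneg_right e1 (show 0 ≤ 1 / (pr p : ℝ) ^ 2 by positivity)
    linarith
  refine le_trans ?_ (s3.trans ((sum_le_sum s2).trans s1))
  rw [sum_sub_distrib, ← Finset.mul_sum, sum_add_distrib]
  simp only [← Finset.mul_sum] at s4 s5
  have e7 : 0 ≤ H ^ (k + 1) * ∑ p, 1 / (pr p : ℝ) ^ 2 := by positivity
  have e8 : ((k : ℝ) + 1) ^ 2 + (1 + 2 * k * (k + 1)) ≤ 4 * (k + 1) ^ 2 := by nlinarith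
  have e9 := mul_le_mul_of_nonneg_right e8 e7
  have e10 := mul_le_mul_of_nonneg_left (show ∑ τ ∈ P, bad τ + ∑ τ ∈ P, v τ * ∑ p, y τ p
    ≤ 4 * (k + 1) ^ 2 * (H ^ (k + 1) * ∑ p, 1 / (pr p : ℝ) ^ 2) by linarith) (sq_nonneg Fm)
  linarith

end Pool.Agent.Lib.MP_28260b_nt
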