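import Pool.Agent.Lib.MP_28260b_nt.Low
import Pool.Agent.Lib.MP_28260b_nt.BV4

/-! The two arithmetic sums of the Maynard sieve. -/

namespace Pool.Agent.Lib.MP_28260b_nt

open Finset Pool.Agent.Lib.MP_6a20cc_nt Pool.Agent.Lib.SW

variable {ι : Type} [Fintype ι] [DecidableEq ι] {pr : ι → ℕ} [∀ p, Fact (pr p).Prime] {k : ℕ}

noncomputable def ff (r : (p : ι) → Fin k → ZMod (pr p)) (c : (ι → Option (Fin k)) → ℝ)
    (n : ℕ) : ℝ := ∑ ω, c ω * ∏ p, loc (r p) (ω p) (n : ZMod (pr p))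

lemma ff_sq (r : (p : ι) → Fin k → ZMod (pr p)) (c : (ι → Option (Fin k)) → ℝ) (n : ℕ) :
    ff r c n ^ 2 = ∑ ω, ∑ ω', c ω * c ω' *
      ∏ p, (loc (r p) (ω p) (n : ZMod (pr p)) * loc (r p) (ω' p) (n : ZMod (pr p))) := by
  rw [ff, sq, sum_mul_sum]
  refine sum_congr rfl fun ω _ => sum_congr rfl fun ω' _ => ?_
  rw [prod_mul_distrib]; ring

theorem S1_le (hinj : Function.Injective pr) (r : (p : ι) → Fin k → ZMod (pr p))
    (hr : ∀ p, Function.Injective (r p)) (c : (ι → Option (Fin k)) → ℝ) {Fm : ℝ} {R : ℕ}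
    (hc : ∀ ω, |c ω| ≤ Fm) (hs : ∀ ω, c ω ≠ 0 → ∏ p, (ω p).elim 1 (fun _ => pr p) ≤ R) (N : ℕ) :
    ∑ n ∈ range N, ff r c n ^ 2
      ≤ N * QF (fun p => B1 (pr p)) c + (Fm * R * ∏ p, (1 + 3 * (k : ℝ) / pr p)) ^ 2 := by
  set κ : (ι → Option (Fin k)) → ℝ := fun ω => ∏ p, (ω p).elim 1 (fun _ => (3 : ℝ)) with hκ
  have hκ0 : ∀ ω, 0 ≤ κ ω := fun ω => prod_nonneg fun p _ => by rcases ω p with _ | _ <;> simp
  have hFm : 0 ≤ Fm := (abs_nonneg _).trans (hc fun _ => none)
  have h1 : ∑ n ∈ range N, ff r c n ^ 2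
      ≤ N * QF (fun p s t => mean fun x => loc (r p) s x * loc (r p) t x) c
        + (∑ ω, |c ω| * κ ω) ^ 2 := by
    simp only [ff_sq]
    rw [QF, sq, sum_mul_sum, Finset.mul_sum, ← sum_add_distrib, sum_comm]
    refine sum_le_sum fun ω _ => ?_
    rw [Finset.mul_sum, ← sum_add_distrib, sum_comm]
    refine sum_le_sum fun ω' _ => ?_
    have h2 := count_prod (coprime_of_inj hinj) N
      (fun p x => loc (r p) (ω p) x * loc (r p) (ω' p) x) _ univ
      (fun p _ => nrm_loc (r p) (ω p) (ω' p)) 1 0 one_pos (by simp)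
    rw [Finset.filter_true_of_mem (fun x _ => Nat.modEq_one), Nat.cast_one, div_one,
      prod_mul_distrib (f := fun p => (ω p).elim 1 (fun _ => (3 : ℝ)))] at h2
    have h3 := (le_abs_self _).trans ((abs_mul (c ω * c ω') _).le.trans
      (mul_le_mul_of_nonneg_left h2 (abs_nonneg _)))
    rw [abs_mul] at h3
    rw [← Finset.mul_sum]
    simp only [hκ]
    linarith
  have h2 := QF_mono _ _ (fun p => psd_mean (r p)) (fun p => psd_B1 (hr p)) c
  have h3 : ∑ ω, |c ω| * κ ω ≤ Fm * R * ∏ p, (1 + 3 * (k : ℝ) / pr p) := by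
    have e : ∏ p, (1 + 3 * (k : ℝ) / pr p)
        = ∑ ω : ι → Option (Fin k), ∏ p, (ω p).elim 1 (fun _ => (3 : ℝ) / pr p) := by
      rw [← Fintype.piFinset_univ,
        ← prod_univ_sum (f := fun p (s : Option (Fin k)) => s.elim 1 (fun _ => (3 : ℝ) / pr p))]
      exact prod_congr rfl fun p _ => by simp [Fintype.sum_option]; ring
    rw [e, Finset.mul_sum]
    refine sum_le_sum fun ω _ => ?_
    have e0 : 0 ≤ ∏ p, (ω p).elim 1 (fun _ => (3 : ℝ) / pr p) :=
      prod_nonneg fun p _ => by rcases ω p with _ | _ <;> simp only [Option.elim] <;> positivity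
    by_cases h : c ω = 0
    · rw [h, abs_zero, zero_mul]; positivity
    · have e1 : κ ω = ((∏ p, (ω p).elim 1 (fun _ => pr p) : ℕ) : ℝ)
          * ∏ p, (ω p).elim 1 (fun _ => (3 : ℝ) / pr p) := by
        rw [Nat.cast_prod, ← prod_mul_distrib]
        refine prod_congr rfl fun p _ => ?_
        have := p_pos (p := pr p)
        rcases ω p with _ | _ <;> simp only [Option.elim]
        · simp
        · field_simp
      have e2 : ((∏ p, (ω p).elim 1 (fun _ => pr p) : ℕ) : ℝ) ≤ R := by exact_mod_cast hs ω h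
      rw [e1, mul_assoc]
      gcongr
      exact hc ω
  have h4 : 0 ≤ ∑ ω, |c ω| * κ ω := sum_nonneg fun ω _ => mul_nonneg (abs_nonneg _) (hκ0 ω)
  refine h1.trans (add_le_add ?_ ?_) <;> gcongr

theorem S2_ge (r : (p : ι) → Fin k → ZMod (pr p))
    (hr : ∀ p, Function.Injective (r p)) {m : Fin k} (hm : ∀ p, r p m = 0)
    (hp : ∀ p, 4 * (k : ℝ) + 1 ≤ pr p) (c : (ι → Option (Fin k)) → ℝ) {Fm : ℝ} {R : ℕ}
    (hc : ∀ ω, |c ω| ≤ Fm) (hs : ∀ ω, c ω ≠ 0 → ∏ p, (ω p).elim 1 (fun _ => pr p) ≤ R)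
    (hpR : ∀ p, pr p ≤ R) {D c₀ X : ℕ} (hRX : R ≤ X) (hX : 0 < X) (E : Finset ι → ℝ)
    (hE0 : ∀ f, 0 ≤ E f)
    (hE : ∀ (f : Finset ι) (ψ : (p : ι) → ZMod (pr p) → ℝ), f.Nonempty → ∏ p ∈ f, pr p ≤ R ^ 2 →
      (∀ p ∈ f, ψ p 0 = 0) → (∀ p ∈ f, ∑ t, ψ p t = 0) →
      |∑ n ∈ Ioc 0 X, lam n * PS D c₀ f ψ n| ≤ kap f ψ * E f) :
    (∑ x ∈ Ioc R X with x ≡ c₀ [MOD D], lam x) * QF (fun p => B2 (pr p) m) c
      - Fm ^ 2 * (∏ p, (1 + ((5 * (k + 1) ^ 2 : ℕ) : ℝ) / pr p)) *
        (∑ f, ((5 * (k + 1) ^ 2 : ℕ) : ℝ) ^ #f * E f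
          + R * Real.log X * (R ^ 2 * ∏ p, (1 + ((5 * (k + 1) ^ 2 : ℕ) : ℝ) / pr p)))
      ≤ ∑ x ∈ Ioc R X with x ≡ c₀ [MOD D], lam x * ff r c x ^ 2 := by
  set K : ℝ := ((5 * (k + 1) ^ 2 : ℕ) : ℝ) with hK
  have hK0 : 0 ≤ K := Nat.cast_nonneg _
  set Pe := ∏ p, (1 + K / pr p) with hPe
  set L := Real.log X with hL
  have hL0 : 0 ≤ L := Real.log_natCast_nonneg X
  have hFm : 0 ≤ Fm := (abs_nonneg _).trans (hc fun _ => none)
  set G : (ι → Option (Fin k)) → (ι → Option (Fin k)) → (p : ι) → ZMod (pr p) → ℝ :=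
    fun ω ω' p x => loc (r p) (ω p) x * loc (r p) (ω' p) x with hG
  set T : Finset ι → ((p : ι) → ZMod (pr p) → ℝ) → ℝ :=
    fun f ψ => ∑ x ∈ Ioc R X, lam x * PS D c₀ f ψ x with hT
  set trm : Finset ι → (ι → Option (Fin k)) → (ι → Option (Fin k)) → ℝ := fun f ω ω' =>
    c ω * c ω' * ((∏ p ∈ univ \ f, um (G ω ω' p)) * T f fun p => nw (G ω ω' p)) with htrm
  have e1 : ∑ x ∈ Ioc R X with x ≡ c₀ [MOD D], lam x * ff r c x ^ 2
      = ∑ f, ∑ ω, ∑ ω', trm f ω ω' := by
    symm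
    rw [sum_comm]
    simp only [ff_sq, Finset.mul_sum]
    rw [sum_comm (s := (Ioc R X).filter _)]
    refine sum_congr rfl fun ω _ => ?_
    rw [sum_comm, sum_comm (s := (Ioc R X).filter _)]
    refine sum_congr rfl fun ω' _ => ?_
    simp only [htrm, hT, Finset.mul_sum]
    rw [sum_comm, sum_filter]
    refine sum_congr rfl fun x hx => ?_
    by_cases hx2 : x.Prime
    · unfold PS
      split_ifs
      · have e2 : ∏ p, G ω ω' p x = ∏ p, (nw (G ω ω' p) x + um (G ω ω' p)) := by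
          refine prod_congr rfl fun p _ => ?_
          have : (x : ZMod (pr p)) ≠ 0 := by
            rw [Ne, ZMod.natCast_eq_zero_iff, Nat.prime_dvd_prime_iff_eq Fact.out hx2]
            have := (mem_Ioc.1 hx).1
            have := hpR p
            omega
          simp [nw, this]
        change _ = lam x * (c ω * c ω' * ∏ p, G ω ω' p x)
        rw [e2, prod_add, powerset_univ, Finset.mul_sum, Finset.mul_sum]
        exact sum_congr rfl fun f _ => by ring
      · simp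
    · simp [lam, hx2]
  have e2 : ∑ ω, ∑ ω', trm ∅ ω ω'
      = (∑ x ∈ Ioc R X with x ≡ c₀ [MOD D], lam x) * QF (fun p => A2 (pr p) m) c := by
    rw [QF, Finset.mul_sum]
    refine sum_congr rfl fun ω _ => ?_
    rw [Finset.mul_sum]
    refine sum_congr rfl fun ω' _ => ?_
    simp only [htrm, hT, hG, sdiff_empty, um_loc (hr _) (hm _), PS, prod_empty, sum_filter, mul_ite,
      mul_one, mul_zero]
    ring
  have e3 : QF (fun p => B2 (pr p) m) c ≤ QF (fun p => A2 (pr p) m) c :=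
    QF_mono _ _ (fun p => psd_B2 (hp p) m) (fun p => psd_A2 (hp p) m) c
  set E' : Finset ι → ℝ := fun f => E f + if ∏ p ∈ f, pr p ≤ R ^ 2 then R * L else 0 with hE'
  have hE'0 : ∀ f, 0 ≤ E' f := fun f => add_nonneg (hE0 f) (by split_ifs <;> positivity)
  set mm : Finset ι → ι → Option (Fin k) → Option (Fin k) → ℝ := fun f p s t =>
    if p ∈ f then (if s = none ∧ t = none then 0 else 5)
      else (if s = none ∧ t = none then 1 else 5 / (pr p : ℝ)) with hmm
  have hmm0 : ∀ f p s t, 0 ≤ mm f p s t := fun f p s t => by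
    simp only [hmm]; split_ifs <;> positivity
  have e4 : ∀ f : Finset ι, f.Nonempty → ∀ ω ω',
      |trm f ω ω'| ≤ Fm ^ 2 * E' f * ∏ p, mm f p (ω p) (ω' p) := by
    intro f hf ω ω'
    have h0 : 0 ≤ Fm ^ 2 * E' f * ∏ p, mm f p (ω p) (ω' p) :=
      mul_nonneg (mul_nonneg (sq_nonneg _) (hE'0 f)) (prod_nonneg fun p _ => hmm0 ..)
    have hk := kap_nonneg f fun p => nw (G ω ω' p)
    have hsm : ∀ s : Finset ℕ, (∀ x ∈ s, x ≤ X) →
        |∑ x ∈ s, lam x * PS D c₀ f (fun p => nw (G ω ω' p)) x|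
          ≤ #s * L * kap f fun p => nw (G ω ω' p) := by
      intro s hsX
      refine (abs_sum_mul_le _ _ _ _ fun n _ => abs_PS_le D c₀ f _ n).trans ?_
      gcongr
      rw [← nsmul_eq_mul]
      refine sum_le_card_nsmul _ _ _ fun n hn => ?_
      rw [abs_of_nonneg (lam_nonneg n)]
      exact lam_le (by exact_mod_cast hsX n hn) (by exact_mod_cast hX)
    have k1 : kap f (fun p => nw (G ω ω' p))
        ≤ ∏ p ∈ f, (if ω p = none ∧ ω' p = none then (0 : ℝ) else 5) :=
      prod_le_prod (fun p _ => by positivity) fun p _ => (abs_um_loc (r p) (ω p) (ω' p)).2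
    by_cases h1 : c ω = 0
    · simpa only [htrm, h1, zero_mul, abs_zero] using h0
    by_cases h2 : c ω' = 0
    · simpa only [htrm, h2, zero_mul, mul_zero, abs_zero] using h0
    by_cases h3 : ∃ p ∈ f, ω p = none ∧ ω' p = none
    · obtain ⟨p, hpf, h3⟩ := h3
      rw [prod_eq_zero (f := fun p => if ω p = none ∧ ω' p = none then (0 : ℝ) else 5) hpf
        (if_pos h3)] at k1
      have := hsm (Ioc R X) fun x hx => (mem_Ioc.1 hx).2
      rw [le_antisymm k1 hk, mul_zero, abs_nonpos_iff] at this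
      simpa only [htrm, hT, this, mul_zero, abs_zero] using h0
    have h4 : ∏ p ∈ f, pr p ≤ R ^ 2 := by
      refine le_trans ?_ ((Nat.mul_le_mul (hs ω h1) (hs ω' h2)).trans_eq (sq R).symm)
      rw [← prod_mul_distrib]
      have h5 : ∀ p, ∀ s : Option (Fin k), 1 ≤ s.elim 1 (fun _ => pr p) := fun p s => by
        rcases s with _ | _
        exacts [le_rfl, (Fact.out : (pr p).Prime).pos]
      refine le_trans (prod_le_prod' fun p hpf => ?_) (prod_le_prod_of_subset_of_one_le'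
        (subset_univ f) fun p _ _ => Nat.mul_pos (h5 p _) (h5 p _))
      have h6 : ¬ (ω p = none ∧ ω' p = none) := fun h => h3 ⟨p, hpf, h⟩
      have := (Fact.out : (pr p).Prime).pos
      rcases h7 : ω p with _ | _ <;> rcases h8 : ω' p with _ | _
      · exact absurd ⟨h7, h8⟩ h6
      · simp
      · simp
      · exact Nat.le_mul_of_pos_left _ this
    have h5 : |T f fun p => nw (G ω ω' p)| ≤ (kap f fun p => nw (G ω ω' p)) * E' f := by
      have a1 := hE f (fun p => nw (G ω ω' p)) hf h4 (fun p _ => nw_zero _) fun p _ => sum_nw _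
      have a2 := hsm (Ioc 0 R) fun x hx => (mem_Ioc.1 hx).2.trans hRX
      have a3 := sum_Ioc_consecutive (fun x => lam x * PS D c₀ f (fun p => nw (G ω ω' p)) x)
        (Nat.zero_le R) hRX
      simp only [Nat.card_Ioc, Nat.sub_zero] at a2
      simp only [hT, hE', if_pos h4]
      rw [abs_le] at a1 a2 ⊢
      constructor <;> linarith [a1.1, a1.2, a2.1, a2.2]
    have h6 : |∏ p ∈ univ \ f, um (G ω ω' p)|
        ≤ ∏ p ∈ univ \ f, (if ω p = none ∧ ω' p = none then (1 : ℝ) else 5 / (pr p : ℝ)) := by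
      rw [abs_prod]
      exact prod_le_prod (fun p _ => abs_nonneg _) fun p _ => (abs_um_loc (r p) (ω p) (ω' p)).1
    have h7 : ∏ p, mm f p (ω p) (ω' p)
        = (∏ p ∈ univ \ f, (if ω p = none ∧ ω' p = none then (1 : ℝ) else 5 / (pr p : ℝ)))
          * ∏ p ∈ f, (if ω p = none ∧ ω' p = none then (0 : ℝ) else 5) := by
      rw [← prod_sdiff (subset_univ f)]
      congr 1
      · exact prod_congr rfl fun p hp => if_neg (mem_sdiff.1 hp).2
      · exact prod_congr rfl fun p hp => if_pos hp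
    have h8 := hE'0 f
    have h9 := (abs_nonneg _).trans h6
    simp only [htrm, abs_mul]
    calc _ ≤ Fm * Fm * ((∏ p ∈ univ \ f,
            (if ω p = none ∧ ω' p = none then (1 : ℝ) else 5 / (pr p : ℝ)))
            * ((∏ p ∈ f, (if ω p = none ∧ ω' p = none then (0 : ℝ) else 5)) * E' f)) := by
          gcongr
          exacts [hc ω, hc ω', h5.trans (mul_le_mul_of_nonneg_right k1 h8)]
      _ = _ := by rw [h7]; ring
  have e5 : ∀ f : Finset ι, ∑ ω : ι → Option (Fin k), ∑ ω' : ι → Option (Fin k),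
      ∏ p, mm f p (ω p) (ω' p) ≤ K ^ #f * Pe := by
    intro f
    have a1 : ∑ ω : ι → Option (Fin k), ∑ ω' : ι → Option (Fin k), ∏ p, mm f p (ω p) (ω' p)
        = ∏ p, ∑ s, ∑ t, mm f p s t := by
      simp only [prod_univ_sum, Fintype.piFinset_univ]
    have a2 : K ^ #f * Pe = ∏ p, ((if p ∈ f then K else 1) * (1 + K / pr p)) := by
      rw [prod_mul_distrib, prod_ite_mem, univ_inter, prod_const]
    rw [a1, a2]
    refine prod_le_prod (fun p _ => sum_nonneg fun s _ => sum_nonneg fun t _ => hmm0 ..)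
      fun p _ => ?_
    have hpp := p_pos (p := pr p)
    simp only [hmm]
    split_ifs
    · calc _ ≤ ∑ s : Option (Fin k), ∑ t : Option (Fin k), (5 : ℝ) :=
            sum_le_sum fun s _ => sum_le_sum fun t _ => by split_ifs <;> norm_num
        _ = K := by simp [hK]; ring
        _ ≤ _ := le_mul_of_one_le_right hK0 (le_add_of_nonneg_right (by positivity))
    · calc _ ≤ ∑ s : Option (Fin k), ∑ t : Option (Fin k),
            ((if s = none ∧ t = none then (1 : ℝ) else 0) + 5 / pr p) :=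
            sum_le_sum fun s _ => sum_le_sum fun t _ => by
              split_ifs
              · exact le_add_of_nonneg_right (by positivity)
              · simp
        _ = _ := by
            simp only [sum_add_distrib, ite_and, Finset.sum_ite_irrel, sum_ite_eq', mem_univ,
              if_true, sum_const_zero]
            simp [hK]; ring
  have hPe0 : 0 ≤ Pe := by positivity
  have e6 : ∀ f : Finset ι, f.Nonempty →
      -(Fm ^ 2 * Pe * (K ^ #f * E' f)) ≤ ∑ ω, ∑ ω', trm f ω ω' := by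
    intro f hf
    refine neg_le_of_abs_le ((abs_sum_le_sum_abs _ _).trans ((sum_le_sum fun ω _ =>
      (abs_sum_le_sum_abs _ _).trans (sum_le_sum fun ω' _ => e4 f hf ω ω')).trans ?_))
    simp only [← Finset.mul_sum]
    have := mul_le_mul_of_nonneg_left (e5 f) (mul_nonneg (sq_nonneg Fm) (hE'0 f))
    linarith
  have e7 : ∑ f, K ^ #f * E' f ≤ ∑ f, K ^ #f * E f + R * L * (R ^ 2 * Pe) := by
    simp only [hE', mul_add, sum_add_distrib]
    gcongr
    rw [hPe, prod_one_add, powerset_univ, Finset.mul_sum, Finset.mul_sum]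
    refine sum_le_sum fun f _ => ?_
    have hq0 : (0 : ℝ) < (∏ p ∈ f, pr p : ℕ) := by exact_mod_cast prod_pr_pos (pr := pr) f
    split_ifs with h
    · rw [prod_div_distrib, prod_const, ← Nat.cast_prod, mul_comm]
      gcongr
      rw [← mul_div_assoc, le_div_iff₀ hq0, mul_comm]
      gcongr
      exact_mod_cast h
    · rw [mul_zero]; positivity
  rw [e1, ← add_sum_erase _ (fun f => ∑ ω, ∑ ω', trm f ω ω') (mem_univ ∅), e2]
  have e8 : -(Fm ^ 2 * Pe * ∑ f, K ^ #f * E' f) ≤ ∑ f ∈ univ.erase ∅, ∑ ω, ∑ ω', trm f ω ω' := by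
    refine le_trans ?_ (sum_le_sum fun f hf => e6 f (nonempty_iff_ne_empty.2 (ne_of_mem_erase hf)))
    rw [sum_neg_distrib, neg_le_neg_iff, Finset.mul_sum]
    exact sum_le_sum_of_subset_of_nonneg (erase_subset _ _) fun f _ _ => by
      have := hE'0 f; positivity
  have e9 := mul_le_mul_of_nonneg_left e3
    (sum_nonneg (s := (Ioc R X).filter (· ≡ c₀ [MOD D])) fun x _ => lam_nonneg x)
  have e10 := mul_le_mul_of_nonneg_left e7 (show 0 ≤ Fm ^ 2 * Pe by positivity)
  linarith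

end Pool.Agent.Lib.MP_28260b_nt
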