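import Pool.Agent.Lib.MP_28260b_nt.May1

/-! The Maynard sieve for the forms `a i * n - 1`. -/

namespace Pool.Agent.Lib.MP_28260b_nt

open Finset Filter Topology Pool.Agent.Lib.MP_6a20cc_nt Pool.Agent.Lib.SW
open Fintype (piFinset mem_piFinset)

lemma ev_log (C : ℝ) (n : ℕ) : ∀ᶠ z : ℕ in atTop, C * Real.log z ^ n ≤ z := by
  have h := (Real.isLittleO_pow_log_id_atTop (n := n)).const_mul_left C
  filter_upwards [tendsto_natCast_atTop_atTop.eventually (h.bound one_pos)] with z hz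
  simp only [id, Real.norm_eq_abs, one_mul, Nat.abs_cast] at hz
  exact (le_abs_self _).trans hz

lemma ff_shift {ι : Type} [Fintype ι] [DecidableEq ι] {pr : ι → ℕ} [∀ p, Fact (pr p).Prime] {k : ℕ}
    (r : (p : ι) → Fin k → ZMod (pr p)) (c : (ι → Option (Fin k)) → ℝ) {A n : ℕ}
    (hA : ∀ p, (A : ZMod (pr p)) ≠ 0) (h : 1 ≤ A * n) :
    ff (fun p i => (A : ZMod (pr p)) * r p i - 1) c (A * n - 1) = ff r c n := by
  refine sum_congr rfl fun ω _ => ?_
  congr 1
  refine prod_congr rfl fun p _ => ?_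
  rcases ω p with _ | i
  · rfl
  · simp only [loc, Option.elim, Nat.cast_sub h, Nat.cast_mul, Nat.cast_one, sub_left_inj,
      mul_right_inj' (hA p)]

lemma sum_shift (g : ℕ → ℝ) {A : ℕ} (hA : 2 ≤ A) (R N : ℕ) :
    ∑ x ∈ Ioc R (A * N) with x ≡ A - 1 [MOD A], g x
      = ∑ n ∈ Ioc 0 N, if R < A * n - 1 then g (A * n - 1) else 0 := by
  rw [← sum_filter]
  symm
  refine sum_bij (fun n _ => A * n - 1) (fun n hn => ?_) (fun n hn n' hn' h => ?_)
    (fun x hx => ?_) fun _ _ => rfl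
  · obtain ⟨h1, h2⟩ := mem_filter.1 hn
    obtain ⟨h3, h4⟩ := mem_Ioc.1 h1
    have h5 := Nat.mul_le_mul_left A h4
    refine mem_filter.2 ⟨mem_Ioc.2 ⟨h2, by omega⟩, ?_⟩
    obtain ⟨n, rfl⟩ : ∃ n', n = n' + 1 := ⟨n - 1, by omega⟩
    have : A * (n + 1) - 1 = A * n + (A - 1) := by rw [Nat.mul_succ]; omega
    rw [this]
    simp [Nat.ModEq]
  · have h1 := (mem_filter.1 hn).2
    have h2 := (mem_filter.1 hn').2
    exact Nat.eq_of_mul_eq_mul_left (show 0 < A by omega) (by omega)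
  · obtain ⟨h1, h2⟩ := mem_filter.1 hx
    obtain ⟨h3, h4⟩ := mem_Ioc.1 h1
    have h5 : x % A = A - 1 := by rw [h2, Nat.mod_eq_of_lt (by omega)]
    have h6 := Nat.div_add_mod x A
    have h7 : A * (x / A + 1) - 1 = x := by rw [Nat.mul_succ]; omega
    refine ⟨x / A + 1, mem_filter.2 ⟨mem_Ioc.2 ⟨Nat.succ_pos _, ?_⟩, by omega⟩, h7⟩
    rw [Nat.succ_le_iff, Nat.div_lt_iff_lt_mul (by omega), mul_comm]
    refine lt_of_le_of_ne h4 fun h => ?_
    rw [h, Nat.mul_mod_right] at h5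
    omega

variable {k : ℕ}

noncomputable def II (Nb : ℕ) (Fb : (Fin k → ℕ) → ℝ) : ℝ :=
  ∑ j ∈ piFinset (fun _ : Fin k => range Nb), Fb j ^ 2

noncomputable def JJ (Nb : ℕ) (Fb : (Fin k → ℕ) → ℝ) (m : Fin k) : ℝ :=
  ∑ j ∈ piFinset (fun _ : Option (Fin k) => range Nb), Fb (fun i => j (some i)) * Fb (sw m j)

lemma exists_eps (k : ℕ) {s I J : ℝ} (h : s * I < J) : ∃ ε : ℝ, 0 < ε ∧ ε ≤ 1 ∧
    s * ((1 + ε) ^ (k + 1) * I) + 4 * ε < (1 - ε) ^ (k + 2) * J := by
  have h1 : ContinuousAt (fun ε : ℝ => s * ((1 + ε) ^ (k + 1) * I) + 4 * ε) 0 := by fun_prop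
  have h2 : ContinuousAt (fun ε : ℝ => (1 - ε) ^ (k + 2) * J) 0 := by fun_prop
  have h3 := (h1.eventually_lt h2 (by simpa using h)).filter_mono (nhdsWithin_le_nhds (s := Set.Ioi 0))
  obtain ⟨ε, h4, h5⟩ := (h3.and (Ioc_mem_nhdsGT (show (0 : ℝ) < 1 by norm_num))).exists
  exact ⟨ε, h5.1, h5.2, h4⟩

theorem maynard {Nb : ℕ} (hNb : 1 ≤ Nb) {Fb : (Fin k → ℕ) → ℝ} {Fm : ℝ} (h0 : ∀ j, 0 ≤ Fb j)
    (hm : ∀ j, Fb j ≤ Fm) (hs : ∀ j, Fb j ≠ 0 → ∑ i, (j i + 1) ≤ Nb)
    (hIJ : (4 * Nb + 5) * II Nb Fb < ∑ m, JJ Nb Fb m)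
    (a : Fin k → ℕ) (ha : ∀ i, 0 < a i) (hinj : Function.Injective a) (n₀ : ℕ) :
    ∃ n > n₀, ∃ i j, i ≠ j ∧ (a i * n - 1).Prime ∧ (a j * n - 1).Prime := by
  obtain ⟨ε, hε, hε1, hgap⟩ := exists_eps k hIJ
  set C : ℝ := k * (Fm ^ 2 * (2 * Nb) ^ (k + 1) * (4 * (k + 1) ^ 2)) with hC
  obtain ⟨w, hwa, hwk, hwC⟩ : ∃ w : ℕ, (∀ i, a i ≤ w) ∧ 4 * k + 2 ≤ w ∧ C / ε ≤ w := by
    refine ⟨∑ i, a i + (4 * k + 2) + ⌈C / ε⌉₊, fun i => ?_, by omega, ?_⟩
    · have := single_le_sum (f := a) (fun _ _ => Nat.zero_le _) (mem_univ i)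
      omega
    · push_cast
      have := Nat.le_ceil (C / ε)
      have : (0 : ℝ) ≤ ∑ i, (a i : ℝ) + (4 * k + 2) := by positivity
      linarith
  set W := w.factorial with hW
  have hW0 : 0 < W := Nat.factorial_pos w
  have hW2 : 2 ≤ W := le_trans (by omega) (Nat.self_le_factorial w)
  set A : Fin k → ℕ := fun i => a i * W with hA
  have hA2 : ∀ i, 2 ≤ A i := fun i => le_trans hW2 (Nat.le_mul_of_pos_left W (ha i))
  have hAw : ∀ i, A i ≤ w * W := fun i => Nat.mul_le_mul_right W (hwa i)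
  set K := 5 * (k + 1) ^ 2 with hK
  have hcop : ∀ i, (A i - 1).Coprime (A i) := fun i => by
    have := hA2 i
    obtain ⟨b, hb⟩ : ∃ b, A i = b + 1 := ⟨A i - 1, by omega⟩
    rw [hb]; simp
  choose B hB using fun m => BV (D := A m) (by have := hA2 m; omega) (hcop m) K (6 * K + 1)
  set ρ : ℝ := (W.totient : ℝ) / W with hρ
  have hW' : (0 : ℝ) < W := by exact_mod_cast hW0
  have hρ0 : 0 < ρ := div_pos (by exact_mod_cast Nat.totient_pos.2 hW0) hW'
  have hρ1 : ρ ≤ 1 := by rw [hρ, div_le_one hW']; exact_mod_cast Nat.totient_le W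
  set s := 4 * Nb + 4 with hs4
  have htend : ∀ m, Tendsto (fun z : ℕ => A m * z ^ s) atTop atTop := fun m =>
    (tendsto_pow_atTop (by omega)).const_mul_atTop' (by have := hA2 m; omega)
  have hlog := tendsto_L.eventually_ge_atTop
  obtain ⟨z, hBV, hSW, hzB, hz1, hz2, hz3, hz4, hz5, hz6, hz7, hz8, hz9, hz10⟩ :=
    ((eventually_all.2 fun m => (htend m).eventually (hB m)).and
    ((eventually_all.2 fun m => (htend m).eventually (siegel_walfisz 1 1)).and
    ((eventually_all.2 fun m => ev_log (((s : ℝ) + 1) ^ B m) (B m)).and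
    ((eventually_ge_atTop (w * W * (W * n₀ + 1))).and
    ((hlog (2 * Real.exp 10)).and ((hlog (w * W * (2 / ε))).and
    ((hlog ((2 * W + 1) / (ε * ρ))).and ((hlog (k * Fm ^ 2 * (w * W) / ε)).and
    ((ev_log (2 * (s + 1) / ε) 1).and
    ((ev_log ((s + 1) * Fm ^ 2 * s ^ (12 * K) / ε) (12 * K)).and
    ((ev_log (k * Fm ^ 2 * s ^ (12 * K) * (s + 1) / ε) (12 * K + 1)).and
    ((ev_log (1 / ε) 0).and (hlog (1 / ρ)))))))))))))).exists
  by_contra hcon
  push Not at hcon
  have hw' : (2 : ℝ) ≤ w := by exact_mod_cast (show 2 ≤ w by omega)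
  have hwW : w * W ≤ z := le_trans (Nat.le_mul_of_pos_right _ (by omega)) hz1
  have hz : 2 ≤ z := le_trans (le_trans hW2 (Nat.le_mul_of_pos_left W (by omega))) hwW
  have hz' : (2 : ℝ) ≤ z := by exact_mod_cast hz
  set l := Real.log z with hl
  have hl1 : 1 ≤ l := by linarith [Real.one_le_exp (show (0 : ℝ) ≤ 10 by norm_num)]
  set R := z ^ Nb with hR
  set N := z ^ s with hN
  have hzR : z ≤ R := Nat.le_self_pow (by omega) z
  have hRN : R ≤ N := Nat.pow_le_pow_right (by omega) (by omega)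
  have hN0 : 0 < N := by positivity
  have hN' : (0 : ℝ) < N := by exact_mod_cast hN0
  have hR1 : (1 : ℝ) ≤ R := by exact_mod_cast Nat.one_le_pow _ _ (by omega)
  have hR3 : (R : ℝ) ^ 3 * z ≤ N := by
    have : R ^ 3 * z ≤ N := by
      rw [hR, ← pow_mul, ← pow_succ]; exact Nat.pow_le_pow_right (by omega) (by omega)
    exact_mod_cast this
  have hs1 : (1 : ℝ) ≤ s := by exact_mod_cast (show 1 ≤ s by omega)
  have hLN : Real.log N = s * l := by rw [hN]; push_cast; rw [Real.log_pow]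
  have hNX : ∀ m, N ≤ A m * N := fun m => Nat.le_mul_of_pos_left N (by have := hA2 m; omega)
  have hL1 : ∀ m, s * l ≤ Real.log (A m * N : ℕ) := fun m => hLN ▸ log_le_L (hNX m)
  have hL2 : ∀ m, Real.log (A m * N : ℕ) ≤ (s + 1) * l := fun m => by
    have := log_le_L (Nat.mul_le_mul_right N ((hAw m).trans hwW))
    rw [Nat.cast_mul z, Real.log_mul (by linarith) hN'.ne', hLN] at this
    linarith
  have hll : l ≤ s * l := le_mul_of_one_le_left (by linarith) hs1
  -- the sieve primes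
  let ι : Type := {p // p ∈ (Nat.primesLE R).filter (w < ·)}
  let pr : ι → ℕ := Subtype.val
  have hpr : ∀ p : ι, pr p ≤ R ∧ (pr p).Prime ∧ w < pr p := fun p =>
    ⟨(Nat.mem_primesLE.1 (mem_filter.1 p.2).1).1, (Nat.mem_primesLE.1 (mem_filter.1 p.2).1).2,
      (mem_filter.1 p.2).2⟩
  have : ∀ p, Fact (pr p).Prime := fun p => ⟨(hpr p).2.1⟩
  have hpi : Function.Injective pr := Subtype.val_injective
  have hpW : ∀ p, (pr p).Coprime W := fun p =>
    (hpr p).2.1.coprime_iff_not_dvd.2 fun h =>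
      absurd ((hpr p).2.1.dvd_factorial.1 h) (not_le.2 (hpr p).2.2)
  have hpA : ∀ m p, (A m).Coprime (pr p) := fun m p =>
    Nat.Coprime.mul_left (Nat.coprime_of_lt_prime (ha m).ne' ((hwa m).trans_lt (hpr p).2.2)
      (hpr p).2.1).symm (hpW p).symm
  have hA0 : ∀ m p, (A m : ZMod (pr p)) ≠ 0 := fun m p => by
    rw [Ne, ZMod.natCast_eq_zero_iff]
    exact (hpr p).2.1.coprime_iff_not_dvd.1 (hpA m p).symm
  have hpk : ∀ p, 4 * (k : ℝ) + 1 ≤ pr p := fun p => by
    have : 4 * k + 1 ≤ pr p := by have := (hpr p).2.2; omega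
    exact_mod_cast this
  have hcov : ∀ q : ℕ, q.Prime → q < z ^ Nb → q.Coprime W → ∃ p, pr p = q := fun q hq h1 h2 =>
    ⟨⟨q, mem_filter.2 ⟨Nat.mem_primesLE.2 ⟨h1.le, hq⟩, not_le.1 fun h =>
      hq.coprime_iff_not_dvd.1 h2 (hq.dvd_factorial.2 h)⟩⟩, rfl⟩
  have hsq : ∑ p, 1 / (pr p : ℝ) ^ 2 ≤ 1 / (w : ℝ) := by
    have e := sum_Ioc_inv_sq_le_sub (α := ℝ) (k := w) (n := w + R) (by omega) (by omega)
    have e2 : ∑ p, 1 / (pr p : ℝ) ^ 2
        = ∑ q ∈ (Nat.primesLE R).filter (w < ·), ((q : ℝ) ^ 2)⁻¹ := by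
      simp only [one_div]
      exact sum_coe_sort _ fun q : ℕ => ((q : ℝ) ^ 2)⁻¹
    have e3 : (0 : ℝ) ≤ ((w + R : ℕ) : ℝ)⁻¹ := by positivity
    rw [e2, one_div]
    refine le_trans (sum_le_sum_of_subset_of_nonneg (fun q hq => ?_) fun _ _ _ => by positivity)
      (e.trans (by linarith))
    have := (Nat.mem_primesLE.1 (mem_filter.1 hq).1).1
    exact mem_Ioc.2 ⟨(mem_filter.1 hq).2, by omega⟩
  set r : (p : ι) → Fin k → ZMod (pr p) := fun p i => (A i : ZMod (pr p))⁻¹ with hr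
  have hri : ∀ p, Function.Injective (r p) := by
    intro p i j h
    have h1 : (A i : ZMod (pr p)) = A j := inv_injective h
    simp only [hA, Nat.cast_mul] at h1
    have h2 : (W : ZMod (pr p)) ≠ 0 := by
      rw [Ne, ZMod.natCast_eq_zero_iff]; exact (hpr p).2.1.coprime_iff_not_dvd.1 (hpW p)
    have h3 := (ZMod.natCast_eq_natCast_iff' _ _ _).1 (mul_right_cancel₀ h2 h1)
    rw [Nat.mod_eq_of_lt ((hwa i).trans_lt (hpr p).2.2),
      Nat.mod_eq_of_lt ((hwa j).trans_lt (hpr p).2.2)] at h3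
    exact hinj h3
  set c := cw pr z Fb with hc
  have hFm : 0 ≤ Fm := (h0 0).trans (hm 0)
  have hc1 : ∀ ω, |c ω| ≤ Fm := fun ω => by rw [hc, cw, abs_of_nonneg (h0 _)]; exact hm _
  have hc2 : ∀ ω, c ω ≠ 0 → ∏ p, (ω p).elim 1 (fun _ => pr p) ≤ R := fun ω h => (cw_supp hz hs h).1
  set Pe := ∏ p, (1 + (K : ℝ) / pr p) with hPe
  have hPe0 : 0 ≤ Pe := by positivity
  have hPe1 : Pe ≤ (s * l) ^ (6 * K) :=
    hLN ▸ euler_le hpi (fun p => (hpr p).1.trans hRN) (by rw [hLN]; linarith) K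
  -- the box sums
  set h := ρ * l with hh
  have hh1 : 1 ≤ h := by rwa [div_le_iff₀' hρ0] at hz10
  have hH : ∀ j, (1 - ε) * h ≤ HH W z j ∧ HH W z j ≤ (1 + ε) * h := fun j => by
    have e := abs_le.1 (HH_close hW0 hz j)
    rw [div_le_iff₀ (by positivity)] at hz4
    constructor <;> nlinarith only [e.1, e.2, hz4, hh]
  have hH0 : 0 ≤ (1 - ε) * h := mul_nonneg (by linarith) (by linarith)
  have hI0 : 0 ≤ II Nb Fb := sum_nonneg fun _ _ => sq_nonneg _
  set u := N * h ^ k with hu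
  have hu1 : (N : ℝ) ≤ u := le_mul_of_one_le_right hN'.le (one_le_pow₀ hh1)
  -- upper bound
  set S1 := ∑ n ∈ Ioc 0 N, ff r c n ^ 2 with hS1
  have up : (s + 1) * S1 ≤ (s + 1) * ((1 + ε) ^ (k + 1) * II Nb Fb) * u + ε * u := by
    have e1 : S1 ≤ ∑ n ∈ range (N + 1), ff r c n ^ 2 :=
      sum_le_sum_of_subset_of_nonneg (fun n hn => mem_range.2 (by have := mem_Ioc.1 hn; omega))
        fun _ _ _ => sq_nonneg _
    have e2 := S1_le hpi r hri c hc1 hc2 (N + 1)
    have e3 : QF (fun p => B1 (pr p)) c ≤ ((1 + ε) * h) ^ k * II Nb Fb := by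
      refine (QF_upper hpi hz hpW hs).trans ?_
      rw [II, Finset.mul_sum]
      refine sum_le_sum fun j _ => ?_
      rw [mul_comm]
      gcongr
      calc _ ≤ ∏ _i : Fin k, (1 + ε) * h :=
            prod_le_prod (fun i _ => hH0.trans (hH _).1) fun i _ => (hH _).2
        _ = _ := by simp
    have e4 : ((N + 1 : ℕ) : ℝ) ≤ (1 + ε) * N := by
      have : (z : ℝ) ≤ N := by exact_mod_cast hzR.trans hRN
      rw [pow_zero, mul_one, div_le_iff₀ hε] at hz9
      push_cast
      nlinarith only [this, hz9, hε]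
    have e5 : ∏ p, (1 + 3 * (k : ℝ) / pr p) ≤ (s * l) ^ (6 * K) := by
      refine le_trans (prod_le_prod (fun p _ => by positivity) fun p _ => ?_) hPe1
      gcongr
      rw [hK]; push_cast; nlinarith only [(Nat.cast_nonneg k : (0 : ℝ) ≤ k)]
    have e6 : (s + 1) * (Fm * R * ∏ p, (1 + 3 * (k : ℝ) / pr p)) ^ 2 ≤ ε * u := by
      rw [div_mul_eq_mul_div, div_le_iff₀ hε] at hz7
      calc _ ≤ (s + 1) * (Fm * R * (s * l) ^ (6 * K)) ^ 2 := by gcongr
        _ = ((s + 1) * Fm ^ 2 * s ^ (12 * K) * l ^ (12 * K)) * R ^ 2 := by ring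
        _ ≤ (z * ε) * R ^ 3 := by gcongr; norm_num
        _ = ε * (R ^ 3 * z) := by ring
        _ ≤ _ := by gcongr; linarith
    have e7 : ((N + 1 : ℕ) : ℝ) * QF (fun p => B1 (pr p)) c
        ≤ (1 + ε) ^ (k + 1) * II Nb Fb * u :=
      calc _ ≤ ((N + 1 : ℕ) : ℝ) * (((1 + ε) * h) ^ k * II Nb Fb) := by gcongr
        _ ≤ (1 + ε) * N * (((1 + ε) * h) ^ k * II Nb Fb) := by gcongr
        _ = _ := by rw [hu, mul_pow]; ring
    have e8 := mul_le_mul_of_nonneg_left (e1.trans (e2.trans (add_le_add_left e7 _)))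
      (show (0 : ℝ) ≤ s + 1 by positivity)
    linarith
  -- lower bound
  set S2 : Fin k → ℝ := fun m =>
    ∑ n ∈ Ioc 0 N, if R < A m * n - 1 then lam (A m * n - 1) * ff r c n ^ 2 else 0 with hS2
  have low : ∀ m, ((1 - ε) ^ (k + 2) * JJ Nb Fb m) * (u * l) - 3 * ε / k * (u * l) ≤ S2 m := by
    intro m
    have hk : (0 : ℝ) < k := by exact_mod_cast m.pos
    set X := A m * N with hX
    set L := Real.log X with hL
    have hLl : l ≤ L := hll.trans (hL1 m)
    have hL0 : 0 < L := by linarith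
    have hAX : (X : ℝ) ≤ w * W * N := by
      have : X ≤ w * W * N := Nat.mul_le_mul_right N (hAw m)
      exact_mod_cast this
    obtain ⟨E, hE0, hE1, hE2⟩ := hBV m (R ^ 2) z (Nat.one_le_pow _ _ (by positivity))
      (le_trans (by rw [hR, ← pow_mul, ← pow_succ, ← pow_mul]
                    exact Nat.pow_le_pow_right (by omega) (by omega)) (hNX m))
      (le_trans (Nat.pow_le_pow_right (by omega) (by omega)) (hNX m))
      (le_trans (by rw [← mul_pow]; gcongr; exact hL2 m) (hzB m))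
      ι pr hpi (hpA m) fun p => (hpr p).1.trans (hRN.trans (hNX m))
    have e1 := S2_ge (fun p i => (A m : ZMod (pr p)) * r p i - 1)
      (fun p i j h => hri p (mul_left_cancel₀ (hA0 m p) (sub_left_injective h))) (m := m)
      (fun p => by simp only [hr]; rw [mul_inv_cancel₀ (hA0 m p), sub_self]) hpk c hc1 hc2
      (fun p => (hpr p).1) (hRN.trans (hNX m)) (hN0.trans_le (hNX m)) E hE0 hE2
    have e2 : ∑ x ∈ Ioc R X with x ≡ A m - 1 [MOD A m],
        lam x * ff (fun p i => (A m : ZMod (pr p)) * r p i - 1) c x ^ 2 = S2 m := by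
      rw [sum_shift _ (hA2 m)]
      refine sum_congr rfl fun n _ => ?_
      split_ifs with hn
      · rw [ff_shift r c (hA0 m) (by omega)]
      · rfl
    rw [e2] at e1
    set θ := ∑ x ∈ Ioc R X with x ≡ A m - 1 [MOD A m], lam x with hθ
    have e3 : (1 - ε) * (N / ρ) ≤ θ := by
      have a1 := (abs_le.1 (hSW m (A m) (by have := hA2 m; omega) (by
        have : (A m : ℝ) ≤ w * W := by exact_mod_cast hAw m
        have a2 : (w : ℝ) * W * 1 ≤ w * W * (2 / ε) := by
          gcongr; rw [le_div_iff₀ hε]; linarith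
        rw [pow_one]; linarith) _ (hcop m) X le_rfl)).1
      have a2 : ∑ x ∈ Ioc 0 X with x ≡ A m - 1 [MOD A m], lam x ≤ R * L + θ := by
        rw [hθ, sum_filter, sum_filter, ← sum_Ioc_consecutive _ (Nat.zero_le R)
          (hRN.trans (hNX m))]
        gcongr
        have := sum_le_card_nsmul (Ioc 0 R) (fun x => if x ≡ A m - 1 [MOD A m] then lam x else 0) L
          fun x hx => by
            split_ifs
            · exact lam_le (by exact_mod_cast (mem_Ioc.1 hx).2.trans (hRN.trans (hNX m)))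
                (by exact_mod_cast hN0.trans_le (hNX m))
            · linarith
        simpa using this
      have a3 : (X : ℝ) / (A m).totient = N / ρ := by
        have b1 := Nat.totient_gcd_mul_totient_mul (a m) W
        rw [Nat.gcd_eq_left (Nat.dvd_factorial (ha m) (hwa m)), mul_assoc,
          Nat.mul_right_inj (Nat.totient_pos.2 (ha m)).ne'] at b1
        have b2 : (0 : ℝ) < a m := by exact_mod_cast ha m
        have b3 : (0 : ℝ) < W.totient := by exact_mod_cast Nat.totient_pos.2 hW0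
        simp only [hX, hA, b1, hρ]
        push_cast
        field_simp
      have a4 : (X : ℝ) / L ^ 1 ≤ ε / 2 * N := by
        rw [pow_one, div_le_iff₀ (by linarith)]
        rw [← mul_div_assoc, div_le_iff₀ hε] at hz3
        have : (w : ℝ) * W ≤ ε / 2 * L := by nlinarith only [hz3, hLl, hε]
        nlinarith only [this, hAX, hN']
      have a5 : R * L ≤ ε / 2 * N := by
        rw [div_mul_eq_mul_div, div_le_iff₀ hε, pow_one] at hz6
        calc _ ≤ R ^ 3 * ((s + 1) * l) := by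
              gcongr
              · exact le_self_pow₀ hR1 (by norm_num)
              · exact hL2 m
          _ ≤ R ^ 3 * (ε / 2 * z) := mul_le_mul_of_nonneg_left (by linarith) (by positivity)
          _ = ε / 2 * (R ^ 3 * z) := by ring
          _ ≤ _ := by gcongr
      have a6 : (N : ℝ) ≤ N / ρ := le_div_self hN'.le hρ0 hρ1
      rw [a3] at a1
      nlinarith only [a1, a2, a4, a5, a6, hε]
    have e4 : h ^ (k + 1) * ((1 - ε) ^ (k + 1) * JJ Nb Fb m - ε / k)
        ≤ QF (fun p => B2 (pr p) m) c := by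
      refine le_trans ?_ (QF_lower hpi hz hcov hpk h0 hm m)
      rw [mul_sub]
      refine sub_le_sub ?_ ?_
      · rw [JJ, ← mul_assoc, ← mul_pow, Finset.mul_sum]
        refine sum_le_sum fun j _ => ?_
        rw [mul_comm]
        refine mul_le_mul_of_nonneg_left ?_ (mul_nonneg (h0 _) (h0 _))
        calc _ = ∏ _i : Option (Fin k), (1 - ε) * h := by simp [mul_comm]
          _ ≤ _ := prod_le_prod (fun _ _ => hH0) fun i _ => (hH _).1
      · have a1 : ∑ j ∈ range Nb, HH W z j ≤ 2 * Nb * h := by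
          have := sum_le_card_nsmul (range Nb) (HH W z) (2 * h) fun j _ => (hH j).2.trans (by
            gcongr; linarith)
          simp only [card_range, nsmul_eq_mul] at this
          linarith
        have a2 : 0 ≤ ∑ j ∈ range Nb, HH W z j := sum_nonneg fun j _ => hH0.trans (hH j).1
        rw [div_le_iff₀ hε] at hwC
        calc _ ≤ Fm ^ 2 * (2 * Nb * h) ^ (k + 1) * (4 * (k + 1) ^ 2) * (1 / w) := by gcongr
          _ = h ^ (k + 1) * (C / w / k) := by rw [hC, mul_pow (2 * (Nb : ℝ))]; field_simp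
          _ ≤ _ := by gcongr; rw [div_le_iff₀ (by linarith)]; linarith
    have e5 : Fm ^ 2 * Pe * (∑ f, (K : ℝ) ^ #f * E f + R * L * (R ^ 2 * Pe)) ≤ 2 * ε / k * N := by
      have a1 : Fm ^ 2 * Pe * ∑ f, (K : ℝ) ^ #f * E f ≤ ε / k * N := by
        rw [div_le_iff₀ hε] at hz5
        have a0 : 0 ≤ ∑ f, (K : ℝ) ^ #f * E f :=
          sum_nonneg fun f _ => mul_nonneg (by positivity) (hE0 f)
        calc _ ≤ Fm ^ 2 * L ^ (6 * K) * (X / L ^ (6 * K + 1)) := by
              gcongr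
              exact hPe1.trans (pow_le_pow_left₀ (by positivity) (hL1 m) _)
          _ = Fm ^ 2 * X / L := by field_simp; ring
          _ ≤ Fm ^ 2 * (w * W * N) / l := by gcongr
          _ = (k * Fm ^ 2 * (w * W)) / l / k * N := by field_simp
          _ ≤ _ := by gcongr; rw [div_le_iff₀ (by linarith)]; linarith
      have a2 : Fm ^ 2 * Pe * (R * L * (R ^ 2 * Pe)) ≤ ε / k * N := by
        rw [div_mul_eq_mul_div, div_le_iff₀ hε] at hz8
        calc _ ≤ Fm ^ 2 * (s * l) ^ (6 * K) * (R * ((s + 1) * l) * (R ^ 2 * (s * l) ^ (6 * K))) := by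
              gcongr
              exact hL2 m
          _ = (k * Fm ^ 2 * s ^ (12 * K) * (s + 1) * l ^ (12 * K + 1)) / k * R ^ 3 := by
              field_simp; ring
          _ ≤ (z * ε) / k * R ^ 3 := by gcongr
          _ = ε / k * (R ^ 3 * z) := by ring
          _ ≤ _ := by gcongr
      have a3 : 2 * ε / k * N = ε / k * N + ε / k * N := by ring
      linarith
    have e6 := mul_le_mul_of_nonneg_right e3 (QF_nonneg _ (fun p => psd_B2 (hpk p) m) c)
    have e7 := mul_le_mul_of_nonneg_left e4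
      (show 0 ≤ (1 - ε) * (N / ρ) from mul_nonneg (by linarith) (by positivity))
    have e8 : (1 - ε) * (N / ρ) * (h ^ (k + 1) * ((1 - ε) ^ (k + 1) * JJ Nb Fb m - ε / k))
        = ((1 - ε) ^ (k + 2) * JJ Nb Fb m) * (u * l) - (1 - ε) * (ε / k * (u * l)) := by
      rw [hu, pow_succ h, hh]; field_simp; ring
    have e9 : (N : ℝ) ≤ u * l := hu1.trans (le_mul_of_one_le_right (by linarith) hl1)
    have e10 : 2 * ε / k * N ≤ 2 * ε / k * (u * l) := by gcongr
    have e11 : 0 ≤ ε * (ε / k * (u * l)) := by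
      have : 0 ≤ u * l := by linarith
      positivity
    have e12 : 3 * ε / k * (u * l) = ε / k * (u * l) + 2 * ε / k * (u * l) := by ring
    linarith
  have comp : ∑ m, S2 m ≤ (s + 1) * l * S1 := by
    rw [sum_comm, Finset.mul_sum]
    refine sum_le_sum fun n hn => ?_
    have e1 : ∀ m, (if R < A m * n - 1 then lam (A m * n - 1) * ff r c n ^ 2 else 0)
        ≤ if R < A m * n - 1 ∧ (A m * n - 1).Prime then (s + 1) * l * ff r c n ^ 2 else 0 := by
      intro m
      by_cases h1 : R < A m * n - 1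
      · by_cases h2 : (A m * n - 1).Prime
        · rw [if_pos h1, if_pos ⟨h1, h2⟩]
          gcongr
          refine (lam_le (y := (A m * N : ℕ)) ?_ ?_).trans (hL2 m)
          · exact_mod_cast (Nat.sub_le _ _).trans (Nat.mul_le_mul_left _ (mem_Ioc.1 hn).2)
          · exact_mod_cast hN0.trans_le (hNX m)
        · simp [lam, h2]
      · simp [h1]
    refine (sum_le_sum fun m _ => e1 m).trans ?_
    rw [← sum_filter, sum_const, nsmul_eq_mul]
    refine mul_le_of_le_one_left (by positivity) ?_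
    refine Nat.cast_le_one.2 (card_le_one.2 fun i hi j hj => ?_)
    by_contra hne
    obtain ⟨i1, i2⟩ := (mem_filter.1 hi).2
    have e2 : n₀ < W * n := by
      have b1 : w * W * (W * n₀ + 1) < w * W * n :=
        lt_of_le_of_lt (hz1.trans hzR) (i1.trans_le ((Nat.sub_le _ _).trans
          (Nat.mul_le_mul_right n (hAw i))))
      have b2 := Nat.lt_of_mul_lt_mul_left b1
      have b3 := Nat.le_mul_of_pos_left n hW0
      have b4 := Nat.le_mul_of_pos_left n₀ hW0
      omega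
    refine hcon (W * n) e2 i j hne ?_ ?_
    · rw [← mul_assoc]; exact i2
    · rw [← mul_assoc]; exact (mem_filter.1 hj).2.2
  have fin := (sum_le_sum fun m (_ : m ∈ univ) => low m).trans comp
  rw [sum_sub_distrib, ← Finset.sum_mul, ← Finset.mul_sum, sum_const, card_univ, Fintype.card_fin,
    nsmul_eq_mul] at fin
  have hul : 0 < u * l := mul_pos (by linarith) (by linarith)
  have e1 : (k : ℝ) * (3 * ε / k * (u * l)) ≤ 3 * ε * (u * l) := by
    rcases Nat.eq_zero_or_pos k with rfl | hk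
    · simp; positivity
    · have : (0 : ℝ) < k := by exact_mod_cast hk
      exact le_of_eq (by field_simp)
  have e2 := mul_le_mul_of_nonneg_right up (show 0 ≤ l by linarith)
  have e3 := mul_lt_mul_of_pos_right hgap hul
  have e4 : (s : ℝ) + 1 = 4 * Nb + 5 := by rw [hs4]; push_cast; ring
  rw [e4] at e2 fin
  linarith

end Pool.Agent.Lib.MP_28260b_nt
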