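import Pool.Agent.Lib.MP_28260b_nt.May2

/-! A numerical certificate for the sieve with 64 forms. -/

namespace Pool.Agent.Lib.MP_28260b_nt

open Finset Polynomial
open Fintype (piFinset mem_piFinset)

def dig (x b s : ℕ) : ℕ := x / b ^ s % b

lemma coeff_digit {b : ℕ} (s : ℕ) :
    ∀ p : ℕ[X], (∀ n, p.coeff n < b) → p.coeff s = dig (p.eval b) b s := by
  have e : ∀ p : ℕ[X], p.eval b = p.coeff 0 + b * p.divX.eval b := fun p => by
    conv_lhs => rw [← divX_mul_X_add p]
    simp only [eval_add, eval_mul, eval_X, eval_C]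
    ring
  induction s with
  | zero =>
    intro p h
    rw [dig, pow_zero, Nat.div_one, e, Nat.add_mul_mod_self_left, Nat.mod_eq_of_lt (h 0)]
  | succ s ih =>
    intro p h
    rw [← coeff_divX, ih _ fun n => by rw [coeff_divX]; exact h _, dig, dig, pow_succ',
      ← Nat.div_div_eq_div_mul, e p, Nat.add_mul_div_left _ _ (Nat.zero_lt_of_lt (h 0)),
      Nat.div_eq_of_lt (h 0), zero_add]

lemma coeff_le_eval (p : ℕ[X]) (n : ℕ) : p.coeff n ≤ p.eval 1 := by
  rw [eval_eq_sum, Polynomial.sum]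
  simp only [one_pow, mul_one]
  by_cases h : n ∈ p.support
  · exact single_le_sum (f := p.coeff) (fun _ _ => Nat.zero_le _) h
  · rw [notMem_support_iff.1 h]; exact Nat.zero_le _

lemma coeff_dig {b : ℕ} {p : ℕ[X]} (h : p.eval 1 < b) (s : ℕ) : p.coeff s = dig (p.eval b) b s :=
  coeff_digit s p fun n => (coeff_le_eval p n).trans_lt h

noncomputable def mkp (n : ℕ) (f : ℕ → ℕ) : ℕ[X] := ∑ j ∈ range n, C (f j) * X ^ j

def Ev (n : ℕ) (f : ℕ → ℕ) (b : ℕ) : ℕ := ∑ j ∈ range n, f j * b ^ j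

lemma eval_mkp (n : ℕ) (f : ℕ → ℕ) (b : ℕ) : (mkp n f).eval b = Ev n f b := by
  simp [mkp, Ev, eval_finsetSum]

noncomputable def cf (S : ℕ) (q : ℕ[X]) (s : ℕ) : ℕ := (q * X ^ s).coeff S

noncomputable def had (S : ℕ) (q : ℕ[X]) : ℕ[X] := mkp (S + 1) fun t => q.coeff t ^ 2

lemma cf_had (S : ℕ) (q : ℕ[X]) (s : ℕ) : cf S (had S q) s = cf S q s ^ 2 := by
  simp only [cf, coeff_mul_X_pow']
  split_ifs with h
  · simp only [had, mkp, finsetSum_coeff, coeff_C_mul_X_pow]
    rw [sum_ite_eq, if_pos (mem_range.2 (by omega))]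
  · rfl

lemma cf_conv (S n : ℕ) (q : ℕ[X]) (w : ℕ → ℕ) (T : ℕ) :
    ∑ a ∈ range n, cf S q (a + T) * w a = cf S (q * mkp n w) T := by
  simp only [cf, mkp, Finset.mul_sum, Finset.sum_mul, finsetSum_coeff]
  refine sum_congr rfl fun a _ => ?_
  rw [← coeff_mul_C]
  congr 1
  ring

lemma cf_pi (S n e : ℕ) (q : ℕ[X]) (w : ℕ → ℕ) :
    ∑ j ∈ piFinset (fun _ : Fin e => range n), cf S q (∑ i, j i) * ∏ i, w (j i)
      = (q * mkp n w ^ e).coeff S := by
  have : mkp n w ^ e = ∏ _i : Fin e, mkp n w := by simp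
  rw [this]
  simp only [cf, mkp, prod_univ_sum, Finset.mul_sum, finsetSum_coeff]
  refine sum_congr rfl fun j _ => ?_
  rw [← coeff_mul_C, prod_mul_distrib, prod_pow_eq_pow_sum, ← map_prod]
  congr 1
  ring

lemma coeff_had {q : ℕ[X]} {x : ℕ → ℕ} (hx : ∀ b, q.eval b = x b) {b' : ℕ} (h1 : x 1 < b')
    {n e S b : ℕ} {w : ℕ → ℕ}
    (h2 : Ev (S + 1) (fun t => dig (x b') b' t ^ 2) 1 * Ev n w 1 ^ e < b) :
    (had S q * mkp n w ^ e).coeff S
      = dig (Ev (S + 1) (fun t => dig (x b') b' t ^ 2) b * Ev n w b ^ e) b S := by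
  have e1 : had S q = mkp (S + 1) fun t => dig (x b') b' t ^ 2 := by
    simp only [had, coeff_dig (hx 1 ▸ h1), hx]
  rw [coeff_dig (b := b)] <;> simp only [e1, eval_mul, eval_pow, eval_mkp, h2]

noncomputable def FF (S : ℕ) (q : ℕ[X]) (g : ℕ → ℕ) {k : ℕ} (j : Fin k → ℕ) : ℝ :=
  (cf S q (∑ i, j i) * ∏ i, g (j i) : ℕ)

lemma II_eq (S n k : ℕ) (q : ℕ[X]) (g : ℕ → ℕ) :
    II n (FF S q g (k := k)) = ((had S q * mkp n (fun j => g j ^ 2) ^ k).coeff S : ℕ) := by
  rw [← cf_pi, II, Nat.cast_sum]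
  refine sum_congr rfl fun j _ => ?_
  rw [FF, cf_had, prod_pow, ← mul_pow, Nat.cast_pow]

lemma JJ_eq (S n k : ℕ) (q : ℕ[X]) (g : ℕ → ℕ) (m : Fin (k + 1)) :
    JJ n (FF S q g) m
      = ((had S (q * mkp n g) * mkp n (fun j => g j ^ 2) ^ k).coeff S : ℕ) := by
  have e : ∀ (a : ℕ) (r : Fin k → ℕ), FF S q g (m.insertNth a r)
      = (cf S q (a + ∑ i, r i) * g a * ∏ i, g (r i) : ℕ) := fun a r => by
    rw [FF, Fin.sum_univ_succAbove _ m, Fin.prod_univ_succAbove _ m, mul_assoc]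
    simp only [Fin.insertNth_apply_same, Fin.insertNth_apply_succAbove]
  have e2 : JJ n (FF S q g) m = ∑ x ∈ piFinset (fun _ : Fin k => range n) ×ˢ range n ×ˢ range n,
      FF S q g (m.insertNth x.2.1 x.1) * FF S q g (m.insertNth x.2.2 x.1) := by
    refine sum_nbij' (fun j => (fun i => j (some (m.succAbove i)), j (some m), j none))
      (fun x o => o.elim x.2.2 (m.insertNth x.2.1 x.1)) (fun j hj => ?_) (fun x hx => ?_)
      (fun j _ => ?_) (fun x _ => ?_) fun j _ => ?_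
    · have := mem_piFinset.1 hj
      simp only [mem_product, mem_piFinset, this, implies_true, and_self]
    · obtain ⟨h1, h2, h3⟩ : x.1 ∈ piFinset (fun _ : Fin k => range n) ∧ x.2.1 ∈ range n ∧
        x.2.2 ∈ range n := by simpa only [mem_product] using hx
      refine mem_piFinset.2 fun o => ?_
      rcases o with _ | i
      · exact h3
      · refine m.succAboveCases ?_ (fun i => ?_) i
        · simpa only [Option.elim, Fin.insertNth_apply_same] using h2
        · simpa only [Option.elim, Fin.insertNth_apply_succAbove] using mem_piFinset.1 h1 i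
    · funext o
      rcases o with _ | i
      · rfl
      · refine m.succAboveCases ?_ (fun i => ?_) i <;>
          simp only [Option.elim, Fin.insertNth_apply_same, Fin.insertNth_apply_succAbove]
    · simp only [Option.elim, Fin.insertNth_apply_same, Fin.insertNth_apply_succAbove]
    · congr 2 <;> funext i <;> refine m.succAboveCases ?_ (fun i => ?_) i <;>
        simp [sw, Fin.succAbove_ne]
  rw [e2, ← cf_pi, sum_product, Nat.cast_sum]
  refine sum_congr rfl fun r _ => ?_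
  rw [cf_had, ← cf_conv, sq, sum_mul_sum, sum_product, prod_pow]
  simp only [e]
  push_cast
  simp only [Finset.sum_mul]
  refine sum_congr rfl fun a _ => sum_congr rfl fun b _ => by ring

def gg (j : ℕ) : ℕ := 4000 / (j + 4)

def gam (t : ℕ) : ℕ := (t + 60) * (1200 - t) ^ 2 / (t + 200)

lemma cert : 4005 * (had 936 (mkp 937 gam) * mkp 1000 (fun j => gg j ^ 2) ^ 64).coeff 936
    < 64 * (had 936 (mkp 937 gam * mkp 1000 gg) * mkp 1000 (fun j => gg j ^ 2) ^ 63).coeff 936 := by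
  rw [coeff_had (eval_mkp 937 gam) (b' := 2 ^ 64) (b := 2 ^ 1500) (by decide +kernel)
    (by decide +kernel), coeff_had (x := fun b => Ev 937 gam b * Ev 1000 gg b)
    (fun b => by rw [eval_mul, eval_mkp, eval_mkp]) (b' := 2 ^ 64) (b := 2 ^ 1500)
    (by decide +kernel) (by decide +kernel)]
  decide +kernel

theorem maynard64 (a : Fin 64 → ℕ) (ha : ∀ i, 0 < a i) (hinj : Function.Injective a) (n₀ : ℕ) :
    ∃ n > n₀, ∃ i j, i ≠ j ∧ (a i * n - 1).Prime ∧ (a j * n - 1).Prime := by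
  refine maynard (Nb := 1000) (by norm_num) (Fb := FF 936 (mkp 937 gam) gg)
    (Fm := ((mkp 937 gam).eval 1 * ∏ _i : Fin 64, 4000 : ℕ)) (fun j => Nat.cast_nonneg _)
    (fun j => Nat.cast_le.2 (Nat.mul_le_mul ?_ ?_)) (fun j hj => ?_) ?_ a ha hinj n₀
  · have := coeff_le_eval (mkp 937 gam * X ^ ∑ i, j i) 936
    rwa [eval_mul, eval_pow, eval_X, one_pow, mul_one] at this
  · exact prod_le_prod' fun i _ => Nat.div_le_self _ _
  · have : ∑ i, j i ≤ 936 := by
      by_contra h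
      simp [FF, cf, coeff_mul_X_pow', h] at hj
    rw [sum_add_distrib]
    simp only [sum_const, card_univ, Fintype.card_fin, smul_eq_mul]
    omega
  · simp only [II_eq, JJ_eq 936 1000 63, sum_const, card_univ, Fintype.card_fin, nsmul_eq_mul]
    have := (Nat.cast_lt (α := ℝ)).2 cert
    rw [Nat.cast_mul, Nat.cast_mul] at this
    rwa [show 4 * ((1000 : ℕ) : ℝ) + 5 = (4005 : ℕ) by norm_num]

end Pool.Agent.Lib.MP_28260b_nt
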