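import Mathlib

/-! Loewner order is preserved by tensor products; local Gram matrices of the Maynard sieve. -/

namespace Pool.Agent.Lib.MP_28260b_nt

open Finset

section tensor

variable {σ : Type} [Fintype σ] [DecidableEq σ]

def Psd (M : σ → σ → ℝ) : Prop :=
  (∀ s t, M s t = M t s) ∧ ∀ c : σ → ℝ, 0 ≤ ∑ s, ∑ t, c s * c t * M s t

open MatrixOrder in
lemma Psd.gram {M : σ → σ → ℝ} (h : Psd M) :
    ∃ v : σ → σ → ℝ, ∀ s t, M s t = ∑ y, v y s * v y t := by
  have h1 : (Matrix.of M).PosSemidef := by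
    refine .of_dotProduct_mulVec_nonneg ?_ fun x => ?_
    · ext s t
      simp [h.1 s t]
    · refine le_of_le_of_eq (h.2 x) ?_
      simp only [dotProduct, Matrix.mulVec, Matrix.of_apply, star_trivial, Finset.mul_sum]
      exact sum_congr rfl fun s _ => sum_congr rfl fun t _ => by ring
  obtain ⟨B, hB⟩ := CStarAlgebra.nonneg_iff_eq_star_mul_self.mp h1.nonneg
  refine ⟨fun y s => B y s, fun s t => ?_⟩
  have := congrFun (congrFun hB s) t
  simpa [Matrix.mul_apply] using this

variable {ι : Type} [Fintype ι] [DecidableEq ι]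

noncomputable def QF (M : ι → σ → σ → ℝ) (c : (ι → σ) → ℝ) : ℝ :=
  ∑ ω, ∑ ω', c ω * c ω' * ∏ p, M p (ω p) (ω' p)

lemma QF_nonneg (M : ι → σ → σ → ℝ) (h : ∀ p, Psd (M p)) (c : (ι → σ) → ℝ) : 0 ≤ QF M c := by
  choose v hv using fun p => (h p).gram
  have : QF M c = ∑ y : ι → σ, (∑ ω, c ω * ∏ p, v p (y p) (ω p)) ^ 2 := by
    unfold QF
    simp only [hv, Finset.prod_univ_sum, Fintype.piFinset_univ, Finset.mul_sum, sq,
      Finset.sum_mul]
    symm
    rw [Finset.sum_comm]
    refine sum_congr rfl fun ω _ => ?_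
    rw [Finset.sum_comm]
    refine sum_congr rfl fun ω' _ => sum_congr rfl fun y _ => ?_
    rw [Finset.prod_mul_distrib]
    ring
  rw [this]
  positivity

theorem QF_mono (A B : ι → σ → σ → ℝ) (hA : ∀ p, Psd (A p))
    (hB : ∀ p, Psd (fun s t => B p s t - A p s t)) (c : (ι → σ) → ℝ) : QF A c ≤ QF B c := by
  have h1 : QF B c = ∑ S ∈ (univ : Finset ι).powerset,
      QF (fun p => if p ∈ S then (fun s t => B p s t - A p s t) else A p) c := by
    unfold QF
    symm
    rw [Finset.sum_comm]
    refine sum_congr rfl fun ω _ => ?_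
    rw [Finset.sum_comm]
    refine sum_congr rfl fun ω' _ => ?_
    rw [← Finset.mul_sum]
    congr 1
    have : ∏ p, B p (ω p) (ω' p)
        = ∏ p, ((B p (ω p) (ω' p) - A p (ω p) (ω' p)) + A p (ω p) (ω' p)) := by simp
    rw [this, Finset.prod_add]
    refine sum_congr rfl fun S _ => ?_
    rw [← Finset.prod_mul_prod_compl S, Finset.compl_eq_univ_sdiff]
    congr 1
    · exact prod_congr rfl fun p hp => by simp [hp]
    · exact prod_congr rfl fun p hp => by simp [(mem_sdiff.1 hp).2]
  rw [h1]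
  have h2 := Finset.single_le_sum (s := (univ : Finset ι).powerset)
    (f := fun S => QF (fun p => if p ∈ S then (fun s t => B p s t - A p s t) else A p) c)
    (fun S _ => QF_nonneg _ (fun p => by split_ifs; exacts [hB p, hA p]) c)
    (Finset.empty_mem_powerset _)
  simpa using h2

end tensor

end Pool.Agent.Lib.MP_28260b_nt
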